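import Pool.Agent.V11222.TreeComb

/-!
Closing-off arguments for ray spaces: generic pairs of rays which are not separated by
prescribed clopen sets.
-/

namespace Pool.Agent.V11222

open Set Topology

universe u v w

section closure

variable {H : Type w}

/-- one closing-off step -/
def lstep (Φ : List H → Set H) (B : Set H) : Set H :=
  B ∪ ⋃ l ∈ {l : List H | ∀ z ∈ l, z ∈ B}, Φ l

lemma countable_lists {B : Set H} (hB : B.Countable) :
    {l : List H | ∀ z ∈ l, z ∈ B}.Countable := by
  have : Countable B := hB.to_subtype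
  refine (countable_range (fun l : List B => l.map Subtype.val)).mono ?_
  intro l hl
  induction l with
  | nil => exact ⟨[], rfl⟩
  | cons a l ih =>
    obtain ⟨l', hl'⟩ := ih (fun z hz => hl z (List.mem_cons_of_mem a hz))
    exact ⟨⟨a, hl a List.mem_cons_self⟩ :: l', by simpa using hl'⟩

theorem exists_closed (Φ : List H → Set H) (hΦ : ∀ l, (Φ l).Countable) {A : Set H}
    (hA : A.Countable) :
    ∃ M : Set H, A ⊆ M ∧ M.Countable ∧ ∀ l : List H, (∀ z ∈ l, z ∈ M) → Φ l ⊆ M := by
  let s : ℕ → Set H := fun n => (lstep Φ)^[n] A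
  have hs : ∀ n, s (n + 1) = lstep Φ (s n) := fun n => Function.iterate_succ_apply' _ n A
  have hmono : Monotone s := by
    refine monotone_nat_of_le_succ (fun n => ?_)
    rw [hs]
    exact subset_union_left
  refine ⟨⋃ n, s n, fun x hx => mem_iUnion.mpr ⟨0, hx⟩, ?_, ?_⟩
  · apply countable_iUnion
    intro n
    induction n with
    | zero => exact hA
    | succ n ih =>
      rw [hs]
      exact ih.union ((countable_lists ih).biUnion (fun l _ => hΦ l))
  · intro l hl
    have hfin : ∃ n, ∀ z ∈ l, z ∈ s n := by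
      induction l with
      | nil => exact ⟨0, by simp⟩
      | cons a l ih =>
        obtain ⟨n, hn⟩ := ih (fun z hz => hl z (List.mem_cons_of_mem a hz))
        obtain ⟨m, hm⟩ := mem_iUnion.mp (hl a List.mem_cons_self)
        refine ⟨max n m, ?_⟩
        intro z hz
        rcases List.mem_cons.mp hz with rfl | hz
        · exact hmono (le_max_right n m) hm
        · exact hmono (le_max_left n m) (hn z hz)
    obtain ⟨n, hn⟩ := hfin
    intro z hz
    refine mem_iUnion.mpr ⟨n + 1, ?_⟩
    rw [hs]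
    right
    simp only [mem_iUnion, exists_prop]
    exact ⟨l, hn, hz⟩

end closure

variable {T : Type u} [PartialOrder T]

/-- `T` cannot be captured by countable closing-off: for all countable-valued operations there
is a countable closed set missing a limit node `t` but containing all nodes below `t`, where
`t` lies on some ray. -/
def NM (T : Type u) [PartialOrder T] : Prop :=
  ∀ (H : Type w) (ι : T → H), Function.Injective ι → ∀ (Φ : List H → Set H),
    (∀ l, (Φ l).Countable) → ∃ M : Set H, M.Countable ∧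
      (∀ l : List H, (∀ z ∈ l, z ∈ M) → Φ l ⊆ M) ∧ ∃ t : T, IsLim t ∧ ι t ∉ M ∧
        (∀ s, s < t → ι s ∈ M) ∧ ∃ ρ : NonemptyRaySpace T, t ∈ ρ.carrier

/-- the ray below a limit node -/
def rayBelow (hT : IsOrderTree T) {t : T} (ht : IsLim t) : NonemptyRaySpace T :=
  ⟨Iio t, isRay_Iio hT ht, ht.1⟩

/-- limit nodes whose ray has a neighbourhood of a given kind inside `C` -/
def QS (C : Set (NonemptyRaySpace T)) (u : T) : Set T :=
  {t | IsLim t ∧ ∃ F : Set T, (∀ y ∈ F, ∀ z, z < t → z < y) ∧
    ∀ r : NonemptyRaySpace T, u ∈ r.carrier → (∀ y ∈ F, y ∉ r.carrier) → r ∈ C}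

/-- all rays below nodes of `P` are comparable -/
def PComp (P : Set T) : Prop :=
  ∀ t ∈ P, ∀ t' ∈ P, Set.Iio t ⊆ Set.Iio t' ∨ Set.Iio t' ⊆ Set.Iio t

lemma lower_comparable {R A B : Set T} (hR : IsChain (· ≤ ·) R) (hA : IsLowerSet A)
    (hB : IsLowerSet B) (hAR : A ⊆ R) (hBR : B ⊆ R) : A ⊆ B ∨ B ⊆ A := by
  by_contra hcon
  push Not at hcon
  obtain ⟨h1, h2⟩ := hcon
  rw [Set.not_subset] at h1 h2
  obtain ⟨a, ha, haB⟩ := h1
  obtain ⟨b, hb, hbA⟩ := h2
  rcases hR.total (hAR ha) (hBR hb) with h | h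
  · exact haB (hB h hb)
  · exact hbA (hA h ha)

lemma PComp.countable (hT : IsOrderTree T)
    (hch : ∀ c : Set T, IsChain (· ≤ ·) c → c.Countable)
    (htop : ∀ t : T, {t' | Set.Iio t' = Set.Iio t}.Countable) {P : Set T} (hP : PComp P) :
    P.Countable := by
  classical
  let c : Set T := {x | ∃ t ∈ P, x < t}
  have hcc : c.Countable := by
    apply hch
    rintro x ⟨t, ht, hxt⟩ y ⟨t', ht', hyt'⟩ _
    rcases hP t ht t' ht' with h | h
    · exact hT.comp (le_of_lt (h hxt)) (le_of_lt hyt')
    · exact hT.comp (le_of_lt hxt) (le_of_lt (h hyt'))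
  have hsub : P ⊆ {t' | Set.Iio t' = c} ∪ ⋃ x ∈ c, {t' | Set.Iio t' = Set.Iio x} := by
    intro t ht
    by_cases hc : Set.Iio t = c
    · exact Or.inl hc
    right
    have hsub : Set.Iio t ⊆ c := fun x hx => ⟨t, ht, hx⟩
    have hne : (c \ Set.Iio t).Nonempty := by
      rw [Set.nonempty_iff_ne_empty]
      intro h
      exact hc (Subset.antisymm hsub (sdiff_eq_empty.mp h))
    obtain ⟨m, hm, hmin⟩ := hT.wf.has_min _ hne
    simp only [mem_iUnion, exists_prop]
    refine ⟨m, hm.1, ?_⟩
    ext x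
    simp only [mem_Iio]
    obtain ⟨t', ht', hmt'⟩ := hm.1
    constructor
    · intro hx
      -- `x < t`, want `x < m`
      have hxc : x ∈ c := ⟨t, ht, hx⟩
      rcases hP t ht t' ht' with h | h
      · rcases hT.comp (le_of_lt (h hx)) (le_of_lt hmt') with h1 | h1
        · rcases eq_or_lt_of_le h1 with h2 | h2
          · exact absurd (h2 ▸ hx) hm.2
          · exact h2
        · exact absurd (lt_of_le_of_lt h1 hx) hm.2
      · exact absurd (h hmt') hm.2
    · intro hx
      by_contra hxt
      have hxc : x ∈ c := ⟨t', ht', lt_trans hx hmt'⟩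
      exact hmin x ⟨hxc, hxt⟩ hx
  refine Countable.mono hsub (Countable.union ?_ (hcc.biUnion (fun x _ => htop x)))
  by_cases h : ∃ t₀ : T, Set.Iio t₀ = c
  · obtain ⟨t₀, ht₀⟩ := h
    rw [← ht₀]
    exact htop t₀
  · convert countable_empty (α := T)
    rw [Set.eq_empty_iff_forall_notMem]
    intro x hx
    exact h ⟨x, hx⟩

lemma QS_of_not_comp {C : Set (NonemptyRaySpace T)} {u : T} (h : ¬ PComp (QS C u)) :
    ∀ r : NonemptyRaySpace T, u ∈ r.carrier → r ∈ C := by
  unfold PComp at h
  push Not at h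
  obtain ⟨t, ⟨ht, F, hF, hFC⟩, t', ⟨ht', F', hF', hFC'⟩, h1, h2⟩ := h
  intro r hr
  by_contra hrC
  have hf : ∃ y ∈ F, y ∈ r.carrier := by
    by_contra hcon
    push Not at hcon
    exact hrC (hFC r hr hcon)
  have hf' : ∃ y ∈ F', y ∈ r.carrier := by
    by_contra hcon
    push Not at hcon
    exact hrC (hFC' r hr hcon)
  obtain ⟨y, hy, hyr⟩ := hf
  obtain ⟨y', hy', hyr'⟩ := hf'
  have hA : Set.Iio t ⊆ r.carrier := fun z hz => r.isRay.1 (le_of_lt (hF y hy z hz)) hyr
  have hB : Set.Iio t' ⊆ r.carrier := fun z hz => r.isRay.1 (le_of_lt (hF' y' hy' z hz)) hyr'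
  rcases lower_comparable r.isRay.2.1 (isLowerSet_Iio t) (isLowerSet_Iio t') hA hB with h | h
  · exact h1 h
  · exact h2 h

open Classical in
/-- auxiliary countable set -/
noncomputable def QC (C : Set (NonemptyRaySpace T)) (u : T) : Set T :=
  if PComp (QS C u) then QS C u else ∅

theorem generic_pair (hT : IsOrderTree T)
    (hch : ∀ c : Set T, IsChain (· ≤ ·) c → c.Countable)
    (htop : ∀ t : T, {t' | Set.Iio t' = Set.Iio t}.Countable) (hNM : NM.{u, w} T)
    (ρ : T → NonemptyRaySpace T)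
    (hρ : ∀ u, (∃ r : NonemptyRaySpace T, u ∈ r.carrier) → u ∈ (ρ u).carrier)
    (H : Type w) (ι : T → H) (hι : Function.Injective ι) (Φ : List H → Set H)
    (hΦ : ∀ l, (Φ l).Countable) (𝒞 : List H → Set (Set (NonemptyRaySpace T)))
    (h𝒞 : ∀ l, (𝒞 l).Countable) (hcl : ∀ l, ∀ C ∈ 𝒞 l, IsClopen C) :
    ∃ M : Set H, M.Countable ∧ (∀ l : List H, (∀ z ∈ l, z ∈ M) → Φ l ⊆ M) ∧
      ∃ (t : T) (ht : IsLim t), ι t ∉ M ∧ ∃ b : NonemptyRaySpace T, t ∈ b.carrier ∧
        (∀ O : Set (NonemptyRaySpace T), IsOpen O → rayBelow hT ht ∈ O →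
          ∃ u, ι u ∈ M ∧ ρ u ∈ O) ∧
        ∀ l : List H, (∀ z ∈ l, z ∈ M) → ∀ C ∈ 𝒞 l, (rayBelow hT ht ∈ C ↔ b ∈ C) := by
  classical
  let E : T → List H → Set H := fun u l' =>
    (ι '' (ρ u).carrier ∪ ι '' {t' | Set.Iio t' = Set.Iio u}) ∪
      ⋃ C ∈ 𝒞 l', (ι '' (QC C u) ∪ ι '' (QC Cᶜ u))
  have hQC : ∀ C u, (QC C u : Set T).Countable := by
    intro C u
    unfold QC
    split_ifs with h
    · exact h.countable hT hch htop
    · exact countable_empty
  have hE : ∀ u l', (E u l').Countable := by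
    intro u l'
    refine Countable.union (Countable.union ?_ ?_) ?_
    · exact (hch _ (ρ u).isRay.2.1).image _
    · exact (htop u).image _
    · exact (h𝒞 l').biUnion (fun C _ => ((hQC C u).image _).union ((hQC Cᶜ u).image _))
  let Ψ : List H → Set H := fun l => Φ l ∪
    match l with
    | [] => ∅
    | z :: l' => ⋃ u ∈ {u | ι u = z}, E u l'
  have hΨ : ∀ l, (Ψ l).Countable := by
    intro l
    refine (hΦ l).union ?_
    cases l with
    | nil => exact countable_empty
    | cons z l' =>
      refine Countable.biUnion ?_ (fun u _ => hE u l')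
      apply Set.Subsingleton.countable
      intro a ha b hb
      exact hι (ha.trans hb.symm)
  obtain ⟨M, hMc, hMcl, t, ht, htM, hbelow, b, hb⟩ := hNM H ι hι Ψ hΨ
  have hEM : ∀ u l', ι u ∈ M → (∀ z ∈ l', z ∈ M) → E u l' ⊆ M := by
    intro u l' hu hl'
    have h1 : Ψ (ι u :: l') ⊆ M := by
      apply hMcl
      intro z hz
      rcases List.mem_cons.mp hz with rfl | hz
      · exact hu
      · exact hl' z hz
    refine Subset.trans ?_ h1
    intro x hx
    right
    simp only [mem_iUnion, exists_prop]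
    exact ⟨u, rfl, hx⟩
  refine ⟨M, hMc, fun l hl => (subset_union_left).trans (hMcl l hl), t, ht, htM, b, hb, ?_, ?_⟩
  · intro O hO hR
    obtain ⟨h, hh, F, _, hFa, hRF⟩ := nhd_basis_above (rayBelow hT ht) hO hR
    have hht : h < t := hh
    have hhb : h ∈ b.carrier := b.isRay.1 (le_of_lt hht) hb
    refine ⟨h, hbelow h hht, hRF (ρ h) (hρ h ⟨b, hhb⟩) ?_⟩
    intro y hy hyρ
    -- minimal node not below `t`
    obtain ⟨y', hy', hmin⟩ := hT.wf.has_min {x | x ≤ y ∧ ¬ x < t}
      ⟨y, le_refl y, fun h => lt_irrefl y (hFa y hy y h)⟩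
    have heq : Set.Iio y' = Set.Iio t := by
      ext z
      simp only [mem_Iio]
      constructor
      · intro hz
        by_contra hzt
        exact hmin z ⟨le_trans (le_of_lt hz) hy'.1, hzt⟩ hz
      · intro hz
        have hzy : z < y := hFa y hy z hz
        rcases hT.comp (le_of_lt hzy) hy'.1 with h1 | h1
        · rcases eq_or_lt_of_le h1 with h2 | h2
          · exact absurd (h2 ▸ hz) hy'.2
          · exact h2
        · exact absurd (lt_of_le_of_lt h1 hz) hy'.2
    have h1 : ι y' ∈ M := by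
      apply hEM h [] (hbelow h hht) (by simp)
      left; left
      exact ⟨y', (ρ h).isRay.1 hy'.1 hyρ, rfl⟩
    apply htM
    apply hEM y' [] h1 (by simp)
    left; right
    exact ⟨t, heq.symm, rfl⟩
  · intro l hl C hC
    have key : ∀ D : Set (NonemptyRaySpace T), IsOpen D → (D = C ∨ D = Cᶜ) →
        rayBelow hT ht ∈ D → b ∈ D := by
      intro D hD hDC hR
      obtain ⟨h, hh, F, _, hFa, hRF⟩ := nhd_basis_above (rayBelow hT ht) hD hR
      have hht : h < t := hh
      have hhb : h ∈ b.carrier := b.isRay.1 (le_of_lt hht) hb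
      have htQ : t ∈ QS D h := ⟨ht, F, fun y hy z hz => hFa y hy z hz, hRF⟩
      have hnc : ¬ PComp (QS D h) := by
        intro hcomp
        apply htM
        apply hEM h l (hbelow h hht) hl
        right
        simp only [mem_iUnion, exists_prop]
        refine ⟨C, hC, ?_⟩
        rcases hDC with rfl | rfl
        · left
          refine ⟨t, ?_, rfl⟩
          unfold QC
          rw [if_pos hcomp]
          exact htQ
        · right
          refine ⟨t, ?_, rfl⟩
          unfold QC
          rw [if_pos hcomp]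
          exact htQ
      exact QS_of_not_comp hnc b hhb
    constructor
    · exact key C (hcl l C hC).isOpen (Or.inl rfl)
    · intro hbC
      by_contra hRC
      exact key Cᶜ (hcl l C hC).compl.isOpen (Or.inr rfl) hRC hbC

end Pool.Agent.V11222
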