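import Pool.Agent.V11222.RigidCore

/-!
Closed subspaces of `XX G`: self-homeomorphisms fix all condensation points.
-/

namespace Pool.Agent.V11222

open Set Topology Filter GenTrans

lemma not_countable_XX (G : Generic RR) : ¬ (XX G).Countable := by
  intro h
  have h1 : ¬ ((XX G)ᶜ).Countable := by
    intro h2
    have h3 := h.union h2
    rw [union_compl_self, countable_univ_iff, ← Cardinal.mk_le_aleph0_iff, mk_C] at h3
    exact absurd h3 (not_le.mpr Cardinal.aleph0_lt_continuum)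
  obtain ⟨j, -, -, hj⟩ := G.exists_mem _ h.measurableSet.compl h1 false (Classical.arbitrary J)
  exact hj (t_mem G j)

lemma not_countable_of_mem_nhds {x : C} {U : Set C} (hU : U ∈ 𝓝 x) : ¬ U.Countable := by
  classical
  intro hc
  obtain ⟨V, hVU, hV, hxV⟩ := mem_nhds_iff.mp hU
  obtain ⟨I, u, hu, hIV⟩ := isOpen_pi_iff.mp hV x hxV
  obtain ⟨n, hn⟩ := I.exists_nat_subset_range
  let g : C → C := fun z k => if k < n then x k else z (k - n)
  have hg : Function.Injective g := by
    intro z z' h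
    ext m
    have := congrFun h (m + n)
    simpa [g] using this
  have h1 : range g ⊆ U := by
    rintro _ ⟨z, rfl⟩
    apply hVU
    apply hIV
    intro k hk
    have hkn : k < n := Finset.mem_range.mp (hn hk)
    simp only [g, if_pos hkn]
    exact (hu k hk).2
  have h2 : (range g).Countable := hc.mono h1
  rw [← Cardinal.le_aleph0_iff_set_countable, Cardinal.mk_range_eq g hg, mk_C] at h2
  exact absurd h2 (not_le.mpr Cardinal.aleph0_lt_continuum)

/-- Every self-homeomorphism of a closed subspace of `XX G` fixes all condensation points. -/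
theorem fix_condensation (G : Generic RR) {Q : Set C} (hQ : IsClosed Q)
    (h : ↥(XX G ∩ Q) ≃ₜ ↥(XX G ∩ Q)) (x : ↥(XX G ∩ Q))
    (hx : ∀ U ∈ 𝓝 (x : C), ¬ (Q ∩ U).Countable) : h x = x := by
  by_contra hne
  have hne' : (x : C) ≠ (h x : C) := fun h' => hne (Subtype.ext h'.symm)
  obtain ⟨U1, V1, hU1, hV1, hxU, hxV, hdis⟩ := t2_separation hne'
  have h1 : {y : ↥(XX G ∩ Q) | (h y : C) ∈ V1} ∈ 𝓝 x :=
    (hV1.preimage (continuous_subtype_val.comp h.continuous)).mem_nhds hxV
  obtain ⟨W, hW, hWsub⟩ := mem_nhds_induced (Subtype.val) x _ |>.mp h1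
  obtain ⟨W', hW'W, hW', hxW'⟩ := mem_nhds_iff.mp hW
  obtain ⟨U, hU, hxU', hUsub⟩ :=
    (loc_compact_Haus_tot_disc_of_zero_dim (H := C)).exists_subset_of_mem_open
      (show (x : C) ∈ U1 ∩ W' from ⟨hxU, hxW'⟩) (hU1.inter hW')
  have hUc : IsClopen U := hU
  have hPu : ¬ (Q ∩ U).Countable := hx U (hUc.isOpen.mem_nhds hxU')
  have hsub : XX G ∩ (Q ∩ U) ⊆ XX G ∩ Q := fun y hy => ⟨hy.1, hy.2.1⟩
  refine no_moving G (hQ.inter hUc.isClosed) hPu
    (fun y => (h (inclusion hsub y) : C)) ?_ ?_ ?_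
  · exact (IsEmbedding.subtypeVal.comp h.isEmbedding).comp (IsEmbedding.inclusion hsub)
  · intro y
    exact (h (inclusion hsub y)).2.1
  · intro y hy
    have h2 : (h (inclusion hsub y) : C) ∈ V1 := by
      have h3 : inclusion hsub y ∈ {y : ↥(XX G ∩ Q) | (h y : C) ∈ V1} :=
        hWsub (hW'W (hUsub y.2.2.2).2)
      exact h3
    have h4 : (y : C) ∈ U1 := (hUsub y.2.2.2).1
    rw [hy] at h2
    exact Set.disjoint_left.mp hdis h4 h2

/-- An uncountable set has a condensation point. -/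
lemma exists_condensation {K : Set C} (hK : ¬ K.Countable) :
    ∃ x ∈ K, ∀ U ∈ 𝓝 x, ¬ (K ∩ U).Countable := by
  by_contra hcon
  push Not at hcon
  apply hK
  have h1 : K ⊆ ⋃ B ∈ {B ∈ TopologicalSpace.countableBasis C | (K ∩ B).Countable}, K ∩ B := by
    intro x hx
    obtain ⟨U, hU, hc⟩ := hcon x hx
    obtain ⟨B, hB, hxB, hBU⟩ :=
      (TopologicalSpace.isBasis_countableBasis C).mem_nhds_iff.mp hU
    refine mem_biUnion (x := B) ⟨hB, hc.mono (inter_subset_inter_right K hBU)⟩ ⟨hx, hxB⟩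
  refine Set.Countable.mono h1 ?_
  refine Set.Countable.biUnion ?_ (fun B hB => hB.2)
  exact (TopologicalSpace.countable_countableBasis C).mono (fun B hB => hB.1)

/-- The subspace of a subspace. -/
noncomputable def subHomeo {X : Type*} [TopologicalSpace X] (K Q : Set X) :
    ↥(Subtype.val ⁻¹' Q : Set K) ≃ₜ ↥(K ∩ Q) where
  toFun x := ⟨x.1.1, x.1.2, x.2⟩
  invFun y := ⟨⟨y.1, y.2.1⟩, y.2.2⟩
  left_inv _ := rfl
  right_inv _ := rfl
  continuous_toFun := by fun_prop
  continuous_invFun := by fun_prop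

/-- Every nonempty subspace of the Cantor space is zero-dimensional. -/
lemma isZeroDim_sub {X : Set (ℕ → Bool)} (h : X.Nonempty) : IsZeroDimSpace X := by
  refine ⟨h.to_subtype, ?_⟩
  have hb := (loc_compact_Haus_tot_disc_of_zero_dim (H := (ℕ → Bool)))
  refine TopologicalSpace.isTopologicalBasis_of_isOpen_of_nhds (fun s hs => hs.isOpen) ?_
  intro x U hxU hU
  obtain ⟨V, hV, rfl⟩ := isOpen_induced_iff.mp hU
  obtain ⟨W, hW, hxW, hWV⟩ := hb.exists_subset_of_mem_open (show (x : ℕ → Bool) ∈ V from hxU) hV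
  have hW' : IsClopen W := hW
  exact ⟨Subtype.val ⁻¹' W, hW'.preimage continuous_subtype_val, hxW, preimage_mono hWV⟩

lemma isSigma_of_two {X : Type*} [TopologicalSpace X] {A B : Set X} (hA : IsHomogeneousSpace A)
    (hB : IsHomogeneousSpace B) (h : A ∪ B = Set.univ) : IsSigmaHomogeneous X := by
  refine ⟨fun n => Nat.casesOn n A (fun _ => B), ?_, ?_⟩
  · intro n
    cases n
    · exact hA
    · exact hB
  · rw [Set.eq_univ_iff_forall]
    intro x
    have hx : x ∈ A ∪ B := by rw [h]; trivial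
    rcases hx with h | h
    · exact mem_iUnion.mpr ⟨0, h⟩
    · exact mem_iUnion.mpr ⟨1, h⟩

lemma XX_parts (G : Generic RR) : ∃ A B : Set (XX G), IsHomogeneousSpace A ∧
    IsHomogeneousSpace B ∧ Disjoint A B ∧ A ∪ B = Set.univ := by
  have hA : IsHomogeneousSpace ↥(Subtype.val ⁻¹' (X0 G) : Set (XX G)) := by
    refine IsHomogeneousSpace.of_homeomorph
      (((subHomeo (XX G) (X0 G)).trans (Homeomorph.setCongr ?_)).symm) (isHomogeneous_X0 G)
    exact inter_eq_right.mpr subset_union_left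
  have hB : IsHomogeneousSpace ↥(Subtype.val ⁻¹' (X1 G) : Set (XX G)) := by
    refine IsHomogeneousSpace.of_homeomorph
      (((subHomeo (XX G) (X1 G)).trans (Homeomorph.setCongr ?_)).symm) (isHomogeneous_X1 G)
    exact inter_eq_right.mpr subset_union_right
  have hunion : (Subtype.val ⁻¹' (X0 G) : Set (XX G)) ∪ (Subtype.val ⁻¹' (X1 G) : Set (XX G)) =
      Set.univ := by
    ext x
    simp only [mem_union, mem_preimage, mem_univ, iff_true]
    exact x.2
  exact ⟨_, _, hA, hB, (disjoint_X0_X1 G).preimage _, hunion⟩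

/-- Closed homogeneous subspaces of `XX G` are countable. -/
lemma countable_of_closed_homogeneous (G : Generic RR) (A : Set (XX G)) (hA : IsClosed A)
    (hhom : IsHomogeneousSpace A) : A.Countable := by
  obtain ⟨Q, hQ, rfl⟩ := isClosed_induced_iff.mp hA
  have hhom' : IsHomogeneousSpace ↥(XX G ∩ Q) :=
    IsHomogeneousSpace.of_homeomorph (subHomeo (XX G) Q) hhom
  have hcount : (XX G ∩ Q).Countable := by
    by_contra hK
    obtain ⟨x, hx, hcond⟩ := exists_condensation hK
    have hnt : (XX G ∩ Q).Nontrivial := by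
      by_contra h
      rw [Set.not_nontrivial_iff] at h
      exact hK h.countable
    obtain ⟨y, hy, hyx⟩ := hnt.exists_ne x
    obtain ⟨h, hh⟩ := hhom' (⟨x, hx⟩ : ↥(XX G ∩ Q)) (⟨y, hy⟩ : ↥(XX G ∩ Q))
    have hQU : ∀ U ∈ 𝓝 x, ¬ (Q ∩ U).Countable := by
      intro U hU hc
      have hsub : (XX G ∩ Q) ∩ U ⊆ Q ∩ U := fun z hz => ⟨hz.1.2, hz.2⟩
      exact hcond U hU (hc.mono hsub)
    have h1 := fix_condensation G hQ h (⟨x, hx⟩ : ↥(XX G ∩ Q)) hQU
    rw [hh] at h1
    exact hyx (congrArg Subtype.val h1)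
  have h3 := hcount.preimage (f := (Subtype.val : XX G → (ℕ → Bool))) Subtype.val_injective
  refine h3.mono ?_
  intro x hx
  exact ⟨x.2, hx⟩

end Pool.Agent.V11222
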