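import Pool.Agent.V11222.BlumTree

/-!
The Dedekind completion `LowerSet (L S)` has at most continuum many points when `S` contains no
club and is unbounded.
-/

namespace Pool.Agent.V11222.Blum

open Set Cardinal

variable {S : Set W}

lemma countable_val (t : L S) : t.1.Countable := by
  obtain ⟨c, hc⟩ := t.2.2.2
  exact (countable_Iic c).mono fun x hx => hc hx

lemma mk_countable_le {α : Type} (h : #α ≤ 𝔠) : #{t : Set α // t.Countable} ≤ 𝔠 := by
  have h1 : #{t : Set α // t.Countable} ≤ #{t : Set α // #t ≤ ℵ₀} := by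
    refine mk_le_of_injective (f := fun t => ⟨t.1, t.2.le_aleph0⟩) ?_
    intro s t hst
    simpa [Subtype.ext_iff] using hst
  refine h1.trans ((mk_bounded_set_le α ℵ₀).trans ?_)
  calc max #α ℵ₀ ^ ℵ₀ ≤ 𝔠 ^ ℵ₀ := power_le_power_right (max_le h aleph0_le_continuum)
    _ = 𝔠 := continuum_power_aleph0

lemma mk_L : #(L S) ≤ 𝔠 := by
  have h : #W ≤ 𝔠 := by rw [mk_W]; exact aleph_one_le_continuum
  refine le_trans ?_ (mk_countable_le h)
  refine mk_le_of_injective (f := fun t : L S => (⟨t.1, countable_val t⟩ : {t : Set W // t.Countable})) ?_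
  intro s t hst
  apply Subtype.ext
  simpa [Subtype.ext_iff] using hst

lemma mem_lt_of_not_mem {A : LowerSet (L S)} {C C' : L S} (h : C ∈ A) (h' : C' ∉ A) : C < C' := by
  by_contra hh
  push Not at hh
  exact h' (A.lower hh h)

/-- `B ∩ Iic η` for `η ∈ B`. -/
def cut (t : L S) (η : W) : L S := ⟨t.1 ∩ Iic η, fun x hx => t.2.1 hx.1, by
  intro d hd
  constructor
  · apply t.2.2.1
    refine ⟨hd.1, fun x hx => ?_⟩
    obtain ⟨y, hy, h⟩ := hd.2 x hx
    exact ⟨y, hy.1, h⟩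
  · by_contra hh
    simp only [mem_Iic, not_le] at hh
    obtain ⟨y, hy, h⟩ := hd.2 η hh
    exact absurd h.1 (not_lt.mpr hy.2), ⟨η, fun x hx => hx.2⟩⟩

/-- The main structural lemma: every lower set of `L S` has countable character from one side. -/
theorem lowerSet_cases (hS : Stat S) (hS' : Stat Sᶜ) (A : LowerSet (L S)) :
    ∃ Q : Set (L S), Q.Countable ∧ ((∀ C, C ∈ A ↔ ∃ D ∈ Q, C ≤ D) ∨ (∀ C, C ∈ A ↔ ∀ D ∈ Q, C < D)) := by
  by_contra hcon
  push Not at hcon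
  have H1 : ∀ Q : Set (L S), Q.Countable → (∀ D ∈ Q, D ∈ A) → ∃ C ∈ A, ∀ D ∈ Q, D < C := by
    intro Q hQ hQA
    obtain ⟨C, hC | ⟨hC, D, hD, h⟩⟩ := (hcon Q hQ).1
    · exact ⟨C, hC.1, hC.2⟩
    · exact absurd (A.lower h (hQA D hD)) hC
  have H2 : ∀ Q : Set (L S), Q.Countable → (∀ D ∈ Q, D ∉ A) → ∃ C, C ∉ A ∧ ∀ D ∈ Q, C < D := by
    intro Q hQ hQA
    obtain ⟨C, ⟨hC, D, hD, h⟩ | hC⟩ := (hcon Q hQ).2
    · exact absurd (A.lower h hC) (hQA D hD)
    · exact ⟨C, hC.1, hC.2⟩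
  -- splitting pairs at all levels
  have HP : ∀ ξ : W, ∃ C C' : L S, C ∈ A ∧ C' ∉ A ∧ Agr (Iio ξ) C C' := by
    have : Nonempty (L S) := ⟨bot0⟩
    intro ξ
    induction ξ using (wellFounded_lt (α := W)).induction with
    | _ ξ ih =>
      choose! C C' hC hC' hag using ih
      by_cases hlim : ∀ ζ < ξ, ∃ ζ' < ξ, ζ < ζ'
      · obtain ⟨D, hD, hD2⟩ := H1 (C '' Iio ξ) ((countable_Iio ξ).image _) (by
          rintro _ ⟨ζ, hζ, rfl⟩
          exact hC ζ hζ)
        obtain ⟨D', hD', hD2'⟩ := H2 (C' '' Iio ξ) ((countable_Iio ξ).image _) (by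
          rintro _ ⟨ζ, hζ, rfl⟩
          exact hC' ζ hζ)
        refine ⟨D, D', hD, hD', fun x hx => ?_⟩
        obtain ⟨ζ, hζ, hxζ⟩ := hlim x hx
        have a1 : C ζ < D := hD2 _ ⟨ζ, hζ, rfl⟩
        have a2 : D' < C' ζ := hD2' _ ⟨ζ, hζ, rfl⟩
        have a3 : D < D' := mem_lt_of_not_mem hD hD'
        have b1 := Agr.of_between (isLowerSet_Iio ζ) (hag ζ hζ) a1.le (a3.le.trans a2.le)
        have b2 := Agr.of_between (isLowerSet_Iio ζ) (hag ζ hζ) (a1.le.trans a3.le) a2.le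
        exact (b1.symm.trans b2) x hxζ
      · push Not at hlim
        obtain ⟨η, hη, hmax⟩ := hlim
        -- `ξ = η + 1`
        have hag' := hag η hη
        by_cases hsame : (η ∈ (C η).1 ↔ η ∈ (C' η).1)
        · refine ⟨C η, C' η, hC η hη, hC' η hη, fun x hx => ?_⟩
          rcases (hmax x hx).eq_or_lt with rfl | h
          · exact hsame
          · exact hag' x h
        · have hlt : C η < C' η := mem_lt_of_not_mem (hC η hη) (hC' η hη)
          obtain ⟨θ, c1, c2, c3⟩ := (lt_def _ _).mp hlt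
          have hθη : θ = η := by
            rcases lt_trichotomy θ η with h | h | h
            · exact absurd ((hag' θ h).mpr c1) c2
            · exact h
            · exact absurd (c3 η h) hsame
          subst hθη
          -- now `θ ∈ C'` and `θ ∉ C`
          let B : L S := cut (C' θ) θ
          have hBval : B.1 = (C' θ).1 ∩ Iic θ := rfl
          by_cases hBA : B ∈ A
          · refine ⟨B, C' θ, hBA, hC' θ hη, fun x hx => ?_⟩
            rw [hBval]
            exact ⟨fun h => h.1, fun h => ⟨h, hmax x hx⟩⟩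
          · obtain ⟨D, hD, hD2⟩ := H2 {B} (countable_singleton _) (by
              rintro _ rfl
              exact hBA)
            have hDB : D < B := hD2 B rfl
            have hCD : C θ < D := mem_lt_of_not_mem (hC θ hη) hD
            -- `C` and `B` agree below `θ`
            have hCB : Agr (Iio θ) (C θ) B := by
              intro x hx
              rw [hBval]
              exact ⟨fun h => ⟨(hag' x hx).mp h, le_of_lt (show x < θ from hx)⟩, fun h => (hag' x hx).mpr h.1⟩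
            have hCD' : Agr (Iio θ) (C θ) D :=
              Agr.of_between (isLowerSet_Iio θ) hCB hCD.le hDB.le
            have hθD : θ ∉ D.1 := by
              intro hh
              obtain ⟨ρ, d1, d2, d3⟩ := (lt_def _ _).mp hDB
              have hρ : ρ ≤ θ := d1.2
              rcases hρ.eq_or_lt with rfl | hρ
              · exact d2 hh
              · exact d2 ((hCD' ρ hρ).mp ((hCB ρ hρ).mpr d1))
            refine ⟨C θ, D, hC θ hη, hD, fun x hx => ?_⟩
            rcases (hmax x hx).eq_or_lt with rfl | h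
            · exact ⟨fun h => absurd h c2, fun h => absurd h hθD⟩
            · exact hCD' x h
  -- coherence
  have Hcoh : ∀ (ξ : W) (C₁ C₁' C₂ C₂' : L S), C₁ ∈ A → C₁' ∉ A → C₂ ∈ A → C₂' ∉ A →
      Agr (Iio ξ) C₁ C₁' → Agr (Iio ξ) C₂ C₂' → Agr (Iio ξ) C₁ C₂ := by
    intro ξ C₁ C₁' C₂ C₂' h1 h1' h2 h2' ha1 ha2
    rcases le_total C₁ C₂ with h | h
    · exact Agr.of_between (isLowerSet_Iio ξ) ha1 h (mem_lt_of_not_mem h2 h1').le
    · exact (Agr.of_between (isLowerSet_Iio ξ) ha2 h (mem_lt_of_not_mem h1 h2').le).symm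
  choose P P' hP hP' hPag using HP
  -- the branch
  let B : Set W := {x | ∃ ξ, x < ξ ∧ x ∈ (P ξ).1}
  have hB : ∀ ξ x, x < ξ → (x ∈ B ↔ x ∈ (P ξ).1) := by
    intro ξ x hx
    constructor
    · rintro ⟨ζ, hζ, hx2⟩
      rcases le_total ζ ξ with h | h
      · have := Hcoh ζ (P ζ) (P' ζ) (P ξ) (P' ξ) (hP _) (hP' _) (hP _) (hP' _) (hPag _)
          (fun y hy => hPag ξ y (lt_of_lt_of_le hy h))
        exact (this x hζ).mp hx2
      · have := Hcoh ξ (P ζ) (P' ζ) (P ξ) (P' ξ) (hP _) (hP' _) (hP _) (hP' _)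
          (fun y hy => hPag ζ y (lt_of_lt_of_le hy h)) (hPag _)
        exact (this x hx).mp hx2
    · exact fun h => ⟨ξ, hx, h⟩
  have hBcl : Cl B := by
    intro d hd
    obtain ⟨ξ, hξ⟩ := NoMaxOrder.exists_gt d
    rw [hB ξ d hξ]
    apply (P ξ).2.2.1
    refine ⟨hd.1, fun x hx => ?_⟩
    obtain ⟨y, hy, h⟩ := hd.2 x hx
    exact ⟨y, (hB ξ y (h.2.trans hξ)).mp hy, h⟩
  have hBS : B ⊆ S := by
    rintro x ⟨ξ, _, h⟩
    exact (P ξ).2.1 h
  have hBb : BddAbove B := by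
    by_contra hh
    rw [not_bddAbove_iff] at hh
    obtain ⟨x, hx, hxB⟩ := hS' B ⟨hBcl, hh⟩
    exact hx (hBS hxB)
  let b : L S := ⟨B, hBS, hBcl, hBb⟩
  have hbA : b ∈ A := by
    by_contra hh
    -- a bound for `B`
    obtain ⟨c, hc⟩ := hBb
    obtain ⟨D, hD, hD2⟩ := H2 {b} (countable_singleton _) (by rintro _ rfl; exact hh)
    have hDb : D < b := hD2 b rfl
    obtain ⟨θ, e1, e2, e3⟩ := (lt_def _ _).mp hDb
    obtain ⟨ξ, hξ⟩ := NoMaxOrder.exists_gt θ
    have hPD : P ξ < D := mem_lt_of_not_mem (hP ξ) hD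
    obtain ⟨ρ, f1, f2, f3⟩ := (lt_def _ _).mp hPD
    have : θ ∈ (P ξ).1 := (hB ξ θ hξ).mp e1
    have hρθ : ρ ≤ θ := by
      by_contra hlt
      push Not at hlt
      exact e2 ((f3 θ hlt).mp this)
    rcases hρθ.eq_or_lt with rfl | hlt
    · exact e2 f1
    · have h1 : ρ ∈ b.1 := (e3 ρ hlt).mp f1
      exact f2 ((hB ξ ρ (hlt.trans hξ)).mp h1)
  obtain ⟨C, hCA, hC⟩ := H1 {b} (countable_singleton _) (by rintro _ rfl; exact hbA)
  have hbC : b < C := hC b rfl
  obtain ⟨θ, e1, e2, e3⟩ := (lt_def _ _).mp hbC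
  obtain ⟨ξ, hξ⟩ := NoMaxOrder.exists_gt θ
  have hCP : C < P' ξ := mem_lt_of_not_mem hCA (hP' ξ)
  obtain ⟨ρ, f1, f2, f3⟩ := (lt_def _ _).mp hCP
  have hθ : θ ∉ (P' ξ).1 := fun h => e2 ((hB ξ θ hξ).mpr ((hPag ξ θ hξ).mpr h))
  have hρθ : ρ ≤ θ := by
    by_contra hlt
    push Not at hlt
    exact hθ ((f3 θ hlt).mp e1)
  rcases hρθ.eq_or_lt with rfl | hlt
  · exact f2 e1
  · have h1 : ρ ∈ (P ξ).1 := (hPag ξ ρ (hlt.trans hξ)).mpr f1
    have h2 : ρ ∈ b.1 := (hB ξ ρ (hlt.trans hξ)).mpr h1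
    exact f2 ((e3 ρ hlt).mp h2)

/-- The completion has at most continuum many points. -/
theorem mk_lowerSet (hS : Stat S) (hS' : Stat Sᶜ) : #(LowerSet (L S)) ≤ 𝔠 := by
  have h := lowerSet_cases hS hS'
  choose Q hQ hQ2 using h
  classical
  let F : LowerSet (L S) → {t : Set (L S) // t.Countable} × Prop :=
    fun A => (⟨Q A, hQ A⟩, ∀ C, C ∈ A ↔ ∃ D ∈ Q A, C ≤ D)
  have hF : Function.Injective F := by
    intro A A' h
    have h1 : Q A = Q A' := by
      have := congrArg (fun p => p.1.1) h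
      exact this
    have h2 : (∀ C, C ∈ A ↔ ∃ D ∈ Q A, C ≤ D) ↔ (∀ C, C ∈ A' ↔ ∃ D ∈ Q A', C ≤ D) := by
      have := congrArg (fun p => p.2) h
      exact iff_of_eq this
    ext C
    by_cases h3 : ∀ C, C ∈ A ↔ ∃ D ∈ Q A, C ≤ D
    · have h4 := h2.mp h3
      show C ∈ A ↔ C ∈ A'
      rw [h3 C, h4 C, h1]
    · have h4 : ¬ (∀ C, C ∈ A' ↔ ∃ D ∈ Q A', C ≤ D) := fun hh => h3 (h2.mpr hh)
      have h5 := (hQ2 A).resolve_left h3
      have h6 := (hQ2 A').resolve_left h4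
      show C ∈ A ↔ C ∈ A'
      rw [h5 C, h6 C, h1]
  refine (mk_le_of_injective hF).trans ?_
  rw [mk_prod]
  simp only [lift_id, mk_Prop]
  have h2 : (2 : Cardinal.{0}) ≤ 𝔠 := by
    have := (nat_lt_aleph0 2).le.trans aleph0_le_continuum
    exact_mod_cast this
  refine (mul_le_mul' (mk_countable_le mk_L) h2).trans ?_
  simp

end Pool.Agent.V11222.Blum
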