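import Mathlib

/-!
The least uncountable well-order `W`, clubs, stationary sets and the existence of a
bistationary set.
-/

namespace Pool.Agent.V11222.Blum

open Set Cardinal

/-- The least uncountable well-order. -/
abbrev W : Type := (Cardinal.aleph 1 : Cardinal.{0}).ord.ToType

lemma mk_W : #W = ℵ₁ := by simp

lemma countable_Iio (a : W) : (Iio a).Countable := by
  have h : #(Iio a) < ℵ₁ := by
    have := Cardinal.mk_Iio_lt a (by simp)
    simpa using this
  rw [← le_aleph0_iff_set_countable]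
  have h2 : #(Iio a) < Order.succ ℵ₀ := by
    refine h.trans_le ?_
    rw [succ_aleph0]
  exact Order.lt_succ_iff.mp h2

lemma countable_Iic (a : W) : (Iic a).Countable := by
  have h1 : (Iic a : Set W) = insert a (Iio a) := by
    ext x; simp [le_iff_eq_or_lt]
  rw [h1]
  exact (countable_Iio a).insert a

lemma not_countable_univ : ¬ (Set.univ : Set W).Countable := by
  intro h
  have h1 := h.le_aleph0
  rw [mk_univ, mk_W] at h1
  exact absurd h1 (not_le.mpr aleph0_lt_aleph_one)

/-- Countable subsets are strictly bounded. -/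
lemma exists_bound {s : Set W} (hs : s.Countable) : ∃ b, ∀ a ∈ s, a < b := by
  by_contra h
  push Not at h
  have h1 : (Set.univ : Set W) ⊆ ⋃ a ∈ s, Iic a := by
    intro b _
    obtain ⟨a, ha, hb⟩ := h b
    exact mem_biUnion ha hb
  exact not_countable_univ ((hs.biUnion fun a _ => countable_Iic a).mono h1)

instance : NoMaxOrder W := ⟨fun a => by
  obtain ⟨b, hb⟩ := exists_bound (countable_singleton a)
  exact ⟨b, hb a rfl⟩⟩

instance : Nonempty W := by
  rw [← mk_ne_zero_iff, mk_W]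
  exact (aleph0_pos.trans aleph0_lt_aleph_one).ne'

/-- `d` is a limit of points of `t` from below. -/
def IsLim (t : Set W) (d : W) : Prop := (∃ x, x < d) ∧ ∀ x < d, ∃ y ∈ t, x < y ∧ y < d

/-- `t` contains all its limits. -/
def Cl (t : Set W) : Prop := ∀ d, IsLim t d → d ∈ t

/-- Closed unbounded sets. -/
def Club (E : Set W) : Prop := Cl E ∧ ∀ a, ∃ b ∈ E, a < b

/-- Stationary sets. -/
def Stat (S : Set W) : Prop := ∀ E, Club E → (S ∩ E).Nonempty

lemma exists_isLUB {t : Set W} (hb : BddAbove t) : ∃ d, IsLUB t d := by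
  have h : (upperBounds t).Nonempty := hb
  refine ⟨(wellFounded_lt (α := W)).min _ h, (wellFounded_lt (α := W)).min_mem _ h, ?_⟩
  intro b hb'
  exact not_lt.mp ((wellFounded_lt (α := W)).not_lt_min _ hb')

/-- A closed bounded nonempty set has a maximum. -/
lemma exists_max {t : Set W} (ht : Cl t) (hb : BddAbove t) (hne : t.Nonempty) :
    ∃ m ∈ t, ∀ x ∈ t, x ≤ m := by
  obtain ⟨d, hd⟩ := exists_isLUB hb
  by_cases hdt : d ∈ t
  · exact ⟨d, hdt, fun x hx => hd.1 hx⟩
  · exfalso
    apply hdt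
    apply ht
    obtain ⟨x, hx⟩ := hne
    refine ⟨⟨x, lt_of_le_of_ne (hd.1 hx) (fun h => hdt (h ▸ hx))⟩, ?_⟩
    intro y hy
    have : ¬ (y ∈ upperBounds t) := fun h => absurd (hd.2 h) (not_le.mpr hy)
    simp only [mem_upperBounds, not_forall, not_le] at this
    obtain ⟨z, hz, hyz⟩ := this
    exact ⟨z, hz, hyz, lt_of_le_of_ne (hd.1 hz) (fun h => hdt (h ▸ hz))⟩

/-- A set of closure points of a function, with a prescribed lower bound. -/
lemma exists_closed_point (b : ℕ → W → W) (a : W) :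
    ∃ d, a < d ∧ ∀ n, ∀ x < d, b n x < d := by
  have hstep : ∀ x : W, ∃ y, x < y ∧ ∀ n, ∀ z ≤ x, b n z < y := by
    intro x
    obtain ⟨y, hy⟩ := exists_bound
      (s := {x} ∪ ⋃ n : ℕ, (b n) '' (Iic x))
      ((countable_singleton x).union
        (countable_iUnion fun n => (countable_Iic x).image _))
    refine ⟨y, hy x (Or.inl rfl), fun n z hz => hy _ (Or.inr ?_)⟩
    exact mem_iUnion.mpr ⟨n, mem_image_of_mem _ hz⟩
  choose h h1 h2 using hstep
  let s : ℕ → W := fun k => h^[k] a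
  have hs : ∀ k, s (k+1) = h (s k) := fun k => Function.iterate_succ_apply' h k a
  have hb : BddAbove (range s) := by
    obtain ⟨c, hc⟩ := exists_bound (countable_range s)
    exact ⟨c, fun x hx => (hc x hx).le⟩
  obtain ⟨d, hd⟩ := exists_isLUB hb
  have hlt : ∀ k, s k < d := by
    intro k
    have : s (k+1) ≤ d := hd.1 ⟨k+1, rfl⟩
    rw [hs] at this
    exact (h1 _).trans_le this
  refine ⟨d, hlt 0, ?_⟩
  intro n x hx
  have : ¬ (x ∈ upperBounds (range s)) := fun h => absurd (hd.2 h) (not_le.mpr hx)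
  simp only [mem_upperBounds, not_forall, not_le] at this
  obtain ⟨_, ⟨k, rfl⟩, hk⟩ := this
  have h3 := h2 (s k) n x hk.le
  rw [← hs] at h3
  exact h3.trans (hlt _)

/-- The closure points of a function form a club. -/
lemma club_closed (b : W → W) : Club {d | (∃ x, x < d) ∧ ∀ x < d, b x < d} := by
  constructor
  · rintro d ⟨hd1, hd2⟩
    refine ⟨hd1, fun x hx => ?_⟩
    obtain ⟨y, hy, hxy, hyd⟩ := hd2 x hx
    exact (hy.2 x hxy).trans hyd
  · intro a
    obtain ⟨d, hd, h⟩ := exists_closed_point (fun _ => b) a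
    exact ⟨d, ⟨⟨a, hd⟩, fun x hx => h 0 x hx⟩, hd⟩

/-- Countable intersections of clubs are clubs. -/
lemma club_iInter {E : ℕ → Set W} (hE : ∀ n, Club (E n)) : Club (⋂ n, E n) := by
  constructor
  · intro d hd
    refine mem_iInter.mpr fun n => (hE n).1 d ⟨hd.1, fun x hx => ?_⟩
    obtain ⟨y, hy, h⟩ := hd.2 x hx
    exact ⟨y, mem_iInter.mp hy n, h⟩
  · intro a
    choose b hb1 hb2 using fun n => (hE n).2
    obtain ⟨d, hd, h⟩ := exists_closed_point b a
    refine ⟨d, mem_iInter.mpr fun n => (hE n).1 d ⟨⟨a, hd⟩, fun x hx => ?_⟩, hd⟩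
    exact ⟨b n x, hb1 n x, hb2 n x, h n x hx⟩

/-- There is a stationary set with stationary complement. -/
theorem exists_bistationary : ∃ S : Set W, Stat S ∧ Stat Sᶜ := by
  have hc : #W ≤ #(ℕ → Bool) := by
    rw [mk_W]
    simpa using aleph_one_le_continuum
  obtain ⟨r, hr⟩ : ∃ r : W → (ℕ → Bool), Function.Injective r :=
    ⟨_, (Cardinal.le_def _ _ |>.mp hc).some.injective⟩
  by_contra hcon
  push Not at hcon
  have h : ∀ n, ∃ E : Set W, ∃ c : Bool, Club E ∧ ∀ x ∈ E, r x n = c := by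
    intro n
    by_cases h1 : Stat {x | r x n = true}
    · have h2 := hcon _ h1
      simp only [Stat, not_forall] at h2
      obtain ⟨E, hE, hne⟩ := h2
      refine ⟨E, true, hE, fun x hx => ?_⟩
      by_contra hx2
      exact hne ⟨x, hx2, hx⟩
    · simp only [Stat, not_forall] at h1
      obtain ⟨E, hE, hne⟩ := h1
      refine ⟨E, false, hE, fun x hx => ?_⟩
      by_contra hx2
      exact hne ⟨x, by simpa using hx2, hx⟩
  choose E c hE hc using h
  have hI := club_iInter hE
  obtain ⟨x, hx, _⟩ := hI.2 (Classical.arbitrary W)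
  obtain ⟨y, hy, hxy⟩ := hI.2 x
  apply hxy.ne
  apply hr
  funext n
  rw [hc n x (mem_iInter.mp hx n), hc n y (mem_iInter.mp hy n)]

/-- Stationary sets are unbounded. -/
lemma stat_exists_gt {S : Set W} (hS : Stat S) (a : W) : ∃ b ∈ S, a < b := by
  obtain ⟨b, hb, hb2⟩ := hS {x | a < x} ⟨by
    rintro d ⟨⟨x, hx⟩, hd⟩
    obtain ⟨y, hy, _, h⟩ := hd x hx
    exact lt_trans hy h, fun x => by
    obtain ⟨y, hy⟩ := NoMaxOrder.exists_gt (max a x)
    exact ⟨y, lt_of_le_of_lt (le_max_left _ _) hy, lt_of_le_of_lt (le_max_right _ _) hy⟩⟩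
  exact ⟨b, hb, hb2⟩

/-- A cofinal increasing sequence in a limit. -/
lemma exists_seq {d : W} (h0 : ∃ x, x < d) (hlim : ∀ x < d, ∃ y, x < y ∧ y < d) :
    ∃ s : ℕ → W, (∀ n, s n < d) ∧ StrictMono s ∧ ∀ x < d, ∃ n, x < s n := by
  obtain ⟨x0, hx0⟩ := h0
  obtain ⟨e, he⟩ := (countable_Iio d).exists_eq_range ⟨x0, hx0⟩
  have he' : ∀ n, e n < d := fun n => by
    have : e n ∈ Iio d := by rw [he]; exact ⟨n, rfl⟩
    exact this
  choose! g hg1 hg2 using hlim
  let s : ℕ → W := fun n => Nat.rec x0 (fun n y => g (max y (e n))) n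
  have hs : ∀ n, s (n+1) = g (max (s n) (e n)) := fun n => rfl
  have hsd : ∀ n, s n < d := by
    intro n
    induction n with
    | zero => exact hx0
    | succ n ih => rw [hs]; exact hg2 _ (max_lt ih (he' n))
  refine ⟨s, hsd, strictMono_nat_of_lt_succ fun n => ?_, fun x hx => ?_⟩
  · rw [hs]
    exact lt_of_le_of_lt (le_max_left _ _) (hg1 _ (max_lt (hsd n) (he' n)))
  · have : x ∈ range e := by rw [← he]; exact hx
    obtain ⟨n, rfl⟩ := this
    refine ⟨n+1, ?_⟩
    rw [hs]
    exact lt_of_le_of_lt (le_max_right _ _) (hg1 _ (max_lt (hsd n) (he' n)))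

end Pool.Agent.V11222.Blum
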