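import Pool.Agent.V11222.BlumCard

/-!
A compact linearly ordered space without the Blumberg property, in ZFC.
-/

namespace Pool.Agent.V11222.Blum

open Set Cardinal Topology

variable {S : Set W}

attribute [local instance] Preorder.topology in
/-- The order topology on the completion. -/
noncomputable abbrev topK : TopologicalSpace (LowerSet (L S)) := Preorder.topology _

attribute [local instance] topK

local instance : OrderTopology (LowerSet (L S)) := ⟨rfl⟩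

/-- The interval of cuts splitting the cone above `t`. -/
def I (t : L S) : Set (LowerSet (L S)) :=
  {A | (∃ C, EndExt t C ∧ C ∈ A) ∧ (∃ C, EndExt t C ∧ C ∉ A)}

lemma mem_iff_lt (A : LowerSet (L S)) (C : L S) : C ∈ A ↔ LowerSet.Iio C < A := by
  constructor
  · intro h
    rw [← not_le]
    intro h2
    exact lt_irrefl C (h2 h)
  · intro h
    by_contra hC
    refine absurd h (not_lt.mpr fun D hD => ?_)
    exact mem_lt_of_not_mem hD hC

lemma not_mem_iff_lt (A : LowerSet (L S)) (C : L S) : C ∉ A ↔ A < LowerSet.Iic C := by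
  rw [← not_le, not_iff_not]
  constructor
  · exact fun h D hD => A.lower hD h
  · exact fun h => h (show C ≤ C from le_rfl)

lemma isOpen_I (t : L S) : IsOpen (I t) := by
  have : I t = (⋃ C ∈ {C | EndExt t C}, Ioi (LowerSet.Iio C)) ∩
      (⋃ C ∈ {C | EndExt t C}, Iio (LowerSet.Iic C)) := by
    ext A
    constructor
    · rintro ⟨⟨C, h1, h2⟩, ⟨C', h3, h4⟩⟩
      exact ⟨mem_biUnion h1 ((mem_iff_lt A C).mp h2), mem_biUnion h3 ((not_mem_iff_lt A C').mp h4)⟩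
    · rintro ⟨h1, h2⟩
      simp only [mem_iUnion] at h1 h2
      obtain ⟨C, hC, h3⟩ := h1
      obtain ⟨C', hC', h4⟩ := h2
      exact ⟨⟨C, hC, (mem_iff_lt A C).mpr h3⟩, ⟨C', hC', (not_mem_iff_lt A C').mpr h4⟩⟩
  rw [this]
  exact (isOpen_biUnion fun _ _ => isOpen_Ioi).inter (isOpen_biUnion fun _ _ => isOpen_Iio)

lemma lt_addTop (t : L S) (ξ : W) (hξS : ξ ∈ S) (hξ : ∀ x ∈ t.1, x < ξ) :
    t < addTop t ξ hξS hξ := by
  rw [lt_def]
  refine ⟨ξ, Or.inl rfl, fun h => lt_irrefl _ (hξ ξ h), fun x hx => ?_⟩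
  rw [addTop_val]
  exact ⟨fun h => Or.inr h, fun h => h.resolve_left hx.ne⟩

lemma I_nonempty (hS : Stat S) (t : L S) : (I t).Nonempty := by
  obtain ⟨ξ, hξS, _, hξ⟩ := exists_above hS t (Classical.arbitrary W)
  refine ⟨LowerSet.Iic t, ⟨t, EndExt.refl t, show t ≤ t from le_rfl⟩,
    ⟨addTop t ξ hξS hξ, endExt_addTop t ξ hξS hξ, ?_⟩⟩
  intro h
  exact absurd (lt_addTop t ξ hξS hξ) (not_lt.mpr h)

lemma I_mono {t u : L S} (h : EndExt t u) : I u ⊆ I t := by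
  rintro A ⟨⟨C, h1, h2⟩, ⟨C', h3, h4⟩⟩
  exact ⟨⟨C, h.trans h1, h2⟩, ⟨C', h.trans h3, h4⟩⟩

/-- Every neighbourhood of a point of `I t` contains some `I u` with `u` end-extending `t`. -/
lemma exists_I_subset (hS : Stat S) {t : L S} {A : LowerSet (L S)} (hA : A ∈ I t)
    {V : Set (LowerSet (L S))} (hV : V ∈ 𝓝 A) : ∃ u, EndExt t u ∧ I u ⊆ V := by
  obtain ⟨⟨C, hCt, hCA⟩, ⟨C', hCt', hCA'⟩⟩ := hA
  have h1 : ∃ P, P < A := ⟨_, (mem_iff_lt A C).mp hCA⟩
  have h2 : ∃ Q, A < Q := ⟨_, (not_mem_iff_lt A C').mp hCA'⟩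
  rw [mem_nhds_iff_exists_Ioo_subset' h1 h2] at hV
  obtain ⟨P, Q, ⟨hPA, hAQ⟩, hV⟩ := hV
  -- pick elements
  obtain ⟨D, hDA, hDP⟩ : ∃ D, D ∈ A ∧ D ∉ P := by
    by_contra hh
    push Not at hh
    exact absurd hPA (not_lt.mpr fun D hD => hh D hD)
  obtain ⟨D', hDQ', hDA'⟩ : ∃ D, D ∈ Q ∧ D ∉ A := by
    by_contra hh
    push Not at hh
    exact absurd hAQ (not_lt.mpr fun D hD => hh D hD)
  have hCC : C < C' := mem_lt_of_not_mem hCA hCA'
  obtain ⟨C₀, h0A, h0P, h0t⟩ : ∃ C₀, C₀ ∈ A ∧ C₀ ∉ P ∧ EndExt t C₀ := by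
    refine ⟨max D C, ?_, ?_, ?_⟩
    · rcases max_choice D C with h | h <;> rw [h] <;> assumption
    · exact fun h => hDP (P.lower (le_max_left _ _) h)
    · refine EndExt.of_between hCt hCt' (le_max_right _ _) (max_le ?_ hCC.le)
      exact (mem_lt_of_not_mem hDA hCA').le
  obtain ⟨C₁, h1A, h1Q, h1t⟩ : ∃ C₁, C₁ ∉ A ∧ C₁ ∈ Q ∧ EndExt t C₁ := by
    refine ⟨min D' C', ?_, ?_, ?_⟩
    · rcases min_choice D' C' with h | h <;> rw [h] <;> assumption
    · exact Q.lower (min_le_left _ _) hDQ'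
    · refine EndExt.of_between hCt hCt' (le_min ?_ hCC.le) (min_le_right _ _)
      exact (mem_lt_of_not_mem hCA hDA').le
  have h01 : C₀ < C₁ := mem_lt_of_not_mem h0A h1A
  obtain ⟨η, e1, e2, e3⟩ := (lt_def _ _).mp h01
  obtain ⟨ξ, hξS, hηξ, hξ⟩ := exists_above hS C₀ η
  have hue := endExt_addTop C₀ ξ hξS hξ
  refine ⟨addTop C₀ ξ hξS hξ, h0t.trans hue, fun A' hA' => hV ?_⟩
  have hcone : ∀ E, EndExt (addTop C₀ ξ hξS hξ) E → C₀ < E ∧ E < C₁ := by
    intro E hE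
    have hE' : ∀ x ≤ ξ, (x ∈ E.1 ↔ x ∈ insert ξ C₀.1) := fun x hx => hE ξ (Or.inl rfl) x hx
    constructor
    · rw [lt_def]
      refine ⟨ξ, (hE' ξ le_rfl).mpr (Or.inl rfl), fun h => lt_irrefl _ (hξ ξ h), fun x hx => ?_⟩
      rw [hE' x hx.le]
      exact ⟨fun h => Or.inr h, fun h => h.resolve_left hx.ne⟩
    · rw [lt_def]
      refine ⟨η, e1, ?_, fun x hx => ?_⟩
      · rw [hE' η hηξ.le]
        rintro (h | h)
        · exact hηξ.ne h
        · exact e2 h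
      · rw [hE' x (hx.trans hηξ).le, ← e3 x hx]
        exact ⟨fun h => h.resolve_left (hx.trans hηξ).ne, fun h => Or.inr h⟩
  obtain ⟨⟨E, hE1, hE2⟩, ⟨E', hE3, hE4⟩⟩ := hA'
  constructor
  · rw [← not_le]
    intro h
    exact h0P (h (A'.lower (hcone E hE1).1.le hE2))
  · rw [← not_le]
    intro h
    exact hE4 (A'.lower (hcone E' hE3).2.le (h h1Q))

/-- Two disjoint subintervals. -/
lemma exists_disjoint (hS : Stat S) (t : L S) :
    ∃ u v, EndExt t u ∧ EndExt t v ∧ Disjoint (I u) (I v) := by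
  obtain ⟨ξ, hξS, _, hξ⟩ := exists_above hS t (Classical.arbitrary W)
  obtain ⟨ξ', hξS', hξξ', hξ'⟩ := exists_above hS t ξ
  refine ⟨addTop t ξ hξS hξ, addTop t ξ' hξS' hξ', endExt_addTop _ _ _ _,
    endExt_addTop _ _ _ _, ?_⟩
  rw [Set.disjoint_left]
  rintro A ⟨⟨C, h1, h2⟩, ⟨C', h3, h4⟩⟩ ⟨⟨D, h5, h6⟩, ⟨D', h7, h8⟩⟩
  -- `C` extends `t ∪ {ξ}`, `C ∈ A`; `D'` extends `t ∪ {ξ'}`, `D' ∉ A`
  have hlt : D' < C := by
    rw [lt_def]
    refine ⟨ξ, (h1 ξ (Or.inl rfl) ξ le_rfl).mpr (Or.inl rfl), ?_, fun x hx => ?_⟩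
    · rw [h7 ξ' (Or.inl rfl) ξ hξξ'.le]
      rintro (h | h)
      · exact hξξ'.ne h
      · exact lt_irrefl _ (hξ ξ h)
    · rw [h7 ξ' (Or.inl rfl) x (hx.trans hξξ').le, h1 ξ (Or.inl rfl) x hx.le, addTop_val, addTop_val]
      constructor
      · exact fun h => Or.inr (h.resolve_left (hx.trans hξξ').ne)
      · exact fun h => Or.inr (h.resolve_left hx.ne)
  exact h8 (A.lower hlt.le h2)

/-- No injective function on the completion is continuous on a dense set. -/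
theorem not_continuousOn (hS : Stat S) (f : LowerSet (L S) → ℝ) (hf : Function.Injective f)
    (D : Set (LowerSet (L S))) (hD : Dense D) (hc : ContinuousOn f D) : False := by
  have hdistr := distrib hS (fun n => {t : L S | ∀ A ∈ D ∩ I t, ∀ A' ∈ D ∩ I t,
      |f A - f A'| ≤ 1 / ((n : ℝ) + 1)}) (by
    intro n t ht u htu A hA A' hA'
    exact ht A ⟨hA.1, I_mono htu hA.2⟩ A' ⟨hA'.1, I_mono htu hA'.2⟩) (by
    intro n t
    obtain ⟨A, hAI, hAD⟩ := hD.inter_open_nonempty _ (isOpen_I t) (I_nonempty hS t)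
    have hpos : (0 : ℝ) < 1 / ((n : ℝ) + 1) / 2 := by positivity
    have h1 := Metric.continuousOn_iff'.mp hc A hAD _ hpos
    obtain ⟨V, hV, hV2⟩ := mem_nhdsWithin_iff_exists_mem_nhds_inter.mp h1
    obtain ⟨u, htu, huV⟩ := exists_I_subset hS hAI hV
    refine ⟨u, fun B hB B' hB' => ?_, htu⟩
    have h2 : dist (f B) (f A) < 1 / ((n : ℝ) + 1) / 2 := hV2 ⟨huV hB.2, hB.1⟩
    have h3 : dist (f B') (f A) < 1 / ((n : ℝ) + 1) / 2 := hV2 ⟨huV hB'.2, hB'.1⟩
    have h4 := dist_triangle_right (f B) (f B') (f A)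
    rw [Real.dist_eq] at h4
    linarith)
  obtain ⟨t, ht⟩ := hdistr
  obtain ⟨u, v, htu, htv, huv⟩ := exists_disjoint hS t
  obtain ⟨A, hAI, hAD⟩ := hD.inter_open_nonempty _ (isOpen_I u) (I_nonempty hS u)
  obtain ⟨B, hBI, hBD⟩ := hD.inter_open_nonempty _ (isOpen_I v) (I_nonempty hS v)
  have hAB : A ≠ B := by
    rintro rfl
    exact Set.disjoint_left.mp huv hAI hBI
  apply hAB
  apply hf
  have h5 : ∀ n : ℕ, |f A - f B| ≤ 1 / ((n : ℝ) + 1) := fun n =>
    ht n A ⟨hAD, I_mono htu hAI⟩ B ⟨hBD, I_mono htv hBI⟩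
  have h6 : |f A - f B| ≤ 0 := ge_of_tendsto' tendsto_one_div_add_atTop_nhds_zero_nat h5
  have h7 := abs_eq_zero.mp (le_antisymm h6 (abs_nonneg _))
  linarith

/-- There is a compact linearly ordered space and a real function on it that is not continuous on
any dense set. -/
theorem exists_compact_lots : ∃ (K : Type) (_ : LinearOrder K) (_ : TopologicalSpace K)
    (_ : OrderTopology K), CompactSpace K ∧
      ∃ f : K → ℝ, ∀ D : Set K, Dense D → ¬ ContinuousOn f D := by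
  obtain ⟨S, hS, hS'⟩ := exists_bistationary
  have hcard : #(LowerSet (L S)) ≤ #ℝ := by
    rw [mk_real]
    exact mk_lowerSet hS hS'
  obtain ⟨f⟩ := (Cardinal.le_def _ _).mp hcard
  refine ⟨LowerSet (L S), inferInstance, topK, ⟨rfl⟩, ?_, f, fun D hD hc => ?_⟩
  · exact compactSpace_of_completeLinearOrder
  · exact not_continuousOn hS f f.injective D hD hc

end Pool.Agent.V11222.Blum
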