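import Pool.Agent.V11222.BlumClub

/-!
The tree `T(S)` of closed bounded subsets of `S`, ordered lexicographically, and its
`ω`-distributivity.
-/

namespace Pool.Agent.V11222.Blum

open Set Cardinal

/-- Closed bounded subsets of `S`. -/
def L (S : Set W) : Type := {t : Set W // t ⊆ S ∧ Cl t ∧ BddAbove t}

variable {S : Set W}

/-- The characteristic function. -/
noncomputable def chr (t : L S) : Lex (W → Bool) :=
  toLex (fun w => @decide (w ∈ t.1) (Classical.propDecidable _))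

lemma chr_apply (t : L S) (w : W) : chr t w = true ↔ w ∈ t.1 := by
  exact @decide_eq_true_iff (w ∈ t.1) (Classical.propDecidable _)

lemma chr_inj : Function.Injective (chr (S := S)) := by
  intro s t h
  apply Subtype.ext
  ext w
  rw [← chr_apply, ← chr_apply, h]

noncomputable instance : LinearOrder (L S) := LinearOrder.lift' (chr (S := S)) chr_inj

lemma lt_def (s t : L S) : s < t ↔ ∃ η, η ∈ t.1 ∧ η ∉ s.1 ∧ ∀ ξ < η, (ξ ∈ s.1 ↔ ξ ∈ t.1) := by
  have h0 : s < t ↔ chr s < chr t := Iff.rfl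
  rw [h0]
  constructor
  · rintro ⟨η, h1, h2⟩
    have h3 : chr s η = false ∧ chr t η = true := by
      rw [Bool.lt_iff] at h2
      exact h2
    refine ⟨η, (chr_apply t η).mp h3.2, fun h => ?_, fun ξ hξ => ?_⟩
    · rw [← chr_apply, h3.1] at h
      exact absurd h (by simp)
    · rw [← chr_apply, ← chr_apply]
      have := h1 ξ hξ
      exact Iff.of_eq (congrArg (· = true) this)
  · rintro ⟨η, h1, h2, h3⟩
    refine ⟨η, fun ξ hξ => ?_, ?_⟩
    · have := h3 ξ hξ
      rw [← chr_apply, ← chr_apply] at this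
      exact Bool.eq_iff_iff.mpr this
    · show chr s η < chr t η
      rw [Bool.lt_iff]
      refine ⟨?_, (chr_apply t η).mpr h1⟩
      rw [← Bool.not_eq_true]
      exact fun h => h2 ((chr_apply s η).mp h)

/-- Agreement of two sets on a set. -/
def Agr (I : Set W) (s t : L S) : Prop := ∀ x ∈ I, (x ∈ s.1 ↔ x ∈ t.1)

lemma Agr.symm {I : Set W} {s t : L S} (h : Agr I s t) : Agr I t s := fun x hx => (h x hx).symm

lemma Agr.trans {I : Set W} {s t u : L S} (h : Agr I s t) (h' : Agr I t u) : Agr I s u :=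
  fun x hx => (h x hx).trans (h' x hx)

/-- Convexity. -/
lemma Agr.of_between {I : Set W} (hI : IsLowerSet I) {s t u : L S} (h : Agr I s u)
    (h1 : s ≤ t) (h2 : t ≤ u) : Agr I s t := by
  rcases h1.eq_or_lt with rfl | h1
  · exact fun x _ => Iff.rfl
  rcases h2.eq_or_lt with rfl | h2
  · exact h
  obtain ⟨η, a1, a2, a3⟩ := (lt_def _ _).mp h1
  obtain ⟨θ, b1, b2, b3⟩ := (lt_def _ _).mp h2
  by_cases hη : η ∈ I
  · exfalso
    have hηu : η ∉ u.1 := fun hh => a2 ((h η hη).mpr hh)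
    -- `θ ≤ η`
    have hθ : θ ≤ η := by
      by_contra hlt
      push Not at hlt
      exact hηu ((b3 η hlt).mp a1)
    have hθI : θ ∈ I := hI hθ hη
    rcases hθ.eq_or_lt with rfl | hθ
    · exact b2 a1
    · have : θ ∈ s.1 := (h θ hθI).mpr b1
      exact b2 ((a3 θ hθ).mp this)
  · intro x hx
    apply a3
    by_contra hh
    push Not at hh
    exact hη (hI hh hx)

/-- End-extension. -/
def EndExt (t u : L S) : Prop := ∀ y ∈ t.1, ∀ x ≤ y, (x ∈ u.1 ↔ x ∈ t.1)

lemma EndExt.refl (t : L S) : EndExt t t := fun _ _ _ _ => Iff.rfl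

lemma EndExt.subset {t u : L S} (h : EndExt t u) : t.1 ⊆ u.1 := fun x hx => (h x hx x le_rfl).mpr hx

lemma EndExt.trans {t u v : L S} (h : EndExt t u) (h' : EndExt u v) : EndExt t v :=
  fun y hy x hx => (h' y (h.subset hy) x hx).trans (h y hy x hx)

lemma endExt_iff (t u : L S) : EndExt t u ↔ Agr {x | ∃ y ∈ t.1, x ≤ y} t u :=
  ⟨fun h x ⟨y, hy, hx⟩ => (h y hy x hx).symm, fun h y hy x hx => (h x ⟨y, hy, hx⟩).symm⟩

lemma EndExt.of_between {t s u v : L S} (hs : EndExt t s) (hv : EndExt t v) (h1 : s ≤ u)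
    (h2 : u ≤ v) : EndExt t u := by
  rw [endExt_iff] at *
  have hI : IsLowerSet {x : W | ∃ y ∈ t.1, x ≤ y} := by
    rintro a b hab ⟨y, hy, hay⟩
    exact ⟨y, hy, hab.trans hay⟩
  exact hs.trans (Agr.of_between hI (hs.symm.trans hv) h1 h2)

/-- The empty element. -/
def bot0 : L S := ⟨∅, by simp, by
  rintro d ⟨⟨x, hx⟩, h⟩
  obtain ⟨y, hy, _⟩ := h x hx
  exact absurd hy (by simp), by simp⟩

/-- Adding a point on top. -/
def addTop (t : L S) (ξ : W) (hξS : ξ ∈ S) (hξ : ∀ x ∈ t.1, x < ξ) : L S :=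
  ⟨insert ξ t.1, by
    intro x hx
    rcases hx with rfl | hx
    · exact hξS
    · exact t.2.1 hx, by
    intro d hd
    by_cases hdξ : d ≤ ξ
    · rcases hdξ.eq_or_lt with rfl | hdξ
      · exact Or.inl rfl
      · right
        apply t.2.2.1
        refine ⟨hd.1, fun x hx => ?_⟩
        obtain ⟨y, hy, h⟩ := hd.2 x hx
        rcases hy with rfl | hy
        · exact absurd (h.2.trans hdξ) (lt_irrefl _)
        · exact ⟨y, hy, h⟩
    · exfalso
      push Not at hdξ
      obtain ⟨y, hy, h⟩ := hd.2 ξ hdξ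
      rcases hy with rfl | hy
      · exact lt_irrefl _ h.1
      · exact lt_irrefl _ (h.1.trans (hξ y hy)), by
    refine ⟨ξ, ?_⟩
    intro x hx
    rcases hx with rfl | hx
    · exact le_rfl
    · exact (hξ x hx).le⟩

lemma addTop_val (t : L S) (ξ : W) (hξS : ξ ∈ S) (hξ : ∀ x ∈ t.1, x < ξ) :
    (addTop t ξ hξS hξ).1 = insert ξ t.1 := rfl

lemma endExt_addTop (t : L S) (ξ : W) (hξS : ξ ∈ S) (hξ : ∀ x ∈ t.1, x < ξ) :
    EndExt t (addTop t ξ hξS hξ) := by
  intro y hy x hx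
  rw [addTop_val]
  constructor
  · rintro (rfl | h)
    · exact absurd (hξ y hy) (not_lt.mpr hx)
    · exact h
  · exact fun h => Or.inr h

/-- Points of `S` above an element of `L S` and a given ordinal. -/
lemma exists_above (hS : Stat S) (t : L S) (β : W) :
    ∃ ξ ∈ S, β < ξ ∧ ∀ x ∈ t.1, x < ξ := by
  obtain ⟨c, hc⟩ := t.2.2.2
  obtain ⟨ξ, hξ, h⟩ := stat_exists_gt hS (max β c)
  exact ⟨ξ, hξ, lt_of_le_of_lt (le_max_left _ _) h,
    fun x hx => lt_of_le_of_lt ((hc hx).trans (le_max_right _ _)) h⟩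

/-- `ω`-distributivity of `T(S)` for stationary `S`. -/
theorem distrib (hS : Stat S) (𝒟 : ℕ → Set (L S))
    (hopen : ∀ n, ∀ t ∈ 𝒟 n, ∀ u, EndExt t u → u ∈ 𝒟 n)
    (hdense : ∀ n, ∀ t, ∃ u ∈ 𝒟 n, EndExt t u) : ∃ t, ∀ n, t ∈ 𝒟 n := by
  have hg : ∀ n (β : W) (t : L S), ∃ u ∈ 𝒟 n, EndExt t u ∧ ∃ y ∈ u.1, β < y := by
    intro n β t
    obtain ⟨ξ, hξS, hβ, hξ⟩ := exists_above hS t β
    obtain ⟨u, hu, hu2⟩ := hdense n (addTop t ξ hξS hξ)
    exact ⟨u, hu, (endExt_addTop t ξ hξS hξ).trans hu2, ξ, hu2.subset (Or.inl rfl), hβ⟩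
  choose g hg1 hg2 hg3 using hg
  -- reachable sets
  let R : W → ℕ → Set (L S) := fun α k => Nat.rec {bot0}
    (fun _ X => X ∪ ⋃ n : ℕ, ⋃ β ∈ Iio α, (fun t => g n β t) '' X) k
  have hR0 : ∀ α, R α 0 = {bot0} := fun α => rfl
  have hRs : ∀ α k, R α (k+1) = R α k ∪ ⋃ n : ℕ, ⋃ β ∈ Iio α, (fun t => g n β t) '' (R α k) :=
    fun α k => rfl
  have hRc : ∀ α k, (R α k).Countable := by
    intro α k
    induction k with
    | zero => rw [hR0]; exact countable_singleton _
    | succ k ih =>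
      rw [hRs]
      exact ih.union (countable_iUnion fun n => (countable_Iio α).biUnion fun β _ => ih.image _)
  have hRb : ∀ α, ∃ b, ∀ k, ∀ t ∈ R α k, ∀ x ∈ t.1, x < b := by
    intro α
    have hcnt : ∀ t : L S, t.1.Countable := by
      intro t
      obtain ⟨c, hc⟩ := t.2.2.2
      exact (countable_Iic c).mono fun x hx => hc hx
    obtain ⟨b, hb⟩ := exists_bound (s := ⋃ k : ℕ, ⋃ t ∈ R α k, t.1)
      (countable_iUnion fun k => (hRc α k).biUnion fun t _ => hcnt t)
    exact ⟨b, fun k t ht x hx => hb x (mem_iUnion.mpr ⟨k, mem_biUnion ht hx⟩)⟩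
  choose b hb using hRb
  have hc : ∀ x : W, ∃ y, max x (b x) < y := fun x => NoMaxOrder.exists_gt _
  choose c hc using hc
  obtain ⟨δ, hδS, hδ1, hδ2⟩ := hS _ (club_closed c)
  have hcx : ∀ x, x < c x := fun x => lt_of_le_of_lt (le_max_left _ _) (hc x)
  have hcb : ∀ x, b x < c x := fun x => lt_of_le_of_lt (le_max_right _ _) (hc x)
  obtain ⟨α, hα1, hα2, hα3⟩ := exists_seq hδ1 (fun x hx => ⟨c x, hcx x, hδ2 x hx⟩)
  let T : ℕ → L S := fun n => Nat.rec bot0 (fun n t => g n (α n) t) n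
  have hT : ∀ n, T (n+1) = g n (α n) (T n) := fun n => rfl
  have hRmono : ∀ {α α' : W}, α ≤ α' → ∀ k, R α k ⊆ R α' k := by
    intro α α' h k
    induction k with
    | zero => exact subset_rfl
    | succ k ih =>
      rw [hRs, hRs]
      rintro t (ht | ht)
      · exact Or.inl (ih ht)
      · right
        obtain ⟨n, hn⟩ := mem_iUnion.mp ht
        simp only [mem_iUnion] at hn
        obtain ⟨β, hβ, u, hu, rfl⟩ := hn
        simp only [mem_iUnion]
        exact ⟨n, β, lt_of_lt_of_le hβ h, u, ih hu, rfl⟩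
  have hTR : ∀ n, T n ∈ R (α n) n := by
    intro n
    induction n with
    | zero => rfl
    | succ n ih =>
      rw [hRs]
      right
      simp only [mem_iUnion]
      exact ⟨n, α n, hα2 (Nat.lt_succ_self n), T n, hRmono (hα2.monotone (Nat.le_succ n)) n ih, rfl⟩
  have hTlt : ∀ n, ∀ x ∈ (T n).1, x < δ := fun n x hx =>
    ((hb (α n) n (T n) (hTR n) x hx).trans (hcb _)).trans (hδ2 _ (hα1 n))
  have hText : ∀ n, EndExt (T n) (T (n+1)) := fun n => hg2 n (α n) (T n)
  have hText2 : ∀ n k, EndExt (T n) (T (n + k)) := by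
    intro n k
    induction k with
    | zero => exact EndExt.refl _
    | succ k ih => exact ih.trans (hText (n + k))
  have hText3 : ∀ n m, n ≤ m → EndExt (T n) (T m) := by
    intro n m h
    obtain ⟨k, rfl⟩ := Nat.exists_eq_add_of_le h
    exact hText2 n k
  have hkey : ∀ n, ∀ y ∈ (T n).1, ∀ x ≤ y, (x ∈ insert δ (⋃ m, (T m).1) ↔ x ∈ (T n).1) := by
    intro n y hy x hx
    constructor
    · rintro (rfl | h)
      · exact absurd (hTlt n y hy) (not_lt.mpr hx)
      · obtain ⟨m, hm⟩ := mem_iUnion.mp h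
        rcases le_total m n with hmn | hmn
        · exact (hText3 m n hmn).subset hm
        · exact (hText3 n m hmn y hy x hx).mp hm
    · exact fun h => Or.inr (mem_iUnion.mpr ⟨n, h⟩)
  let T' : L S := ⟨insert δ (⋃ m, (T m).1), by
    rintro x (rfl | hx)
    · exact hδS
    · obtain ⟨m, hm⟩ := mem_iUnion.mp hx
      exact (T m).2.1 hm, by
    intro d hd
    rcases lt_trichotomy d δ with h | h | h
    · obtain ⟨n, hn⟩ := hα3 d h
      obtain ⟨y0, hy0, hy1⟩ := hg3 n (α n) (T n)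
      rw [← hT] at hy0
      have hdy : d ≤ y0 := (hn.trans hy1).le
      rw [hkey (n+1) y0 hy0 d hdy]
      apply (T (n+1)).2.2.1
      refine ⟨hd.1, fun x hx => ?_⟩
      obtain ⟨y, hy, h1, h2⟩ := hd.2 x hx
      exact ⟨y, (hkey (n+1) y0 hy0 y (h2.le.trans hdy)).mp hy, h1, h2⟩
    · exact Or.inl h
    · exfalso
      obtain ⟨y, hy, h1, h2⟩ := hd.2 δ h
      rcases hy with rfl | hy
      · exact lt_irrefl _ h1
      · obtain ⟨m, hm⟩ := mem_iUnion.mp hy
        exact lt_irrefl _ (h1.trans (hTlt m y hm)), by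
    refine ⟨δ, ?_⟩
    rintro x (rfl | hx)
    · exact le_rfl
    · obtain ⟨m, hm⟩ := mem_iUnion.mp hx
      exact (hTlt m x hm).le⟩
  refine ⟨T', fun n => ?_⟩
  exact hopen n (T (n+1)) (hg1 n (α n) (T n)) T' (fun y hy x hx => hkey (n+1) y hy x hx)

end Pool.Agent.V11222.Blum
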