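import Pool.Agent.V11222.ProductCore

/-!
First countability of ray spaces of trees with countable chains and countably many tops;
no ray space or end space is homeomorphic to certain products.
-/

namespace Pool.Agent.V11222

open Set Topology Filter

universe u v w

/-- The inclusion of the nonempty rays is an embedding. -/
lemma isEmbedding_nonempty (T : Type u) [PartialOrder T] :
    IsEmbedding (fun R : NonemptyRaySpace T => (⟨R.carrier, R.isRay⟩ : RaySpace T)) := by
  refine ⟨⟨?_⟩, ?_⟩
  · change TopologicalSpace.induced _ _ = TopologicalSpace.induced _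
      (TopologicalSpace.induced _ _)
    rw [induced_compose]
    rfl
  · intro R S h
    exact nonemptyRaySpace_ext (congrArg RaySpace.carrier h)

variable {T : Type u} [PartialOrder T]

lemma nhds_raySpace_isCountablyGenerated (hT : IsOrderTree T)
    (hch : ∀ c : Set T, IsChain (· ≤ ·) c → c.Countable)
    (htop : ∀ t : T, {t' | Set.Iio t' = Set.Iio t}.Countable) (R : RaySpace T) :
    (𝓝 R).IsCountablyGenerated := by
  classical
  -- the countable family
  let C : Set (Set (RaySpace T)) :=
    (fun s => {R' : RaySpace T | s ∈ R'.carrier}) '' R.carrier ∪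
    (fun t => {R' : RaySpace T | t ∉ R'.carrier}) '' {t | Set.Iio t = R.carrier}
  have hCc : C.Countable := by
    refine Countable.union ((hch _ R.isRay.2.1).image _) (Countable.image ?_ _)
    by_cases h : ∃ t₀ : T, Set.Iio t₀ = R.carrier
    · obtain ⟨t₀, ht₀⟩ := h
      rw [← ht₀]
      exact htop t₀
    · convert countable_empty (α := T)
      rw [Set.eq_empty_iff_forall_notMem]
      intro x hx
      exact h ⟨x, hx⟩
  have hsingle : ∀ i : T, {R' : RaySpace T | i ∈ R'.carrier ↔ i ∈ R.carrier} ∈
      ⨅ W ∈ C, 𝓟 W := by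
    intro i
    by_cases hi : i ∈ R.carrier
    · have h1 : {R' : RaySpace T | i ∈ R'.carrier} ∈ C := Or.inl ⟨i, hi, rfl⟩
      refine mem_of_superset (mem_iInf_of_mem _ (mem_iInf_of_mem h1 (mem_principal_self _))) ?_
      intro R' hR'
      exact ⟨fun _ => hi, fun _ => hR'⟩
    · -- minimal node `t ≤ i` not in `R`
      obtain ⟨t, ht, hmin⟩ := hT.wf.has_min {x | x ≤ i ∧ x ∉ R.carrier} ⟨i, le_refl i, hi⟩
      have hsub : Set.Iio t ⊆ R.carrier := by
        intro z hz
        by_contra hzR
        exact hmin z ⟨le_trans (le_of_lt hz) ht.1, hzR⟩ hz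
      by_cases heq : Set.Iio t = R.carrier
      · have h1 : {R' : RaySpace T | t ∉ R'.carrier} ∈ C := Or.inr ⟨t, heq, rfl⟩
        refine mem_of_superset (mem_iInf_of_mem _ (mem_iInf_of_mem h1
          (mem_principal_self _))) ?_
        intro R' hR'
        exact ⟨fun h => absurd (R'.isRay.1 ht.1 h) hR', fun h => absurd h hi⟩
      · have hne : (R.carrier \ Set.Iio t).Nonempty := by
          rw [Set.nonempty_iff_ne_empty]
          intro h
          exact heq (Subset.antisymm hsub (sdiff_eq_empty.mp h))
        obtain ⟨s, hs, hst⟩ := hne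
        have h1 : {R' : RaySpace T | s ∈ R'.carrier} ∈ C := Or.inl ⟨s, hs, rfl⟩
        refine mem_of_superset (mem_iInf_of_mem _ (mem_iInf_of_mem h1
          (mem_principal_self _))) ?_
        intro R' hR'
        refine ⟨fun h => ?_, fun h => absurd h hi⟩
        exfalso
        have htR' : t ∈ R'.carrier := R'.isRay.1 ht.1 h
        rcases R'.isRay.2.1.total hR' htR' with h2 | h2
        · rcases eq_or_lt_of_le h2 with h3 | h3
          · exact ht.2 (h3 ▸ hs)
          · exact hst h3
        · exact ht.2 (R.isRay.1 h2 hs)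
  have hnhds : 𝓝 R = ⨅ W ∈ C, 𝓟 W := by
    apply le_antisymm
    · refine le_iInf₂ (fun W hW => ?_)
      rw [le_principal_iff]
      rcases hW with ⟨s, hs, rfl⟩ | ⟨t, ht, rfl⟩
      · exact (isClopen_coneR s).isOpen.mem_nhds hs
      · refine (isClopen_coneR t).compl.isOpen.mem_nhds ?_
        intro h
        have h1 : t ∈ Set.Iio t := by rw [ht]; exact h
        exact lt_irrefl t h1
    · intro O hO
      obtain ⟨O', hO'O, hO'open, hRO'⟩ := mem_nhds_iff.mp hO
      rw [isOpen_induced_iff] at hO'open
      obtain ⟨P, hP, rfl⟩ := hO'open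
      rw [isOpen_pi_iff] at hP
      obtain ⟨I, uu, hu, hsub⟩ := hP (charFun R.carrier) hRO'
      have h1 : (⋂ i ∈ I, {R' : RaySpace T | i ∈ R'.carrier ↔ i ∈ R.carrier}) ∈
          ⨅ W ∈ C, 𝓟 W := by
        rw [Filter.biInter_finset_mem]
        intro i _
        exact hsingle i
      refine mem_of_superset h1 ?_
      intro R' hR'
      apply hO'O
      apply hsub
      intro i hi
      simp only [mem_iInter] at hR'
      have h2 : (i ∈ R'.carrier ↔ i ∈ R.carrier) := hR' i hi
      have h3 : charFun R'.carrier i = charFun R.carrier i := by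
        simp [charFun, h2]
      have h4 : charFun R'.carrier i ∈ uu i := by rw [h3]; exact (hu i hi).2
      exact h4
  rw [hnhds]
  have : Countable C := hCc.to_subtype
  rw [iInf_subtype']
  infer_instance

theorem firstCountable_raySpace (hT : IsOrderTree T)
    (hch : ∀ c : Set T, IsChain (· ≤ ·) c → c.Countable)
    (htop : ∀ t : T, {t' | Set.Iio t' = Set.Iio t}.Countable) :
    FirstCountableTopology (RaySpace T) :=
  ⟨nhds_raySpace_isCountablyGenerated hT hch htop⟩

theorem firstCountable_nonemptyRaySpace (hT : IsOrderTree T)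
    (hch : ∀ c : Set T, IsChain (· ≤ ·) c → c.Countable)
    (htop : ∀ t : T, {t' | Set.Iio t' = Set.Iio t}.Countable) :
    FirstCountableTopology (NonemptyRaySpace T) := by
  have := firstCountable_raySpace hT hch htop
  exact (isEmbedding_nonempty T).isInducing.firstCountableTopology

lemma chains_countable_of_firstCountable {S : Type v} [PartialOrder S] (hS : IsOrderTree S)
    [FirstCountableTopology (NonemptyRaySpace S)] :
    ∀ c : Set S, IsChain (· ≤ ·) c → c.Countable := by
  apply chains_countable hS
  intro A x hx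
  rw [mem_closure_iff_seq_limit] at hx
  obtain ⟨s, hs, hsx⟩ := hx
  refine ⟨range s, ?_, countable_range s, ?_⟩
  · rintro _ ⟨n, rfl⟩; exact hs n
  · exact mem_closure_of_tendsto hsx (Eventually.of_forall (fun n => ⟨n, rfl⟩))

lemma chains_countable_of_firstCountable' {S : Type v} [PartialOrder S] (hS : IsOrderTree S)
    [FirstCountableTopology (RaySpace S)] :
    ∀ c : Set S, IsChain (· ≤ ·) c → c.Countable := by
  have : FirstCountableTopology (NonemptyRaySpace S) :=
    (isEmbedding_nonempty S).isInducing.firstCountableTopology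
  exact chains_countable_of_firstCountable hS

lemma exists_seq_of_not_isOpen {Y : Type w} [TopologicalSpace Y] [FirstCountableTopology Y]
    (h : ∃ y₀ : Y, ¬ IsOpen ({y₀} : Set Y)) :
    ∃ (y₀ : Y) (y : ℕ → Y), Tendsto y atTop (𝓝 y₀) ∧ ∀ n, y n ≠ y₀ := by
  obtain ⟨y₀, hy₀⟩ := h
  have h1 : y₀ ∈ closure ({y₀}ᶜ : Set Y) := by
    by_contra hcon
    apply hy₀
    have h2 : {y₀} = (closure ({y₀}ᶜ : Set Y))ᶜ := by
      ext z
      simp only [mem_singleton_iff, mem_compl_iff]
      constructor
      · rintro rfl; exact hcon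
      · intro hz
        by_contra hne
        exact hz (subset_closure hne)
    rw [h2]
    exact isClosed_closure.isOpen_compl
  rw [mem_closure_iff_seq_limit] at h1
  obtain ⟨y, hy, hlim⟩ := h1
  exact ⟨y₀, y, hlim, hy⟩

/-- Main theorem for products: ray space targets, nonempty rays. -/
theorem prod_not_ray (hT : IsOrderTree T)
    (hch : ∀ c : Set T, IsChain (· ≤ ·) c → c.Countable)
    (htop : ∀ t : T, {t' | Set.Iio t' = Set.Iio t}.Countable)
    {S : Type v} [PartialOrder S] (hNM : NM.{u, max u v} T) (hS : IsOrderTree S)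
    {Y : Type w} [TopologicalSpace Y] [FirstCountableTopology Y]
    (hY : ∃ y₀ : Y, ¬ IsOpen ({y₀} : Set Y)) :
    ¬ Nonempty (NonemptyRaySpace T × Y ≃ₜ NonemptyRaySpace S) := by
  rintro ⟨e⟩
  obtain ⟨y₀, y, hy, hne⟩ := exists_seq_of_not_isOpen hY
  have := firstCountable_nonemptyRaySpace hT hch htop
  have : FirstCountableTopology (NonemptyRaySpace S) :=
    e.symm.isEmbedding.isInducing.firstCountableTopology
  have hSch := chains_countable_of_firstCountable hS
  exact no_injection_ray hT hch htop hNM hS hSch y y₀ hy hne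
    (fun p => (⟨(e p).carrier, (e p).isRay⟩ : RaySpace S))
    ((isEmbedding_nonempty S).continuous.comp e.continuous)
    ((isEmbedding_nonempty S).injective.comp e.injective)

/-- Main theorem for products: ray space targets, all rays. -/
theorem prod_not_ray' (hT : IsOrderTree T)
    (hch : ∀ c : Set T, IsChain (· ≤ ·) c → c.Countable)
    (htop : ∀ t : T, {t' | Set.Iio t' = Set.Iio t}.Countable)
    {S : Type v} [PartialOrder S] (hNM : NM.{u, max u v} T) (hS : IsOrderTree S)
    {Y : Type w} [TopologicalSpace Y] [FirstCountableTopology Y]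
    (hY : ∃ y₀ : Y, ¬ IsOpen ({y₀} : Set Y)) :
    ¬ Nonempty (RaySpace T × Y ≃ₜ RaySpace S) := by
  rintro ⟨e⟩
  obtain ⟨y₀, y, hy, hne⟩ := exists_seq_of_not_isOpen hY
  have := firstCountable_raySpace hT hch htop
  have : FirstCountableTopology (RaySpace S) :=
    e.symm.isEmbedding.isInducing.firstCountableTopology
  have hSch := chains_countable_of_firstCountable' hS
  have hemb : IsEmbedding (fun p : NonemptyRaySpace T × Y =>
      ((⟨p.1.carrier, p.1.isRay⟩ : RaySpace T), p.2)) :=
    (isEmbedding_nonempty T).prodMap IsEmbedding.id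
  exact no_injection_ray hT hch htop hNM hS hSch y y₀ hy hne
    (fun p => e ((⟨p.1.carrier, p.1.isRay⟩ : RaySpace T), p.2))
    (e.continuous.comp hemb.continuous) (e.injective.comp hemb.injective)

/-- Main theorem for products: end space targets, nonempty rays. -/
theorem prod_not_end (hT : IsOrderTree T)
    (hch : ∀ c : Set T, IsChain (· ≤ ·) c → c.Countable)
    (htop : ∀ t : T, {t' | Set.Iio t' = Set.Iio t}.Countable)
    {V : Type v} (hNM : NM.{u, max u v} T) {G : SimpleGraph V}
    {Y : Type w} [TopologicalSpace Y] [FirstCountableTopology Y]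
    (hY : ∃ y₀ : Y, ¬ IsOpen ({y₀} : Set Y)) :
    ¬ Nonempty (NonemptyRaySpace T × Y ≃ₜ EndSpace G) := by
  rintro ⟨e⟩
  obtain ⟨y₀, y, hy, hne⟩ := exists_seq_of_not_isOpen hY
  exact no_injection_end hT hch htop hNM y y₀ hy hne e e.continuous e.injective

/-- Main theorem for products: end space targets, all rays. -/
theorem prod_not_end' (hT : IsOrderTree T)
    (hch : ∀ c : Set T, IsChain (· ≤ ·) c → c.Countable)
    (htop : ∀ t : T, {t' | Set.Iio t' = Set.Iio t}.Countable)
    {V : Type v} (hNM : NM.{u, max u v} T) {G : SimpleGraph V}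
    {Y : Type w} [TopologicalSpace Y] [FirstCountableTopology Y]
    (hY : ∃ y₀ : Y, ¬ IsOpen ({y₀} : Set Y)) :
    ¬ Nonempty (RaySpace T × Y ≃ₜ EndSpace G) := by
  rintro ⟨e⟩
  obtain ⟨y₀, y, hy, hne⟩ := exists_seq_of_not_isOpen hY
  have hemb : IsEmbedding (fun p : NonemptyRaySpace T × Y =>
      ((⟨p.1.carrier, p.1.isRay⟩ : RaySpace T), p.2)) :=
    (isEmbedding_nonempty T).prodMap IsEmbedding.id
  exact no_injection_end hT hch htop hNM y y₀ hy hne
    (fun p => e ((⟨p.1.carrier, p.1.isRay⟩ : RaySpace T), p.2))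
    (e.continuous.comp hemb.continuous) (e.injective.comp hemb.injective)

end Pool.Agent.V11222
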