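import Pool.Agent.V11222.RayEndDefs

/-!
Ends of graphs, the end space, countable tightness, path-closed hulls.
-/

namespace Pool.Agent.V11222

open Set Topology

universe u v

section basics

variable {V : Type u} {G : SimpleGraph V}

lemma JoinedOff.mono {F F' : Set V} (hF : F ⊆ F') {x y : V} (h : JoinedOff G F' x y) :
    JoinedOff G F x y := by
  obtain ⟨p, hp⟩ := h
  exact ⟨p, fun z hz hzF => hp z hz (hF hzF)⟩

lemma NotSeparated.mono {F F' : Set V} (hF : F ⊆ F') {r s : GRay G}
    (h : NotSeparated G F' r s) : NotSeparated G F r s := by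
  obtain ⟨N, hN⟩ := h
  exact ⟨N, fun m hm n hn => (hN m hm n hn).mono hF⟩

end basics

section ends

variable {V : Type u} {G : SimpleGraph V}

lemma endOf_surj (ε : EndSpace G) : ∃ r : GRay G, endOf r = ε := Quotient.exists_rep ε

lemma endOf_eq {r s : GRay G} :
    endOf r = endOf s ↔ ∀ F : Set V, F.Finite → NotSeparated G F r s :=
  ⟨fun h => Quotient.exact h, fun h => Quotient.sound h⟩

lemma mem_Omega {F : Set V} (hF : F.Finite) {r s : GRay G} :
    endOf s ∈ Omega (endOf r) F ↔ NotSeparated G F r s := by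
  constructor
  · intro h; exact h r s rfl rfl
  · intro h r' s' hr' hs'
    exact ((endOf_eq.mp hr' F hF).trans h).trans ((endOf_eq.mp hs' F hF).symm)

lemma self_mem_Omega {F : Set V} (hF : F.Finite) (ε : EndSpace G) : ε ∈ Omega ε F := by
  obtain ⟨r, rfl⟩ := endOf_surj ε
  exact (mem_Omega hF).mpr (NotSeparated.refl hF r)

lemma isOpen_Omega {F : Set V} (hF : F.Finite) (ε : EndSpace G) : IsOpen (Omega ε F) :=
  TopologicalSpace.isOpen_generateFrom_of_mem ⟨ε, F, hF, rfl⟩

lemma Omega_mono {F F' : Set V} (hFF : F ⊆ F') (ε : EndSpace G) :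
    Omega ε F' ⊆ Omega ε F := by
  intro η hη r s hr hs
  exact (hη r s hr hs).mono hFF

lemma exists_Omega_subset {O : Set (EndSpace G)} (hO : IsOpen O) {ε : EndSpace G}
    (hε : ε ∈ O) : ∃ F : Set V, F.Finite ∧ Omega ε F ⊆ O := by
  induction hO with
  | basic s hs =>
    obtain ⟨η, F, hF, rfl⟩ := hs
    refine ⟨F, hF, ?_⟩
    obtain ⟨r, rfl⟩ := endOf_surj ε
    obtain ⟨s, rfl⟩ := endOf_surj η
    intro ζ hζ
    obtain ⟨t, rfl⟩ := endOf_surj ζ
    rw [mem_Omega hF] at *
    exact hε.trans hζ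
  | univ => exact ⟨∅, finite_empty, subset_univ _⟩
  | inter s t _ _ ih1 ih2 =>
    obtain ⟨F1, hF1, h1⟩ := ih1 hε.1
    obtain ⟨F2, hF2, h2⟩ := ih2 hε.2
    refine ⟨F1 ∪ F2, hF1.union hF2, ?_⟩
    exact subset_inter ((Omega_mono subset_union_left _).trans h1)
      ((Omega_mono subset_union_right _).trans h2)
  | sUnion S _ ih =>
    obtain ⟨s, hs, hεs⟩ := hε
    obtain ⟨F, hF, h⟩ := ih s hs hεs
    exact ⟨F, hF, h.trans (subset_sUnion_of_mem hs)⟩

end ends

section hull

variable {V : Type u} (G : SimpleGraph V)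

open Classical in
/-- a finite connecting set for `x`, `y` off `Q` -/
noncomputable def conn (x y : V) (Q : Set V) : Set V :=
  if h : JoinedOff G Q x y then {z | z ∈ h.choose.support} else ∅

lemma conn_finite (x y : V) (Q : Set V) : (conn G x y Q).Finite := by
  classical
  unfold conn
  split_ifs with h
  · exact List.finite_toSet h.choose.support
  · exact finite_empty

/-- one closing-off step -/
def hstep (B : Set V) : Set V :=
  B ∪ ⋃ x ∈ B, ⋃ y ∈ B, ⋃ Q ∈ {Q : Set V | Q.Finite ∧ Q ⊆ B}, conn G x y Q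

/-- the hull -/
def hull (A : Set V) : Set V := ⋃ n : ℕ, (hstep G)^[n] A

lemma subset_hstep (B : Set V) : B ⊆ hstep G B := subset_union_left

lemma hstep_mono {A B : Set V} (h : A ⊆ B) : hstep G A ⊆ hstep G B := by
  rintro z (hz | hz)
  · exact Or.inl (h hz)
  · right
    simp only [mem_iUnion, exists_prop] at hz ⊢
    obtain ⟨x, hx, y, hy, Q, ⟨hQ, hQA⟩, hz⟩ := hz
    exact ⟨x, h hx, y, h hy, Q, ⟨hQ, hQA.trans h⟩, hz⟩

lemma hstep_countable {B : Set V} (h : B.Countable) : (hstep G B).Countable := by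
  refine h.union ?_
  refine h.biUnion (fun x _ => h.biUnion (fun y _ => ?_))
  refine (Set.countable_ofPred_finite_subset h).biUnion (fun Q _ => ?_)
  exact (conn_finite G x y Q).countable

lemma subset_hull (A : Set V) : A ⊆ hull G A := fun x hx => mem_iUnion.mpr ⟨0, hx⟩

lemma hull_mono {A B : Set V} (h : A ⊆ B) : hull G A ⊆ hull G B := by
  apply iUnion_mono
  intro n
  induction n with
  | zero => exact h
  | succ n ih =>
    rw [Function.iterate_succ_apply', Function.iterate_succ_apply']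
    exact hstep_mono G ih

lemma hull_countable {A : Set V} (h : A.Countable) : (hull G A).Countable := by
  apply countable_iUnion
  intro n
  induction n with
  | zero => exact h
  | succ n ih =>
    rw [Function.iterate_succ_apply']
    exact hstep_countable G ih

lemma iter_mono (A : Set V) : Monotone (fun n : ℕ => (hstep G)^[n] A) := by
  refine monotone_nat_of_le_succ (fun n => ?_)
  rw [Function.iterate_succ_apply']
  exact subset_hstep G _

/-- a set is path-closed if connections can be chosen inside -/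
def PClosed (W : Set V) : Prop :=
  ∀ x ∈ W, ∀ y ∈ W, ∀ Q : Set V, Q.Finite → Q ⊆ W → JoinedOff G Q x y →
    ∃ p : G.Walk x y, (∀ z ∈ p.support, z ∉ Q) ∧ ∀ z ∈ p.support, z ∈ W

lemma finite_subset_of_mono {W : ℕ → Set V} (hW : Monotone W) {Q : Set V} (hQ : Q.Finite)
    (h : Q ⊆ ⋃ n, W n) : ∃ n, Q ⊆ W n := by
  induction Q, hQ using Set.Finite.induction_on with
  | empty => exact ⟨0, empty_subset _⟩
  | @insert a s _ _ ih =>
    obtain ⟨n, hn⟩ := ih ((subset_insert a s).trans h)
    obtain ⟨m, hm⟩ := mem_iUnion.mp (h (mem_insert a s))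
    refine ⟨max n m, ?_⟩
    intro x hx
    rcases hx with rfl | hx
    · exact hW (le_max_right n m) hm
    · exact hW (le_max_left n m) (hn hx)

lemma pclosed_hull (A : Set V) : PClosed G (hull G A) := by
  classical
  intro x hx y hy Q hQ hQW hj
  have hfin : ({x, y} ∪ Q : Set V).Finite := (by simp : ({x, y} : Set V).Finite).union hQ
  have hsub : ({x, y} ∪ Q : Set V) ⊆ ⋃ n : ℕ, (hstep G)^[n] A := by
    rintro z ((rfl | rfl) | hz)
    · exact hx
    · exact hy
    · exact hQW hz
  obtain ⟨n, hn⟩ := finite_subset_of_mono (iter_mono G A) hfin hsub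
  refine ⟨hj.choose, hj.choose_spec, fun z hz => ?_⟩
  refine mem_iUnion.mpr ⟨n + 1, ?_⟩
  rw [Function.iterate_succ_apply']
  right
  simp only [mem_iUnion, exists_prop]
  refine ⟨x, hn (Or.inl (Or.inl rfl)), y, hn (Or.inl (Or.inr rfl)), Q,
    ⟨hQ, fun w hw => hn (Or.inr hw)⟩, ?_⟩
  unfold conn
  rw [dif_pos hj]
  exact hz

variable {G}

/-- For path-closed `W` and a finite `Z`: joined off `Z ∩ W` implies joined off `Z` inside `W`. -/
lemma PClosed.joined {W : Set V} (hW : PClosed G W) {Z : Set V} (hZ : Z.Finite)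
    {x y : V} (hx : x ∈ W) (hy : y ∈ W) (h : JoinedOff G (Z ∩ W) x y) : JoinedOff G Z x y := by
  obtain ⟨p, hp, hpW⟩ := hW x hx y hy (Z ∩ W) (hZ.subset inter_subset_left)
    inter_subset_right h
  exact ⟨p, fun z hz hzZ => hp z hz ⟨hzZ, hpW z hz⟩⟩

/-- last vertex of a walk in a set -/
lemma exists_last {W : Set V} {x y : V} (p : G.Walk x y) (hy : y ∉ W) :
    (∀ z ∈ p.support, z ∉ W) ∨
      ∃ v ∈ W, ∃ q : G.Walk v y, (∀ z ∈ q.support, z ∈ p.support) ∧
        ∀ z ∈ q.support, z ∈ W → z = v := by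
  induction p with
  | nil => left; intro z hz; simp at hz; exact hz ▸ hy
  | @cons a b c h p ih =>
    rcases ih hy with h1 | ⟨v, hv, q, hq1, hq2⟩
    · by_cases ha : a ∈ W
      · right
        refine ⟨a, ha, SimpleGraph.Walk.cons h p, fun z hz => hz, ?_⟩
        intro z hz hzW
        rw [SimpleGraph.Walk.support_cons, List.mem_cons] at hz
        rcases hz with rfl | hz
        · rfl
        · exact absurd hzW (h1 z hz)
      · left
        intro z hz
        rw [SimpleGraph.Walk.support_cons, List.mem_cons] at hz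
        rcases hz with rfl | hz
        · exact ha
        · exact h1 z hz
    · right
      refine ⟨v, hv, q, fun z hz => ?_, hq2⟩
      rw [SimpleGraph.Walk.support_cons]
      exact List.mem_cons_of_mem _ (hq1 z hz)

/-- End spaces are countably tight. -/
lemma endSpace_tight (A : Set (EndSpace G)) (x : EndSpace G) (hx : x ∈ closure A) :
    ∃ B ⊆ A, B.Countable ∧ x ∈ closure B := by
  classical
  have hA : ∀ Q : Set V, ∃ r : GRay G, Q.Finite → (endOf r ∈ A ∧ endOf r ∈ Omega x Q) := by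
    intro Q
    by_cases hQ : Q.Finite
    · obtain ⟨y, hy1, hy2⟩ := mem_closure_iff.mp hx _ (isOpen_Omega hQ x) (self_mem_Omega hQ x)
      obtain ⟨r, rfl⟩ := endOf_surj y
      exact ⟨r, fun _ => ⟨hy2, hy1⟩⟩
    · obtain ⟨r, _⟩ := endOf_surj x
      exact ⟨r, fun h => absurd h hQ⟩
  choose r hr using hA
  obtain ⟨l, hl⟩ := endOf_surj x
  let st : Set V → Set V := fun B =>
    hull G B ∪ ⋃ Q ∈ {Q : Set V | Q.Finite ∧ Q ⊆ B}, range (r Q).toFun
  let U : ℕ → Set V := fun n => st^[n] (range l.toFun)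
  have hUsucc : ∀ n, U (n + 1) = st (U n) := fun n => Function.iterate_succ_apply' st n _
  have hUmono : Monotone U := by
    refine monotone_nat_of_le_succ (fun n => ?_)
    rw [hUsucc]
    exact (subset_hull G _).trans subset_union_left
  have hUc : ∀ n, (U n).Countable := by
    intro n
    induction n with
    | zero => exact countable_range _
    | succ n ih =>
      rw [hUsucc]
      exact (hull_countable G ih).union
        ((Set.countable_ofPred_finite_subset ih).biUnion (fun Q _ => countable_range _))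
  let W : Set V := ⋃ n, U n
  have hWc : W.Countable := countable_iUnion hUc
  have hlW : ∀ n, l.toFun n ∈ W := fun n => mem_iUnion.mpr ⟨0, n, rfl⟩
  have hrW : ∀ Q : Set V, Q.Finite → Q ⊆ W → ∀ n, (r Q).toFun n ∈ W := by
    intro Q hQ hQW n
    obtain ⟨k, hk⟩ := finite_subset_of_mono hUmono hQ hQW
    refine mem_iUnion.mpr ⟨k + 1, ?_⟩
    rw [hUsucc]
    right
    simp only [mem_iUnion, exists_prop]
    exact ⟨Q, ⟨hQ, hk⟩, n, rfl⟩
  have hWP : PClosed G W := by
    intro a ha b hb Q hQ hQW hj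
    have hfin : ({a, b} ∪ Q : Set V).Finite := (by simp : ({a, b} : Set V).Finite).union hQ
    have hsub : ({a, b} ∪ Q : Set V) ⊆ ⋃ n : ℕ, U n := by
      rintro z ((rfl | rfl) | hz)
      · exact ha
      · exact hb
      · exact hQW hz
    obtain ⟨n, hn⟩ := finite_subset_of_mono hUmono hfin hsub
    obtain ⟨p, hp1, hp2⟩ := pclosed_hull G (U n) a
      (subset_hull G _ (hn (Or.inl (Or.inl rfl)))) b
      (subset_hull G _ (hn (Or.inl (Or.inr rfl)))) Q hQ
      (fun w hw => subset_hull G _ (hn (Or.inr hw))) hj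
    refine ⟨p, hp1, fun z hz => mem_iUnion.mpr ⟨n + 1, ?_⟩⟩
    rw [hUsucc]
    exact Or.inl (hp2 z hz)
  refine ⟨(fun Q => endOf (r Q)) '' {Q : Set V | Q.Finite ∧ Q ⊆ W}, ?_, ?_, ?_⟩
  · rintro _ ⟨Q, ⟨hQ, _⟩, rfl⟩
    exact (hr Q hQ).1
  · exact (Set.countable_ofPred_finite_subset hWc).image _
  · rw [mem_closure_iff]
    intro O hO hxO
    obtain ⟨Z, hZ, hZO⟩ := exists_Omega_subset hO hxO
    have hQ : (Z ∩ W).Finite := hZ.subset inter_subset_left
    refine ⟨endOf (r (Z ∩ W)), hZO ?_, ⟨Z ∩ W, ⟨hQ, inter_subset_right⟩, rfl⟩⟩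
    have h1 := (hr (Z ∩ W) hQ).2
    rw [← hl, mem_Omega hQ] at h1
    rw [← hl, mem_Omega hZ]
    obtain ⟨N, hN⟩ := h1
    obtain ⟨N1, hN1⟩ := l.exists_avoid hZ
    obtain ⟨N2, hN2⟩ := (r (Z ∩ W)).exists_avoid hZ
    refine ⟨max N (max N1 N2), fun m hm n hn => ?_⟩
    exact hWP.joined hZ (hlW m) (hrW _ hQ inter_subset_right n)
      (hN m (le_trans (le_max_left _ _) hm) n (le_trans (le_max_left _ _) hn))

end hull

end Pool.Agent.V11222
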