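import Pool.Agent.V11222.HomogDefs

/-!
Eventual equality of 0-1 sequences. Sets that are invariant under it are homogeneous.
-/

namespace Pool.Agent.V11222

open Set Topology

/-- Eventual equality of 0-1 sequences. -/
def EE (x y : ℕ → Bool) : Prop := {n | x n ≠ y n}.Finite

lemma EE.refl (x : ℕ → Bool) : EE x x := by simp [EE]

lemma EE.symm {x y : ℕ → Bool} (h : EE x y) : EE y x := by
  refine Set.Finite.subset h ?_
  intro n hn h'
  exact hn h'.symm

lemma EE.trans {x y z : ℕ → Bool} (h : EE x y) (h' : EE y z) : EE x z := by
  refine (h.union h').subset ?_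
  intro n hn
  by_cases h1 : x n = y n
  · right
    intro h2
    exact hn (h1.trans h2)
  · exact Or.inl h1

/-- Change the coordinates in `s`. -/
def flip (s : Finset ℕ) (x : ℕ → Bool) : ℕ → Bool := fun n => if n ∈ s then !(x n) else x n

lemma continuous_flip (s : Finset ℕ) : Continuous (flip s) := by
  refine continuous_pi (fun n => ?_)
  unfold flip
  by_cases h : n ∈ s
  · simp only [h, if_true]
    exact (continuous_of_discreteTopology (f := not)).comp (continuous_apply n)
  · simp only [h, if_false]
    exact continuous_apply n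

lemma flip_flip (s : Finset ℕ) (x : ℕ → Bool) : flip s (flip s x) = x := by
  ext n
  by_cases h : n ∈ s <;> simp [flip, h]

lemma EE_flip (s : Finset ℕ) (x : ℕ → Bool) : EE x (flip s x) := by
  refine s.finite_toSet.subset ?_
  intro n hn
  by_contra h
  apply hn
  have : n ∉ s := h
  simp [flip, this]

lemma exists_flip_of_EE {x y : ℕ → Bool} (h : EE x y) : ∃ s : Finset ℕ, y = flip s x := by
  classical
  refine ⟨h.toFinset, ?_⟩
  ext n
  by_cases hn : x n = y n
  · simp [flip, hn]
  · have h1 : y n = !(x n) := by
      cases hx : x n <;> cases hy : y n <;> simp_all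
    simp [flip, hn, h1]

lemma countable_EE (x : ℕ → Bool) : {y | EE x y}.Countable := by
  refine (countable_range (fun s : Finset ℕ => flip s x)).mono ?_
  intro y hy
  obtain ⟨s, hs⟩ := exists_flip_of_EE hy
  exact ⟨s, hs.symm⟩

/-- The isometry of the Cantor space that maps `x` to `y` and changes every other point only up
to its first difference with `x`. -/
def swapFun (x y z : ℕ → Bool) : ℕ → Bool :=
  fun n => open Classical in if ∀ k < n, z k = x k then xor (z n) (xor (x n) (y n)) else z n

lemma swapFun_agree (x y z : ℕ → Bool) (n : ℕ) (h : ∀ k < n, z k = x k) :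
    ∀ k < n, swapFun x y z k = y k := by
  intro k hk
  have h1 : ∀ l < k, z l = x l := fun l hl => h l (hl.trans hk)
  have h2 := h k hk
  simp only [swapFun, if_pos h1, h2]
  cases x k <;> cases y k <;> rfl

lemma agree_of_swapFun (x y z : ℕ → Bool) (n : ℕ) (h : ∀ k < n, swapFun x y z k = y k) :
    ∀ k < n, z k = x k := by
  intro k
  induction k using Nat.strong_induction_on with
  | _ k ih =>
    intro hk
    have h1 : ∀ l < k, z l = x l := fun l hl => ih l hl (hl.trans hk)
    have h2 := h k hk
    simp only [swapFun, if_pos h1] at h2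
    revert h2
    cases z k <;> cases x k <;> cases y k <;> simp

lemma swapFun_swapFun (x y z : ℕ → Bool) : swapFun y x (swapFun x y z) = z := by
  classical
  ext n
  by_cases h : ∀ k < n, z k = x k
  · have h1 := swapFun_agree x y z n h
    have h2 : swapFun x y z n = xor (z n) (xor (x n) (y n)) := by
      simp only [swapFun, if_pos h]
    have h3 : swapFun y x (swapFun x y z) n =
        xor (swapFun x y z n) (xor (y n) (x n)) := by
      change (if ∀ k < n, swapFun x y z k = y k then _ else _) = _
      rw [if_pos h1]
    rw [h3, h2]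
    cases z n <;> cases x n <;> cases y n <;> rfl
  · have h1 : ¬ ∀ k < n, swapFun x y z k = y k := fun h' => h (agree_of_swapFun x y z n h')
    have h2 : swapFun x y z n = z n := by
      simp only [swapFun, if_neg h]
    have h3 : swapFun y x (swapFun x y z) n = swapFun x y z n := by
      change (if ∀ k < n, swapFun x y z k = y k then _ else _) = _
      rw [if_neg h1]
    rw [h3, h2]

lemma swapFun_self (x y : ℕ → Bool) : swapFun x y x = y := by
  ext n
  have h : ∀ k < n, x k = x k := fun _ _ => rfl
  have h2 : swapFun x y x n = xor (x n) (xor (x n) (y n)) := if_pos h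
  rw [h2]
  cases x n <;> cases y n <;> rfl

lemma EE_swapFun {x y z : ℕ → Bool} (h : z ≠ x) : EE z (swapFun x y z) := by
  obtain ⟨m, hm⟩ := Function.ne_iff.mp h
  refine (Set.finite_le_nat m).subset ?_
  intro n hn
  by_contra hnm
  apply hn
  have h1 : ¬ ∀ k < n, z k = x k := fun h' => hm (h' m (not_le.mp hnm))
  simp only [swapFun, if_neg h1]

lemma continuous_swapFun (x y : ℕ → Bool) : Continuous (swapFun x y) := by
  classical
  refine continuous_pi (fun n => ?_)
  -- the value at `n` depends on finitely many coordinates only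
  let g : (Fin (n + 1) → Bool) → Bool := fun w =>
    if ∀ k : Fin (n + 1), k.1 < n → w k = x k.1 then
      xor (w (Fin.last n)) (xor (x n) (y n)) else w (Fin.last n)
  have h1 : (fun z => swapFun x y z n) = fun z => g (fun k => z k.1) := by
    ext z
    have h2 : (∀ k < n, z k = x k) ↔ ∀ k : Fin (n + 1), k.1 < n → z k.1 = x k.1 :=
      ⟨fun h k hk => h k.1 hk, fun h k hk => h ⟨k, by omega⟩ hk⟩
    simp only [swapFun, g, h2, Fin.val_last]
  rw [h1]
  exact (continuous_of_discreteTopology (f := g)).comp
    (continuous_pi (fun k => continuous_apply k.1))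

/-- The homeomorphism of the Cantor space given by `swapFun`. -/
noncomputable def swapHomeo (x y : ℕ → Bool) : (ℕ → Bool) ≃ₜ (ℕ → Bool) where
  toFun := swapFun x y
  invFun := swapFun y x
  left_inv := swapFun_swapFun x y
  right_inv := swapFun_swapFun y x
  continuous_toFun := continuous_swapFun x y
  continuous_invFun := continuous_swapFun y x

/-- A set of 0-1 sequences that is invariant under eventual equality is homogeneous. -/
theorem isHomogeneous_of_invariant {A : Set (ℕ → Bool)}
    (hA : ∀ x y, EE x y → x ∈ A → y ∈ A) : IsHomogeneousSpace A := by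
  rintro ⟨x, hx⟩ ⟨y, hy⟩
  have h1 : ∀ x y : ℕ → Bool, x ∈ A → y ∈ A → ∀ z ∈ A, swapFun x y z ∈ A := by
    intro x y _ hy z hz
    by_cases h : z = x
    · rw [h, swapFun_self]
      exact hy
    · exact hA _ _ (EE_swapFun h) hz
  have h2 : ∀ z, z ∈ A ↔ swapHomeo x y z ∈ A := by
    intro z
    constructor
    · exact h1 x y hx hy z
    · intro h
      have := h1 y x hy hx _ h
      have h3 : swapFun y x (swapHomeo x y z) = z := swapFun_swapFun x y z
      rwa [h3] at this
  refine ⟨(swapHomeo x y).subtype h2, ?_⟩
  apply Subtype.ext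
  exact swapFun_self x y

/-- Homogeneity is invariant under homeomorphisms. -/
theorem IsHomogeneousSpace.of_homeomorph {X Y : Type*} [TopologicalSpace X] [TopologicalSpace Y]
    (e : X ≃ₜ Y) (h : IsHomogeneousSpace X) : IsHomogeneousSpace Y := by
  intro x y
  obtain ⟨g, hg⟩ := h (e.symm x) (e.symm y)
  refine ⟨(e.symm.trans g).trans e, ?_⟩
  simp [hg]

end Pool.Agent.V11222
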