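import Mathlib

/-!
Generic transversals: a transfinite recursion of length continuum that produces points of the
Cantor space avoiding all given partial homeomorphisms.
-/

namespace Pool.Agent.V11222.GenTrans

open Set Topology Cardinal Filter

/-- The index type of the recursion: a well-order of type `𝔠`. -/
abbrev J : Type := (Cardinal.continuum.{0}).ord.ToType

lemma mk_J : #J = 𝔠 := by simp

lemma mk_Iio_J (j : J) : #(Iio j) < 𝔠 := by
  have := Cardinal.mk_Iio_lt j (by simp)
  simpa using this

lemma mk_Iic_J (j : J) : #(Iic j) < 𝔠 := by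
  have h1 : (Iic j : Set J) = insert j (Iio j) := by
    ext x; simp [le_iff_eq_or_lt]
  rw [h1]
  refine (mk_insert_le).trans_lt ?_
  exact add_lt_of_lt aleph0_le_continuum (mk_Iio_J j) (one_lt_aleph0.trans aleph0_lt_continuum)

instance : Nonempty J := by
  rw [← mk_ne_zero_iff, mk_J]
  exact continuum_ne_zero

instance : NoMaxOrder J := by
  constructor
  intro a
  by_contra h
  push Not at h
  have h1 : (Iic a : Set J) = Set.univ := by
    ext x; simp [h x]
  have h2 := mk_Iic_J a
  rw [h1, mk_univ, mk_J] at h2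
  exact lt_irrefl _ h2

/-- The recursion: choose points `t j ∈ P j` that are unrelated to all earlier points by all
earlier relations. -/
theorem exists_generic {α : Type} (σ : J → α → α → Prop)
    (hσ : ∀ k t, {z | σ k t z}.Countable) (hsymm : ∀ k t z, σ k t z → σ k z t)
    (P : J → Set α) (hP : ∀ j, 𝔠 ≤ #(P j)) :
    ∃ t : J → α, (∀ j, t j ∈ P j) ∧ ∀ k j i, k < j → i ≠ j → ¬ σ k (t i) (t j) := by
  classical
  have key : ∀ (j : J) (f : ∀ i : J, i < j → α),
      ∃ z ∈ P j, ∀ (i : J) (hi : i < j) (k : J), k < j → ¬ σ k (f i hi) z := by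
    intro j f
    by_contra hcon
    push Not at hcon
    have hsub : P j ⊆ ⋃ p : (Iio j) × (Iio j), {z | σ p.2.1 (f p.1.1 p.1.2) z} := by
      intro z hz
      obtain ⟨i, hi, k, hk, h⟩ := hcon z hz
      exact mem_iUnion.mpr ⟨(⟨i, hi⟩, ⟨k, hk⟩), h⟩
    have h1 : #(⋃ p : (Iio j) × (Iio j), {z | σ p.2.1 (f p.1.1 p.1.2) z}) < 𝔠 := by
      refine (mk_iUnion_le _).trans_lt ?_
      refine mul_lt_of_lt aleph0_le_continuum ?_ ?_
      · rw [mk_prod]
        simp only [lift_id]
        exact mul_lt_of_lt aleph0_le_continuum (mk_Iio_J j) (mk_Iio_J j)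
      · refine lt_of_le_of_lt (ciSup_le' fun p => ?_) aleph0_lt_continuum
        exact (hσ _ _).le_aleph0
    exact absurd ((hP j).trans (mk_le_mk_of_subset hsub)) (not_le.mpr h1)
  let F : ∀ j : J, (∀ i : J, i < j → α) → α := fun j f => (key j f).choose
  let t : J → α := WellFounded.fix (wellFounded_lt (α := J)) F
  have ht : ∀ j, t j = F j (fun i _ => t i) := fun j => WellFounded.fix_eq _ F j
  have hspec : ∀ j, t j ∈ P j ∧ ∀ (i : J) (_ : i < j) (k : J), k < j → ¬ σ k (t i) (t j) := by
    intro j
    have := (key j (fun i _ => t i)).choose_spec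
    rw [ht j]
    exact this
  refine ⟨t, fun j => (hspec j).1, ?_⟩
  intro k j i hk hij hs
  rcases lt_or_gt_of_ne hij with h | h
  · exact (hspec j).2 i h k hk hs
  · exact (hspec i).2 j h k (hk.trans h) (hsymm _ _ _ hs)

/-- There is an enumeration of a nonempty family of at most continuum many objects along `J` in
which everything is listed cofinally often. -/
theorem exists_cofinal_enum {β : Type} [Nonempty β] (hβ : #β ≤ 𝔠) :
    ∃ g : J → β, ∀ b k, ∃ j, k < j ∧ g j = b := by
  classical
  have h0 : ∃ g0 : J → β, Function.Surjective g0 := by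
    have : #β ≤ #J := by rw [mk_J]; exact hβ
    obtain ⟨f⟩ := this
    exact ⟨Function.invFun f, Function.invFun_surjective f.injective⟩
  obtain ⟨g0, hg0⟩ := h0
  have h1 : #J = #(J × J) := by
    rw [mk_prod, lift_id, mk_J, continuum_mul_self]
  obtain ⟨e⟩ := Cardinal.eq.mp h1
  refine ⟨fun j => g0 (e j).2, ?_⟩
  intro b k
  obtain ⟨b', hb'⟩ := hg0 b
  by_contra hcon
  push Not at hcon
  have h2 : range (fun a : J => e.symm (a, b')) ⊆ Iic k := by
    rintro _ ⟨a, rfl⟩
    by_contra hk
    rw [mem_Iic, not_le] at hk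
    apply hcon _ hk
    simp [hb']
  have h3 : #(range (fun a : J => e.symm (a, b'))) = 𝔠 := by
    rw [mk_range_eq, mk_J]
    intro a a' haa
    have := e.symm.injective haa
    exact (Prod.mk.inj this).1
  have h4 := mk_le_mk_of_subset h2
  rw [h3] at h4
  exact absurd h4 (not_le.mpr (mk_Iic_J k))

/-- The Cantor space. -/
abbrev C : Type := ℕ → Bool

lemma mk_C : #C = 𝔠 := by
  simp [C]

instance : PolishSpace C :=
  have : TopologicalSpace.SeparableSpace (ℕ → Bool) := inferInstance
  have : TopologicalSpace.IsCompletelyMetrizableSpace (ℕ → Bool) := inferInstance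
  ⟨⟩

/-- An uncountable Borel set of the Cantor space has the cardinality of the continuum. -/
lemma mk_borel {B : Set C} (hB : MeasurableSet B) (hunc : ¬ B.Countable) : 𝔠 ≤ #B := by
  obtain ⟨t', ht', hpol, hcl, -⟩ := hB.isClopenable
  obtain ⟨f, hf, -, hinj⟩ := @IsClosed.exists_nat_bool_injection_of_not_countable C t' hpol B hcl hunc
  have h1 : Function.Injective (fun x : C => (⟨f x, hf (mem_range_self x)⟩ : B)) := by
    intro x y hxy
    exact hinj (congrArg Subtype.val hxy)
  have h2 := mk_le_of_injective h1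
  rwa [mk_C] at h2

/-- The uncountable Borel sets of the Cantor space. -/
def BorelUnc : Type := {B : Set C // MeasurableSet B ∧ ¬ B.Countable}

instance : Nonempty BorelUnc := by
  refine ⟨⟨Set.univ, MeasurableSet.univ, ?_⟩⟩
  rw [countable_univ_iff, ← mk_le_aleph0_iff, not_le, mk_C]
  exact aleph0_lt_continuum

lemma mk_borelUnc : #BorelUnc ≤ 𝔠 := by
  have h1 : #BorelUnc ≤ #{B : Set C // MeasurableSet B} := by
    refine mk_le_of_injective (f := fun B : BorelUnc => (⟨B.1, B.2.1⟩ : {B : Set C // MeasurableSet B})) ?_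
    intro B B' h
    have h' := congrArg Subtype.val h
    exact Subtype.ext h'
  refine h1.trans ?_
  have hgen : (borel C) = MeasurableSpace.generateFrom (TopologicalSpace.countableBasis C) :=
    (TopologicalSpace.isBasis_countableBasis C).borel_eq_generateFrom
  have h2 := MeasurableSpace.cardinal_measurableSet_le_continuum
    (s := TopologicalSpace.countableBasis C)
    (((TopologicalSpace.countable_countableBasis C).le_aleph0).trans aleph0_le_continuum)
  have h3 : {B : Set C | MeasurableSet B} = {B : Set C | @MeasurableSet C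
      (MeasurableSpace.generateFrom (TopologicalSpace.countableBasis C)) B} := by
    rw [← hgen, ← BorelSpace.measurable_eq (α := C)]
  have h4 : #{B : Set C // MeasurableSet B} = #({B : Set C | MeasurableSet B} : Set (Set C)) := rfl
  rw [h4, h3]
  exact h2

end Pool.Agent.V11222.GenTrans
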