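import Pool.Agent.V11222.GenTrans

/-!
Partial homeomorphisms given by two sequences, and transversals that are generic for them.
-/

namespace Pool.Agent.V11222.GenTrans

open Set Topology Cardinal Filter

/-- The partial injection determined by two sequences `d`, `e`: the point `x` in the closure of
`d` is related to the point `y` in the closure of `e` if `e → y` as `d → x` and `d → x` as
`e → y`. -/
def rho (d e : ℕ → C) (x y : C) : Prop :=
  x ∈ closure (range d) ∧ y ∈ closure (range e) ∧
    Tendsto e (comap d (𝓝 x)) (𝓝 y) ∧ Tendsto d (comap e (𝓝 y)) (𝓝 x)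

lemma comap_neBot_of_mem_closure {α : Type*} [TopologicalSpace α] {d : ℕ → α} {x : α}
    (h : x ∈ closure (range d)) : (comap d (𝓝 x)).NeBot := by
  rw [comap_neBot_iff]
  intro t ht
  obtain ⟨_, h1, n, rfl⟩ := mem_closure_iff_nhds.mp h t ht
  exact ⟨n, h1⟩

lemma rho_unique_right {d e : ℕ → C} {x y y' : C} (h : rho d e x y) (h' : rho d e x y') :
    y = y' := by
  have := comap_neBot_of_mem_closure h.1
  exact tendsto_nhds_unique h.2.2.1 h'.2.2.1

lemma rho_unique_left {d e : ℕ → C} {x x' y : C} (h : rho d e x y) (h' : rho d e x' y) :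
    x = x' := by
  have := comap_neBot_of_mem_closure h.2.1
  exact tendsto_nhds_unique h.2.2.2 h'.2.2.2

/-- Two points are related if they have companions `x`, `y` that are related by the partial
injection, or equal. -/
def sigma (R : C → C → Prop) (d e : ℕ → C) (t t' : C) : Prop :=
  ∃ x y, R t x ∧ (rho d e x y ∨ rho d e y x ∨ x = y) ∧ R t' y

lemma sigma_symm {R : C → C → Prop} {d e : ℕ → C} {t t' : C} (h : sigma R d e t t') :
    sigma R d e t' t := by
  obtain ⟨x, y, h1, h2, h3⟩ := h
  refine ⟨y, x, h3, ?_, h1⟩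
  rcases h2 with h | h | h
  · exact Or.inr (Or.inl h)
  · exact Or.inl h
  · exact Or.inr (Or.inr h.symm)

lemma countable_sigma {R : C → C → Prop} (hRc : ∀ x, {y | R x y}.Countable)
    (hRs : ∀ x y, R x y → R y x) (d e : ℕ → C) (t : C) : {t' | sigma R d e t t'}.Countable := by
  have h1 : {t' | sigma R d e t t'} ⊆ ⋃ x ∈ {x | R t x},
      ⋃ y ∈ {y | rho d e x y ∨ rho d e y x ∨ x = y}, {t' | R y t'} := by
    rintro t' ⟨x, y, hx, hxy, hy⟩
    exact mem_biUnion (s := {x | R t x}) hx (mem_biUnion
      (s := {y | rho d e x y ∨ rho d e y x ∨ x = y}) hxy (hRs _ _ hy))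
  refine Set.Countable.mono h1 ?_
  refine (hRc t).biUnion (fun x _ => ?_)
  refine Set.Countable.biUnion ?_ (fun y _ => hRc y)
  have h2 : {y | rho d e x y ∨ rho d e y x ∨ x = y} ⊆
      {y | rho d e x y} ∪ ({y | rho d e y x} ∪ {x}) := by
    rintro y (h | h | h)
    · exact Or.inl h
    · exact Or.inr (Or.inl h)
    · exact Or.inr (Or.inr h.symm)
  refine Set.Countable.mono h2 ?_
  refine Set.Countable.union ?_ (Set.Countable.union ?_ (countable_singleton x))
  · exact Set.Subsingleton.countable (fun y hy y' hy' => rho_unique_right hy hy')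
  · exact Set.Subsingleton.countable (fun y hy y' hy' => rho_unique_left hy hy')

/-- The generic transversal. -/
structure Generic (R : C → C → Prop) where
  /-- the points -/
  t : J → C
  /-- their colours -/
  c : J → Bool
  /-- the stage at which a partial injection is handled -/
  idx : (ℕ → C) → (ℕ → C) → J
  exists_mem : ∀ B : Set C, MeasurableSet B → ¬ B.Countable → ∀ (b : Bool) (k : J),
    ∃ j, k < j ∧ c j = b ∧ t j ∈ B
  avoid : ∀ (d e : ℕ → C) (i j : J), idx d e < j → i ≠ j → ∀ x y, R (t i) x → R (t j) y →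
    ¬ rho d e x y ∧ ¬ rho d e y x
  disj : ∀ i j : J, i ≠ j → ∀ x, R (t i) x → ¬ R (t j) x

theorem exists_generic_transversal {R : C → C → Prop} (hRc : ∀ x, {y | R x y}.Countable)
    (hRs : ∀ x y, R x y → R y x) : Nonempty (Generic R) := by
  classical
  have hc1 : #(BorelUnc × Bool) ≤ 𝔠 := by
    rw [mk_prod]
    simp only [lift_id]
    exact mul_le_of_le aleph0_le_continuum mk_borelUnc
      ((mk_le_aleph0).trans aleph0_le_continuum)
  have hc2 : #((ℕ → C) × (ℕ → C)) ≤ 𝔠 := by
    have h : #(ℕ → C) = 𝔠 := by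
      rw [← power_def, mk_C, mk_nat, continuum_power_aleph0]
    rw [mk_prod]
    simp only [lift_id]
    rw [h, continuum_mul_self]
  obtain ⟨g, hg⟩ := exists_cofinal_enum hc1
  obtain ⟨s, hs⟩ := exists_cofinal_enum hc2
  have hs' : ∀ p, ∃ k, s k = p := fun p => by
    obtain ⟨j, -, hj⟩ := hs p (Classical.arbitrary J)
    exact ⟨j, hj⟩
  obtain ⟨t, ht, hav⟩ := exists_generic (fun k => sigma R (s k).1 (s k).2)
    (fun k t => countable_sigma hRc hRs _ _ t) (fun k t z h => sigma_symm h)
    (fun j => (g j).1.1) (fun j => mk_borel (g j).1.2.1 (g j).1.2.2)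
  choose idx hidx using hs'
  refine ⟨⟨t, fun j => (g j).2, fun d e => idx (d, e), ?_, ?_, ?_⟩⟩
  · intro B hB hunc b k
    obtain ⟨j, hkj, hj⟩ := hg (⟨B, hB, hunc⟩, b) k
    refine ⟨j, hkj, by rw [hj], ?_⟩
    have := ht j
    rw [hj] at this
    exact this
  · intro d e i j hj hij x y hx hy
    have h1 := hav (idx (d, e)) j i hj hij
    rw [hidx (d, e)] at h1
    constructor
    · intro h
      exact h1 ⟨x, y, hx, Or.inl h, hy⟩
    · intro h
      exact h1 ⟨x, y, hx, Or.inr (Or.inl h), hy⟩
  · intro i j hij x hx hy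
    rcases lt_or_gt_of_ne hij with h | h
    · exact hav i j i h hij ⟨x, x, hx, Or.inr (Or.inr rfl), hy⟩
    · exact hav j i j h hij.symm ⟨x, x, hy, Or.inr (Or.inr rfl), hx⟩

section embedding

variable {K : Set C} [Nonempty K]

/-- A dense sequence of `K`. -/
noncomputable def dseq (K : Set C) [Nonempty K] : ℕ → C :=
  fun n => (TopologicalSpace.denseSeq K n : C)

/-- The image of the dense sequence of `K` under `f`. -/
noncomputable def eseq (f : K → C) : ℕ → C := fun n => f (TopologicalSpace.denseSeq K n)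

lemma comap_dseq (x : K) : comap (dseq K) (𝓝 (x : C)) =
    comap (TopologicalSpace.denseSeq K) (𝓝 x) := by
  rw [nhds_subtype, comap_comap]
  rfl

lemma mem_closure_dseq_eseq {f : K → C} (hf : Continuous f) (x : K) :
    ((x : C), f x) ∈ closure (range (fun n => (dseq K n, eseq f n))) := by
  have hg : Continuous (fun x : K => ((x : C), f x)) := continuous_subtype_val.prodMk hf
  have h1 : x ∈ closure (range (TopologicalSpace.denseSeq K)) :=
    TopologicalSpace.denseRange_denseSeq K x
  refine map_mem_closure (f := fun x : K => ((x : C), f x)) hg h1 ?_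
  rintro _ ⟨n, rfl⟩
  exact ⟨n, rfl⟩

lemma rho_of_embedding {f : K → C} (hf : IsEmbedding f) (x : K) :
    rho (dseq K) (eseq f) (x : C) (f x) := by
  have h1 : x ∈ closure (range (TopologicalSpace.denseSeq K)) :=
    TopologicalSpace.denseRange_denseSeq K x
  have h2 : comap (eseq f) (𝓝 (f x)) = comap (TopologicalSpace.denseSeq K) (𝓝 x) := by
    rw [hf.isInducing.nhds_eq_comap, comap_comap]
    rfl
  refine ⟨?_, ?_, ?_, ?_⟩
  · refine map_mem_closure continuous_subtype_val h1 ?_
    rintro _ ⟨n, rfl⟩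
    exact ⟨n, rfl⟩
  · refine map_mem_closure hf.continuous h1 ?_
    rintro _ ⟨n, rfl⟩
    exact ⟨n, rfl⟩
  · rw [comap_dseq]
    exact (hf.continuous.tendsto x).comp tendsto_comap
  · rw [h2]
    exact (continuous_subtype_val.tendsto x).comp tendsto_comap

lemma eq_of_mem_closure {f : K → C} (hf : Continuous f) (x : K) {y : C}
    (h : ((x : C), y) ∈ closure (range (fun n => (dseq K n, eseq f n)))) : f x = y := by
  have h1 := comap_neBot_of_mem_closure h
  have h2 : comap (fun n => (dseq K n, eseq f n)) (𝓝 ((x : C), y)) =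
      comap (dseq K) (𝓝 (x : C)) ⊓ comap (eseq f) (𝓝 y) := by
    rw [nhds_prod_eq, Filter.prod_eq_inf, comap_inf, comap_comap, comap_comap]
    rfl
  rw [h2] at h1
  have h3 : Tendsto (eseq f) (comap (dseq K) (𝓝 (x : C)) ⊓ comap (eseq f) (𝓝 y)) (𝓝 y) :=
    tendsto_comap.mono_left inf_le_right
  have h4 : Tendsto (eseq f) (comap (dseq K) (𝓝 (x : C)) ⊓ comap (eseq f) (𝓝 y)) (𝓝 (f x)) := by
    refine Tendsto.mono_left ?_ inf_le_left
    rw [comap_dseq]
    exact (hf.tendsto x).comp tendsto_comap
  exact tendsto_nhds_unique h4 h3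

end embedding

end Pool.Agent.V11222.GenTrans
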