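import Mathlib

/-!
Homogeneous, σ-homogeneous, strongly homogeneous and rigid spaces.
-/

namespace Pool.Agent.V11222

open Set Topology

universe u

/-- A space is homogeneous if for all `x`, `y` some self-homeomorphism maps `x` to `y`. -/
def IsHomogeneousSpace (X : Type u) [TopologicalSpace X] : Prop :=
  ∀ x y : X, ∃ h : X ≃ₜ X, h x = y

/-- A space is σ-homogeneous if it is a union of countably many homogeneous subspaces. -/
def IsSigmaHomogeneous (X : Type u) [TopologicalSpace X] : Prop :=
  ∃ A : ℕ → Set X, (∀ n, IsHomogeneousSpace (A n)) ∧ (⋃ n, A n) = Set.univ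

/-- A space is σ-homogeneous with closed witnesses if it is a union of countably many closed
homogeneous subspaces. -/
def IsSigmaHomogeneousClosed (X : Type u) [TopologicalSpace X] : Prop :=
  ∃ A : ℕ → Set X, (∀ n, IsClosed (A n) ∧ IsHomogeneousSpace (A n)) ∧ (⋃ n, A n) = Set.univ

/-- A nonempty space is strongly homogeneous if all its nonempty clopen subsets are homeomorphic
to it. -/
def IsStronglyHomogeneous (X : Type u) [TopologicalSpace X] : Prop :=
  Nonempty X ∧ ∀ U : Set X, IsClopen U → U.Nonempty → Nonempty (U ≃ₜ X)

/-- A space is σ-homogeneous with strongly homogeneous witnesses if it is a union of countably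
many strongly homogeneous subspaces. -/
def IsSigmaStronglyHomogeneous (X : Type u) [TopologicalSpace X] : Prop :=
  ∃ A : ℕ → Set X, (∀ n, IsStronglyHomogeneous (A n)) ∧ (⋃ n, A n) = Set.univ

/-- A space is rigid if it has at least two points and the identity is its only
self-homeomorphism. -/
def IsRigidSpace (X : Type u) [TopologicalSpace X] : Prop :=
  Nontrivial X ∧ ∀ h : X ≃ₜ X, ∀ x, h x = x

/-- A space is zero-dimensional if it is nonempty and has a base of clopen sets. -/
def IsZeroDimSpace (X : Type u) [TopologicalSpace X] : Prop :=
  Nonempty X ∧ TopologicalSpace.IsTopologicalBasis {s : Set X | IsClopen s}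

end Pool.Agent.V11222
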