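import Pool.Agent.V11222.EventualEq
import Pool.Agent.V11222.GenTrans2

/-!
A homogeneous space none of whose strongly homogeneous subspaces is essentially large.
-/

namespace Pool.Agent.V11222

open Set Topology Filter GenTrans MeasureTheory
open scoped ENNReal

/-- The fair coin. -/
noncomputable def coin : Measure Bool :=
  (2⁻¹ : ℝ≥0∞) • (Measure.dirac true + Measure.dirac false)

instance : IsProbabilityMeasure coin := by
  constructor
  simp only [coin, Measure.smul_apply, Measure.add_apply, measure_univ, smul_eq_mul]
  rw [mul_add, mul_one]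
  exact ENNReal.inv_two_add_inv_two

lemma coin_map_not : coin.map not = coin := by
  have hm : Measurable not := measurable_of_finite _
  rw [coin, Measure.map_smul, Measure.map_add _ _ hm, Measure.map_dirac' hm, Measure.map_dirac' hm]
  simp only [Bool.not_true, Bool.not_false]
  rw [add_comm]

lemma coin_singleton (b : Bool) : coin {b} = 2⁻¹ := by
  cases b <;> simp [coin]

/-- The fair coin measure on the Cantor space. -/
noncomputable def mu : Measure C := Measure.infinitePi (fun _ : ℕ => coin)

instance : IsProbabilityMeasure mu := by unfold mu; infer_instance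

lemma measurable_flip (s : Finset ℕ) : Measurable (flip s) := (continuous_flip s).measurable

lemma mu_map_flip (s : Finset ℕ) : mu.map (flip s) = mu := by
  have h1 : flip s = fun (x : ℕ → Bool) i => (if i ∈ s then not else id) (x i) := by
    ext x i
    by_cases h : i ∈ s <;> simp [flip, h]
  have h2 : ∀ i, Measurable (if i ∈ s then not else (id : Bool → Bool)) :=
    fun i => measurable_of_finite _
  have h3 := Measure.infinitePi_map_pi (μ := fun _ : ℕ => coin)
    (f := fun i => (if i ∈ s then not else (id : Bool → Bool))) h2
  unfold mu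
  rw [h1]
  refine h3.trans ?_
  congr 1
  ext1 i
  by_cases h : i ∈ s
  · simp only [h, if_true]
    exact coin_map_not
  · simp only [h, if_false]
    exact Measure.map_id

lemma mu_preimage_flip (s : Finset ℕ) {B : Set C} (hB : MeasurableSet B) :
    mu (flip s ⁻¹' B) = mu B := by
  rw [← Measure.map_apply (measurable_flip s) hB, mu_map_flip]

lemma mu_singleton (x : C) : mu {x} = 0 := by
  have h1 : ∀ n : ℕ, mu {x} ≤ (2⁻¹ : ℝ≥0∞) ^ n := by
    intro n
    have h2 : ({x} : Set C) ⊆ Set.pi (Finset.range n : Set ℕ) (fun i => {x i}) := by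
      rintro y rfl i _
      rfl
    refine (measure_mono h2).trans ?_
    unfold mu
    rw [Measure.infinitePi_pi _ (fun i _ => measurableSet_singleton _)]
    simp [coin_singleton]
  have h3 : Tendsto (fun n : ℕ => (2⁻¹ : ℝ≥0∞) ^ n) atTop (𝓝 0) :=
    ENNReal.tendsto_pow_atTop_nhds_zero_of_lt_one (by simp)
  exact le_antisymm (ge_of_tendsto' h3 h1) bot_le

lemma mu_countable {B : Set C} (hB : B.Countable) : mu B = 0 := by
  rw [← biUnion_of_singleton B]
  exact (measure_biUnion_null_iff hB).mpr (fun x _ => mu_singleton x)

/-- Countably many stages have a common upper bound. -/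
lemma exists_bound (k : ℕ → J) : ∃ b, ∀ n, k n < b := by
  have h1 : ¬ IsCofinal (range k) := by
    intro h
    have h2 := Order.cof_le h
    have h3 : Order.cof J = (Cardinal.continuum.{0}).ord.cof := Ordinal.cof_toType _
    have h4 : Cardinal.aleph0 < (Cardinal.continuum.{0}).ord.cof := by
      have := Cardinal.lt_cof_ord_power (a := Cardinal.aleph0.{0}) (b := 2) le_rfl
        (by exact_mod_cast Nat.one_lt_two)
      rwa [Cardinal.two_power_aleph0] at this
    rw [h3] at h2
    have h5 : Cardinal.mk (range k) ≤ Cardinal.aleph0 := Cardinal.mk_range_le.trans (by simp)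
    exact absurd (h4.trans_le (h2.trans h5)) (lt_irrefl _)
  obtain ⟨x, hx⟩ := not_isCofinal_iff.mp h1
  exact ⟨x, fun n => hx _ ⟨n, rfl⟩⟩

end Pool.Agent.V11222
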