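import Pool.Agent.V11222.NullCore

/-!
Essential outer measure of subspaces of the space `XE G`.
-/

namespace Pool.Agent.V11222

open Set Topology Filter GenTrans MeasureTheory
open scoped ENNReal

/-- The space: all points that are eventually equal to a point of the generic transversal. -/
def XE (G : Generic EE) : Set C := {x | ∃ j, EE (G.t j) x}

lemma isHomogeneous_XE (G : Generic EE) : IsHomogeneousSpace (XE G) := by
  apply isHomogeneous_of_invariant
  rintro x y hxy ⟨j, h⟩
  exact ⟨j, h.trans hxy⟩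

/-- `D` is a Borel set that contains all points of `Y` except those of a small number of
classes. -/
def Good (G : Generic EE) (Y D : Set C) : Prop :=
  MeasurableSet D ∧ ∃ k, ∀ j, k < j → ∀ x ∈ Y, EE (G.t j) x → x ∈ D

/-- The essential outer measure. -/
noncomputable def ess (G : Generic EE) (Y : Set C) : ℝ≥0∞ :=
  ⨅ (D : Set C) (_ : Good G Y D), mu D

lemma ess_le {G : Generic EE} {Y D : Set C} (h : Good G Y D) : ess G Y ≤ mu D :=
  iInf₂_le D h

lemma ess_le_one (G : Generic EE) (Y : Set C) : ess G Y ≤ 1 := by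
  have h : Good G Y Set.univ := ⟨MeasurableSet.univ, Classical.arbitrary J, fun _ _ _ _ _ => trivial⟩
  exact (ess_le h).trans prob_le_one

/-- A homeomorphism of subspaces of `XE G` preserves all but few classes. -/
lemma class_preserved (G : Generic EE) {Y : Set C} [Nonempty Y] (hY : Y ⊆ XE G) {f : Y → C}
    (hf : IsEmbedding f) {j : J} (hj : G.idx (dseq Y) (eseq f) < j)
    (y : Y) (h : EE (G.t j) (f y)) : EE (G.t j) y := by
  obtain ⟨i, hi⟩ := hY y.2
  by_cases hij : i = j
  · exact hij ▸ hi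
  · exact absurd (rho_of_embedding hf y) (G.avoid (dseq Y) (eseq f) i j hj hij _ _ hi h).1

/-- The essential outer measure does not increase under homeomorphisms. -/
theorem ess_le_of_homeo (G : Generic EE) {Y Y' : Set C} (hY : Y ⊆ XE G)
    (e : Y ≃ₜ Y') : ess G Y' ≤ ess G Y := by
  classical
  by_cases hne : Nonempty Y
  swap
  · have hY'e : Y' = ∅ := by
      rw [Set.eq_empty_iff_forall_notMem]
      intro x hx
      exact hne ⟨e.symm ⟨x, hx⟩⟩
    have h1 : Good G Y' ∅ := by
      refine ⟨MeasurableSet.empty, Classical.arbitrary J, ?_⟩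
      intro j _ x hx
      rw [hY'e] at hx
      exact absurd hx (Set.notMem_empty x)
    refine (ess_le h1).trans ?_
    simp
  let f : Y → C := fun y => (e y : C)
  have hf : IsEmbedding f := IsEmbedding.subtypeVal.comp e.isEmbedding
  let k0 := G.idx (dseq Y) (eseq f)
  refine le_iInf₂ (fun D hD => ?_)
  obtain ⟨hDm, k1, hk1⟩ := hD
  let gr : Set (C × C) := closure (range (fun n => (dseq Y n, eseq f n)))
  let F : Finset ℕ → Set C := fun s => {x | (x, flip s x) ∈ gr}
  have hFc : ∀ s, IsClosed (F s) := fun s =>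
    isClosed_closure.preimage (continuous_id.prodMk (continuous_flip s))
  obtain ⟨enc, henc⟩ := exists_surjective_nat (Finset ℕ)
  let A : ℕ → Set C := fun n => F (enc n)
  have hAm : ∀ n, MeasurableSet (A n) := fun n => (hFc _).measurableSet
  have hA'm : ∀ n, MeasurableSet (disjointed A n) := MeasurableSet.disjointed hAm
  let D' : Set C := ⋃ n, flip (enc n) ⁻¹' (D ∩ disjointed A n)
  have hD' : Good G Y' D' := by
    refine ⟨MeasurableSet.iUnion (fun n => measurable_flip _ (hDm.inter (hA'm n))), max k0 k1, ?_⟩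
    intro j hj y hy hjy
    set x : Y := e.symm ⟨y, hy⟩ with hx
    have hfx : f x = y := by
      change ((e (e.symm ⟨y, hy⟩) : Y') : C) = y
      rw [e.apply_symm_apply]
    have hjx : EE (G.t j) x := by
      apply class_preserved G hY hf ((le_max_left _ _).trans_lt hj) x
      rw [hfx]
      exact hjy
    have hxD : (x : C) ∈ D := hk1 j ((le_max_right _ _).trans_lt hj) x x.2 hjx
    obtain ⟨s, hs⟩ := exists_flip_of_EE (hjx.symm.trans hjy)
    obtain ⟨n, hn⟩ := henc s
    have hxF : (x : C) ∈ ⋃ n, A n := by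
      refine mem_iUnion.mpr ⟨n, ?_⟩
      change ((x : C), flip (enc n) x) ∈ gr
      rw [hn, ← hs, ← hfx]
      exact mem_closure_dseq_eseq hf.continuous x
    rw [← iUnion_disjointed] at hxF
    obtain ⟨m, hm⟩ := mem_iUnion.mp hxF
    have hm' : ((x : C), flip (enc m) x) ∈ gr := disjointed_subset A m hm
    have h1 : f x = flip (enc m) x := eq_of_mem_closure hf.continuous x hm'
    refine mem_iUnion.mpr ⟨m, ?_⟩
    change flip (enc m) y ∈ D ∩ disjointed A m
    rw [← hfx, h1, flip_flip]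
    exact ⟨hxD, hm⟩
  refine (ess_le hD').trans ?_
  calc mu D' ≤ ∑' n, mu (flip (enc n) ⁻¹' (D ∩ disjointed A n)) := measure_iUnion_le _
    _ = ∑' n, mu (D ∩ disjointed A n) := by
        congr 1
        ext1 n
        exact mu_preimage_flip _ (hDm.inter (hA'm n))
    _ = mu (⋃ n, D ∩ disjointed A n) := by
        rw [measure_iUnion]
        · intro m n hmn
          exact ((disjoint_disjointed A) hmn).mono inter_subset_right inter_subset_right
        · exact fun n => hDm.inter (hA'm n)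
    _ ≤ mu D := measure_mono (iUnion_subset (fun n => inter_subset_left))

lemma ess_add_le (G : Generic EE) (Y : Set C) {V : Set C} (hV : MeasurableSet V) :
    ess G (Y ∩ V) + ess G (Y ∩ Vᶜ) ≤ ess G Y := by
  refine le_iInf₂ (fun D hD => ?_)
  obtain ⟨hDm, k, hk⟩ := hD
  have h1 : Good G (Y ∩ V) (D ∩ V) :=
    ⟨hDm.inter hV, k, fun j hj x hx h => ⟨hk j hj x hx.1 h, hx.2⟩⟩
  have h2 : Good G (Y ∩ Vᶜ) (D \ V) :=
    ⟨hDm.diff hV, k, fun j hj x hx h => ⟨hk j hj x hx.1 h, hx.2⟩⟩
  calc ess G (Y ∩ V) + ess G (Y ∩ Vᶜ) ≤ mu (D ∩ V) + mu (D \ V) :=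
        add_le_add (ess_le h1) (ess_le h2)
    _ = mu D := measure_inter_add_sdiff D hV

/-- Strongly homogeneous subspaces of `XE G` are essentially null. -/
theorem ess_eq_zero (G : Generic EE) {Y : Set C} (hY : Y ⊆ XE G)
    (h : IsStronglyHomogeneous Y) : ess G Y = 0 := by
  by_cases hsub : Y.Subsingleton
  · have h1 : Good G Y Y :=
      ⟨hsub.countable.measurableSet, Classical.arbitrary J, fun _ _ _ hx _ => hx⟩
    exact le_antisymm ((ess_le h1).trans (mu_countable hsub.countable).le) bot_le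
  · rw [Set.not_subsingleton_iff] at hsub
    obtain ⟨x, hx, y, hy, hxy⟩ := hsub
    obtain ⟨U1, V1, hU1, hV1, hxU, hyV, hdis⟩ := t2_separation hxy
    obtain ⟨V, hV, hxV, hVU⟩ :=
      (loc_compact_Haus_tot_disc_of_zero_dim (H := C)).exists_subset_of_mem_open hxU hU1
    have hVc : IsClopen V := hV
    have hyV' : y ∉ V := fun h' => Set.disjoint_left.mp hdis (hVU h') hyV
    obtain ⟨e1⟩ := h.2 (Subtype.val ⁻¹' V) (hVc.preimage continuous_subtype_val) ⟨⟨x, hx⟩, hxV⟩
    obtain ⟨e2⟩ := h.2 (Subtype.val ⁻¹' Vᶜ) (hVc.compl.preimage continuous_subtype_val)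
      ⟨⟨y, hy⟩, hyV'⟩
    let s1 : ↥(Subtype.val ⁻¹' V : Set Y) ≃ₜ ↥(Y ∩ V) :=
      { toFun := fun x => ⟨x.1.1, x.1.2, x.2⟩
        invFun := fun y => ⟨⟨y.1, y.2.1⟩, y.2.2⟩
        left_inv := fun _ => rfl
        right_inv := fun _ => rfl
        continuous_toFun := by fun_prop
        continuous_invFun := by fun_prop }
    let s2 : ↥(Subtype.val ⁻¹' Vᶜ : Set Y) ≃ₜ ↥(Y ∩ Vᶜ) :=
      { toFun := fun x => ⟨x.1.1, x.1.2, x.2⟩
        invFun := fun y => ⟨⟨y.1, y.2.1⟩, y.2.2⟩
        left_inv := fun _ => rfl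
        right_inv := fun _ => rfl
        continuous_toFun := by fun_prop
        continuous_invFun := by fun_prop }
    have h1 : ess G Y ≤ ess G (Y ∩ V) :=
      ess_le_of_homeo G (inter_subset_left.trans hY) (s1.symm.trans e1)
    have h2 : ess G Y ≤ ess G (Y ∩ Vᶜ) :=
      ess_le_of_homeo G (inter_subset_left.trans hY) (s2.symm.trans e2)
    have h3 : ess G Y + ess G Y ≤ ess G Y :=
      (add_le_add h1 h2).trans (ess_add_le G Y hVc.isOpen.measurableSet)
    have h4 : ess G Y ≠ ∞ := ((ess_le_one G Y).trans_lt ENNReal.one_lt_top).ne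
    by_contra hne
    have h5 : ess G Y < ess G Y + ess G Y := ENNReal.lt_add_right h4 hne
    exact absurd h3 (not_le.mpr h5)

lemma IsStronglyHomogeneous.of_homeomorph {X Y : Type*} [TopologicalSpace X]
    [TopologicalSpace Y] (e : X ≃ₜ Y) (h : IsStronglyHomogeneous X) :
    IsStronglyHomogeneous Y := by
  refine ⟨h.1.map e, ?_⟩
  intro U hU hne
  obtain ⟨g⟩ := h.2 (e ⁻¹' U) (hU.preimage e.continuous) (hne.preimage e.surjective)
  have e' : ↥(e ⁻¹' U) ≃ₜ ↥U := e.subtype (fun _ => Iff.rfl)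
  exact ⟨(e'.symm.trans g).trans e⟩

/-- `XE G` is not covered by countably many essentially null sets. -/
theorem not_cover (G : Generic EE) (Y : ℕ → Set C) (hY : ∀ n, ess G (Y n) = 0) :
    ¬ XE G ⊆ ⋃ n, Y n := by
  intro hcov
  obtain ⟨ε, hε, hsum⟩ := ENNReal.exists_pos_sum_of_countable (ε := 1) (by simp) ℕ
  have h1 : ∀ n, ∃ D, Good G (Y n) D ∧ mu D < ε n := by
    intro n
    have h2 : ess G (Y n) < ε n := by
      rw [hY n]
      exact_mod_cast hε n
    obtain ⟨D, hD⟩ := iInf_lt_iff.mp h2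
    obtain ⟨hg, hlt⟩ := iInf_lt_iff.mp hD
    exact ⟨D, hg, hlt⟩
  choose D hD hDlt using h1
  have h2 : ∀ n, ∃ k, ∀ j, k < j → ∀ x ∈ Y n, EE (G.t j) x → x ∈ D n := fun n => (hD n).2
  choose k hk using h2
  obtain ⟨b, hb⟩ := exists_bound k
  have hmeas : MeasurableSet (⋃ n, D n)ᶜ := (MeasurableSet.iUnion (fun n => (hD n).1)).compl
  have hlt : mu (⋃ n, D n) < 1 := by
    calc mu (⋃ n, D n) ≤ ∑' n, mu (D n) := measure_iUnion_le _
      _ ≤ ∑' n, (ε n : ℝ≥0∞) := ENNReal.tsum_le_tsum (fun n => (hDlt n).le)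
      _ < 1 := hsum
  have hunc : ¬ ((⋃ n, D n)ᶜ).Countable := by
    intro hc
    have h3 := mu_countable hc
    rw [prob_compl_eq_zero_iff (MeasurableSet.iUnion (fun n => (hD n).1))] at h3
    rw [h3] at hlt
    exact lt_irrefl _ hlt
  obtain ⟨j, hbj, -, hj⟩ := G.exists_mem _ hmeas hunc false b
  apply hj
  have h4 : G.t j ∈ ⋃ n, Y n := hcov ⟨j, EE.refl _⟩
  obtain ⟨n, hn⟩ := mem_iUnion.mp h4
  exact mem_iUnion.mpr ⟨n, hk n j ((hb n).trans hbj) _ hn (EE.refl _)⟩

end Pool.Agent.V11222
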