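import Pool.Agent.V11222.GenericPair
import Pool.Agent.V11222.GraphEnds

/-!
Products of ray spaces with non-discrete spaces do not inject continuously into ray spaces or
into end spaces.
-/

namespace Pool.Agent.V11222

open Set Topology Filter

universe u v w

variable {T : Type u} [PartialOrder T]

lemma isClopen_coneR {S : Type v} [PartialOrder S] (s : S) :
    IsClopen {R : RaySpace S | s ∈ R.carrier} := by
  have hc : Continuous (fun R : RaySpace S => charFun R.carrier) := continuous_induced_dom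
  have hs : Continuous (fun R : RaySpace S => charFun R.carrier s) :=
    (continuous_apply s : Continuous (fun f : S → Bool => f s)).comp hc
  have h : {R : RaySpace S | s ∈ R.carrier} =
      (fun R : RaySpace S => charFun R.carrier s) ⁻¹' {true} := by
    ext R; simp [charFun]
  rw [h]
  exact (isClopen_discrete _).preimage hs

lemma raySpace_ext {S : Type v} [PartialOrder S] {R R' : RaySpace S}
    (h : R.carrier = R'.carrier) : R = R' := by
  cases R; cases R'; simp only at h; subst h; rfl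

lemma nonemptyRaySpace_ext {S : Type v} [PartialOrder S] {R R' : NonemptyRaySpace S}
    (h : R.carrier = R'.carrier) : R = R' := by
  cases R; cases R'; simp only at h; subst h; rfl

/-- minimal element of the difference of two comparable rays -/
lemma exists_top {S : Type v} [PartialOrder S] (hS : IsOrderTree S) {A B : Set S}
    (hA : IsLowerSet A) (hB : IsLowerSet B) (hBc : IsChain (· ≤ ·) B) (hAB : A ⊆ B)
    (hne : A ≠ B) : ∃ q ∈ B, Set.Iio q = A := by
  have h : (B \ A).Nonempty := by
    rw [Set.nonempty_iff_ne_empty]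
    intro h
    exact hne (Subset.antisymm hAB (sdiff_eq_empty.mp h))
  obtain ⟨q, hq, hmin⟩ := hS.wf.has_min _ h
  refine ⟨q, hq.1, ?_⟩
  ext z
  simp only [mem_Iio]
  constructor
  · intro hz
    by_contra hzA
    exact hmin z ⟨hB (le_of_lt hz) hq.1, hzA⟩ hz
  · intro hz
    rcases hBc.total (hAB hz) hq.1 with h1 | h1
    · rcases eq_or_lt_of_le h1 with h2 | h2
      · exact absurd (h2 ▸ hz) hq.2
      · exact h2
    · exact absurd (hA h1 hz) hq.2

/-- Core theorem, ray space target. -/
theorem no_injection_ray (hT : IsOrderTree T)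
    (hch : ∀ c : Set T, IsChain (· ≤ ·) c → c.Countable)
    (htop : ∀ t : T, {t' | Set.Iio t' = Set.Iio t}.Countable)
    {S : Type v} [PartialOrder S] (hNM : NM.{u, max u v} T) (hS : IsOrderTree S)
    (hSch : ∀ c : Set S, IsChain (· ≤ ·) c → c.Countable)
    {Y : Type w} [TopologicalSpace Y] (y : ℕ → Y) (y₀ : Y) (hy : Tendsto y atTop (𝓝 y₀))
    (hne : ∀ n, y n ≠ y₀) (h : NonemptyRaySpace T × Y → RaySpace S) (hc : Continuous h)
    (hinj : Function.Injective h) : False := by
  classical
  -- `T` has a limit node on a ray, so rays exist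
  have hX : Nonempty (NonemptyRaySpace T) := by
    obtain ⟨M, _, _, t, _, _, _, ρ, _⟩ := hNM (T ⊕ S) Sum.inl Sum.inl_injective (fun _ => ∅)
      (fun _ => countable_empty)
    exact ⟨ρ⟩
  obtain ⟨x₀⟩ := hX
  have hρex : ∀ u : T, ∃ r : NonemptyRaySpace T,
      (∃ r : NonemptyRaySpace T, u ∈ r.carrier) → u ∈ r.carrier := by
    intro u
    by_cases hu : ∃ r : NonemptyRaySpace T, u ∈ r.carrier
    · obtain ⟨r, hr⟩ := hu
      exact ⟨r, fun _ => hr⟩
    · exact ⟨x₀, fun hcon => absurd hcon hu⟩
  choose ρ hρ using hρex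
  let yy : Option ℕ → Y := fun o => o.elim y₀ y
  let Φ : List (T ⊕ S) → Set (T ⊕ S) := fun l =>
    match l with
    | [Sum.inl u] => ⋃ o : Option ℕ, Sum.inr '' (h (ρ u, yy o)).carrier
    | [Sum.inr s] => ⋃ o : Option ℕ, Sum.inl '' {t' | ∃ ht' : IsLim t',
        (h (rayBelow hT ht', yy o)).carrier = Set.Iio s}
    | _ => ∅
  have hΦ : ∀ l, (Φ l).Countable := by
    intro l
    match l with
    | [] => exact countable_empty
    | [Sum.inl u] =>
      exact countable_iUnion (fun o => (hSch _ (h (ρ u, yy o)).isRay.2.1).image _)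
    | [Sum.inr s] =>
      refine countable_iUnion (fun o => Countable.image ?_ _)
      by_cases hcase : ∃ t₀ : T, ∃ ht₀ : IsLim t₀,
          (h (rayBelow hT ht₀, yy o)).carrier = Set.Iio s
      · obtain ⟨t₀, ht₀, heq₀⟩ := hcase
        refine (htop t₀).mono ?_
        rintro t' ⟨ht', heq'⟩
        have h1 : h (rayBelow hT ht', yy o) = h (rayBelow hT ht₀, yy o) :=
          raySpace_ext (heq'.trans heq₀.symm)
        have h2 := congrArg (fun p : NonemptyRaySpace T × Y => p.1.carrier) (hinj h1)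
        exact h2
      · convert countable_empty (α := T)
        rw [Set.eq_empty_iff_forall_notMem]
        rintro t' ⟨ht', heq'⟩
        exact hcase ⟨t', ht', heq'⟩
    | Sum.inl _ :: _ :: _ => exact countable_empty
    | Sum.inr _ :: _ :: _ => exact countable_empty
  let 𝒞 : List (T ⊕ S) → Set (Set (NonemptyRaySpace T)) := fun l =>
    match l with
    | [Sum.inr s] => range (fun o : Option ℕ => {x | s ∈ (h (x, yy o)).carrier})
    | _ => ∅
  have h𝒞 : ∀ l, (𝒞 l).Countable := by
    intro l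
    match l with
    | [] => exact countable_empty
    | [Sum.inl u] => exact countable_empty
    | [Sum.inr s] => exact countable_range _
    | Sum.inl _ :: _ :: _ => exact countable_empty
    | Sum.inr _ :: _ :: _ => exact countable_empty
  have hcl : ∀ l, ∀ C ∈ 𝒞 l, IsClopen C := by
    intro l C hC
    match l with
    | [] => exact absurd hC (by simp [𝒞])
    | [Sum.inl u] => exact absurd hC (by simp [𝒞])
    | [Sum.inr s] =>
      obtain ⟨o, rfl⟩ := hC
      have hcont : Continuous (fun x : NonemptyRaySpace T => h (x, yy o)) :=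
        hc.comp (Continuous.prodMk continuous_id continuous_const)
      exact (isClopen_coneR s).preimage hcont
    | _ :: _ :: _ => exact absurd hC (by simp [𝒞])
  obtain ⟨M, hMc, hMcl, t, ht, htM, b, hb, hclos, hsep⟩ :=
    generic_pair hT hch htop hNM ρ hρ (T ⊕ S) Sum.inl Sum.inl_injective Φ hΦ 𝒞 h𝒞 hcl
  set a := rayBelow hT ht with ha
  have hab : a ≠ b := by
    intro hcon
    have h1 : t ∈ a.carrier := by rw [hcon]; exact hb
    exact lt_irrefl t h1
  -- `h (a, y*) ⊆ M`
  have hsub : ∀ o : Option ℕ, ∀ s ∈ (h (a, yy o)).carrier, (Sum.inr s : T ⊕ S) ∈ M := by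
    intro o s hs
    have hcont : Continuous (fun x : NonemptyRaySpace T => h (x, yy o)) :=
      hc.comp (Continuous.prodMk continuous_id continuous_const)
    obtain ⟨u, huM, hu⟩ := hclos {x | s ∈ (h (x, yy o)).carrier}
      ((isClopen_coneR s).isOpen.preimage hcont) hs
    have h1 : Φ [Sum.inl u] ⊆ M := hMcl [Sum.inl u] (by simpa using huM)
    exact h1 (mem_iUnion.mpr ⟨o, s, hu, rfl⟩)
  have hiff : ∀ o : Option ℕ, ∀ s : S, (Sum.inr s : T ⊕ S) ∈ M →
      (s ∈ (h (a, yy o)).carrier ↔ s ∈ (h (b, yy o)).carrier) := by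
    intro o s hs
    exact hsep [Sum.inr s] (by simpa using hs) _ ⟨o, rfl⟩
  have hAB : (h (a, y₀)).carrier ⊆ (h (b, y₀)).carrier := by
    intro s hs
    exact (hiff none s (hsub none s hs)).mp hs
  have hABne : (h (a, y₀)).carrier ≠ (h (b, y₀)).carrier := by
    intro hcon
    have h1 := hinj (raySpace_ext hcon)
    exact hab (congrArg Prod.fst h1)
  obtain ⟨q, hq, hqI⟩ := exists_top hS (h (a, y₀)).isRay.1 (h (b, y₀)).isRay.1
    (h (b, y₀)).isRay.2.1 hAB hABne
  -- `q ∈ h (b, y n)` for some `n`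
  have hcont : Continuous (fun z : Y => h (b, z)) :=
    hc.comp (Continuous.prodMk continuous_const continuous_id)
  have hopen : IsOpen {z : Y | q ∈ (h (b, z)).carrier} :=
    (isClopen_coneR q).isOpen.preimage hcont
  obtain ⟨n, hn⟩ := (hy.eventually (hopen.mem_nhds hq)).exists
  have hn' : q ∈ (h (b, y n)).carrier := hn
  have hsub2 : (h (a, y₀)).carrier ⊆ (h (a, y n)).carrier := by
    intro s hs
    have hsM := hsub none s hs
    refine (hiff (some n) s hsM).mpr ?_
    have hsq : s < q := by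
      have : s ∈ Set.Iio q := by rw [hqI]; exact hs
      exact this
    exact (h (b, y n)).isRay.1 (le_of_lt hsq) hn'
  have hne2 : (h (a, y₀)).carrier ≠ (h (a, y n)).carrier := by
    intro hcon
    have h1 := hinj (raySpace_ext hcon)
    exact hne n (congrArg Prod.snd h1).symm
  obtain ⟨q', hq', hq'I⟩ := exists_top hS (h (a, y₀)).isRay.1 (h (a, y n)).isRay.1
    (h (a, y n)).isRay.2.1 hsub2 hne2
  have hq'M : (Sum.inr q' : T ⊕ S) ∈ M := hsub (some n) q' hq'
  have h1 : Φ [Sum.inr q'] ⊆ M := hMcl [Sum.inr q'] (by simpa using hq'M)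
  exact htM (h1 (mem_iUnion.mpr ⟨none, t, ⟨ht, hq'I.symm⟩, rfl⟩))

lemma isClosed_Omega {V : Type v} {G : SimpleGraph V} {F : Set V} (hF : F.Finite)
    (ε : EndSpace G) : IsClosed (Omega ε F) := by
  rw [← isOpen_compl_iff, isOpen_iff_mem_nhds]
  intro η hη
  refine Filter.mem_of_superset ((isOpen_Omega hF η).mem_nhds (self_mem_Omega hF η)) ?_
  intro ζ hζ hcon
  apply hη
  obtain ⟨r, rfl⟩ := endOf_surj ε
  obtain ⟨s, rfl⟩ := endOf_surj η
  obtain ⟨t, rfl⟩ := endOf_surj ζ
  rw [mem_Omega hF] at *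
  exact hcon.trans hζ.symm

/-- Core theorem, end space target. -/
theorem no_injection_end (hT : IsOrderTree T)
    (hch : ∀ c : Set T, IsChain (· ≤ ·) c → c.Countable)
    (htop : ∀ t : T, {t' | Set.Iio t' = Set.Iio t}.Countable)
    {V : Type v} (hNM : NM.{u, max u v} T) {G : SimpleGraph V}
    {Y : Type w} [TopologicalSpace Y] (y : ℕ → Y) (y₀ : Y) (hy : Tendsto y atTop (𝓝 y₀))
    (hne : ∀ n, y n ≠ y₀) (h : NonemptyRaySpace T × Y → EndSpace G) (hc : Continuous h)
    (hinj : Function.Injective h) : False := by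
  classical
  have hX : Nonempty (NonemptyRaySpace T) := by
    obtain ⟨M, _, _, t, _, _, _, ρ, _⟩ := hNM (T ⊕ V) Sum.inl Sum.inl_injective (fun _ => ∅)
      (fun _ => countable_empty)
    exact ⟨ρ⟩
  obtain ⟨x₀⟩ := hX
  have hρex : ∀ u : T, ∃ r : NonemptyRaySpace T,
      (∃ r : NonemptyRaySpace T, u ∈ r.carrier) → u ∈ r.carrier := by
    intro u
    by_cases hu : ∃ r : NonemptyRaySpace T, u ∈ r.carrier
    · obtain ⟨r, hr⟩ := hu
      exact ⟨r, fun _ => hr⟩
    · exact ⟨x₀, fun hcon => absurd hcon hu⟩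
  choose ρ hρ using hρex
  let yy : Option ℕ → Y := fun o => o.elim y₀ y
  have hLex : ∀ (u : T) (o : Option ℕ), ∃ l : GRay G, endOf l = h (ρ u, yy o) :=
    fun u o => endOf_surj _
  choose L hL using hLex
  let VL : List (T ⊕ V) → Set V := fun l => {q | Sum.inr q ∈ l}
  have hVL : ∀ l, (VL l).Finite := by
    intro l
    have h1 : {z : T ⊕ V | z ∈ l}.Finite := List.finite_toSet l
    exact h1.preimage (Sum.inr_injective.injOn)
  let Φ : List (T ⊕ V) → Set (T ⊕ V) := fun l =>
    match l with
    | [Sum.inl u] => ⋃ o : Option ℕ, Sum.inr '' range (L u o).toFun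
    | Sum.inr v₁ :: Sum.inr v₂ :: l' => Sum.inr '' conn G v₁ v₂ (VL l')
    | _ => ∅
  have hΦ : ∀ l, (Φ l).Countable := by
    intro l
    match l with
    | [] => exact countable_empty
    | [Sum.inl u] => exact countable_iUnion (fun o => (countable_range _).image _)
    | [Sum.inr s] => exact countable_empty
    | Sum.inl _ :: _ :: _ => exact countable_empty
    | Sum.inr _ :: Sum.inl _ :: _ => exact countable_empty
    | Sum.inr v₁ :: Sum.inr v₂ :: l' => exact ((conn_finite G v₁ v₂ _).countable).image _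
  let 𝒞 : List (T ⊕ V) → Set (Set (NonemptyRaySpace T)) := fun l =>
    match l with
    | Sum.inl u :: l' =>
      range (fun o : Option ℕ => {x | h (x, yy o) ∈ Omega (h (ρ u, yy o)) (VL l')})
    | _ => ∅
  have h𝒞 : ∀ l, (𝒞 l).Countable := by
    intro l
    match l with
    | [] => exact countable_empty
    | Sum.inl u :: l' => exact countable_range _
    | Sum.inr s :: _ => exact countable_empty
  have hcl : ∀ l, ∀ C ∈ 𝒞 l, IsClopen C := by
    intro l C hC
    match l with
    | [] => exact absurd hC (by simp [𝒞])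
    | Sum.inl u :: l' =>
      obtain ⟨o, rfl⟩ := hC
      have hcont : Continuous (fun x : NonemptyRaySpace T => h (x, yy o)) :=
        hc.comp (Continuous.prodMk continuous_id continuous_const)
      exact IsClopen.preimage ⟨isClosed_Omega (hVL l') _, isOpen_Omega (hVL l') _⟩ hcont
    | Sum.inr s :: _ => exact absurd hC (by simp [𝒞])
  obtain ⟨M, hMc, hMcl, t, ht, htM, b, hb, hclos, hsep⟩ :=
    generic_pair hT hch htop hNM ρ hρ (T ⊕ V) Sum.inl Sum.inl_injective Φ hΦ 𝒞 h𝒞 hcl
  set a := rayBelow hT ht with ha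
  have hab : a ≠ b := by
    intro hcon
    have h1 : t ∈ a.carrier := by rw [hcon]; exact hb
    exact lt_irrefl t h1
  let U : Set V := {q | (Sum.inr q : T ⊕ V) ∈ M}
  -- a list with prescribed finite set of vertices
  have hlist : ∀ Q : Set V, Q.Finite → Q ⊆ U → ∃ l : List (T ⊕ V), (∀ z ∈ l, z ∈ M) ∧
      VL l = Q := by
    intro Q hQ hQU
    refine ⟨hQ.toFinset.toList.map Sum.inr, ?_, ?_⟩
    · intro z hz
      obtain ⟨q, hq, rfl⟩ := List.mem_map.mp hz
      exact hQU (by simpa using hq)
    · ext q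
      simp [VL]
  have hUP : PClosed G U := by
    intro v₁ h₁ v₂ h₂ Q hQ hQU hj
    obtain ⟨l, hl, hVl⟩ := hlist Q hQ hQU
    have h1 : Φ (Sum.inr v₁ :: Sum.inr v₂ :: l) ⊆ M := by
      refine hMcl (Sum.inr v₁ :: Sum.inr v₂ :: l) ?_
      intro z hz
      rcases List.mem_cons.mp hz with rfl | hz
      · exact h₁
      rcases List.mem_cons.mp hz with rfl | hz
      · exact h₂
      · exact hl z hz
    refine ⟨hj.choose, hj.choose_spec, fun z hz => ?_⟩
    apply h1
    refine ⟨z, ?_, rfl⟩
    rw [hVl]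
    unfold conn
    rw [dif_pos hj]
    exact hz
  -- closure of `U`
  have hclU : ∀ (o : Option ℕ) (Z : Set V), Z.Finite → ∀ l : GRay G, endOf l = h (a, yy o) →
      ∃ w ∈ U, ∃ N, ∀ n ≥ N, JoinedOff G Z w (l.toFun n) := by
    intro o Z hZ l hl
    have hcont : Continuous (fun x : NonemptyRaySpace T => h (x, yy o)) :=
      hc.comp (Continuous.prodMk continuous_id continuous_const)
    obtain ⟨u, huM, hu⟩ := hclos {x | h (x, yy o) ∈ Omega (h (a, yy o)) Z}
      ((isOpen_Omega hZ _).preimage hcont) (self_mem_Omega hZ _)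
    have hu' : h (ρ u, yy o) ∈ Omega (h (a, yy o)) Z := hu
    rw [← hL, ← hl, mem_Omega hZ] at hu'
    obtain ⟨N, hN⟩ := hu'
    have h1 : Φ [Sum.inl u] ⊆ M := hMcl [Sum.inl u] (by simpa using huM)
    exact ⟨(L u o).toFun N, h1 (mem_iUnion.mpr ⟨o, _, ⟨N, rfl⟩, rfl⟩), N,
      fun n hn => (hN n hn N (le_refl _)).symm⟩
  -- no separation by finite subsets of `U`
  have hns : ∀ (o : Option ℕ) (Q : Set V), Q.Finite → Q ⊆ U →
      h (b, yy o) ∈ Omega (h (a, yy o)) Q := by
    intro o Q hQ hQU
    obtain ⟨l, hl, hVl⟩ := hlist Q hQ hQU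
    have hcont : Continuous (fun x : NonemptyRaySpace T => h (x, yy o)) :=
      hc.comp (Continuous.prodMk continuous_id continuous_const)
    obtain ⟨u, huM, hu⟩ := hclos {x | h (x, yy o) ∈ Omega (h (a, yy o)) Q}
      ((isOpen_Omega hQ _).preimage hcont) (self_mem_Omega hQ _)
    have hu' : h (ρ u, yy o) ∈ Omega (h (a, yy o)) Q := hu
    have hs := hsep (Sum.inl u :: l) (by
      intro z hz
      rcases List.mem_cons.mp hz with rfl | hz
      · exact huM
      · exact hl z hz) {x | h (x, yy o) ∈ Omega (h (ρ u, yy o)) (VL l)} ⟨o, rfl⟩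
    rw [hVl] at hs
    obtain ⟨ra, hra⟩ := endOf_surj (h (a, yy o))
    obtain ⟨rb, hrb⟩ := endOf_surj (h (b, yy o))
    have h1 : a ∈ {x | h (x, yy o) ∈ Omega (h (ρ u, yy o)) Q} := by
      change h (a, yy o) ∈ Omega (h (ρ u, yy o)) Q
      rw [← hra, ← hL u o, mem_Omega hQ] at hu'
      rw [← hra, ← hL u o, mem_Omega hQ]
      exact hu'.symm
    have h2 : h (b, yy o) ∈ Omega (h (ρ u, yy o)) Q := hs.mp h1
    rw [← hra, ← hL u o, mem_Omega hQ] at hu'
    rw [← hrb, ← hL u o, mem_Omega hQ] at h2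
    rw [← hra, ← hrb, mem_Omega hQ]
    exact hu'.trans h2
  -- rays
  obtain ⟨la, hla⟩ := endOf_surj (h (a, y₀))
  obtain ⟨lb, hlb⟩ := endOf_surj (h (b, y₀))
  have hdist : ¬ ∀ F : Set V, F.Finite → NotSeparated G F la lb := by
    rw [← endOf_eq, hla, hlb]
    intro hcon
    exact hab (congrArg Prod.fst (hinj hcon))
  push Not at hdist
  obtain ⟨Z, hZ, hZsep⟩ := hdist
  obtain ⟨w, hwU, N0, hw⟩ := hclU none Z hZ la hla
  have hQf : (Z ∩ U).Finite := hZ.subset inter_subset_left
  have hQ1 : NotSeparated G (Z ∩ U) la lb := by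
    have := hns none (Z ∩ U) hQf inter_subset_right
    change h (b, y₀) ∈ Omega (h (a, y₀)) (Z ∩ U) at this
    rw [← hla, ← hlb, mem_Omega hQf] at this
    exact this
  -- the component of the tail of `lb` off `Z` is disjoint from `U`
  obtain ⟨N1, hN1⟩ := lb.exists_avoid hZ
  have hcomp : ∀ v, ∀ n ≥ N1, JoinedOff G Z v (lb.toFun n) → v ∉ U := by
    intro v n hn hv hvU
    apply hZsep
    obtain ⟨N2, hN2⟩ := hQ1
    have h1 : JoinedOff G (Z ∩ U) w v := by
      have e1 : JoinedOff G (Z ∩ U) w (la.toFun (max N0 N2)) :=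
        (hw _ (le_max_left _ _)).mono inter_subset_left
      have e2 : JoinedOff G (Z ∩ U) (la.toFun (max N0 N2)) (lb.toFun (max n N2)) :=
        hN2 _ (le_max_right _ _) _ (le_max_right _ _)
      have e3 : JoinedOff G Z (lb.toFun n) (lb.toFun (max n N2)) :=
        lb.joined (fun k hk => hN1 k (le_trans hn hk)) _ (le_max_left _ _)
      exact (e1.trans e2).trans ((hv.trans e3).mono inter_subset_left).symm
    have h2 : JoinedOff G Z w v := hUP.joined hZ hwU hvU h1
    refine ⟨max N0 n, fun m hm k hk => ?_⟩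
    have e4 : JoinedOff G Z (lb.toFun n) (lb.toFun k) :=
      lb.joined (fun k hk => hN1 k (le_trans hn hk)) _ (le_trans (le_max_right _ _) hk)
    exact (((hw m (le_trans (le_max_left _ _) hm)).symm.trans h2).trans hv).trans e4
  -- choose `n`
  have hcont : Continuous (fun z : Y => h (b, z)) :=
    hc.comp (Continuous.prodMk continuous_const continuous_id)
  have hopen : IsOpen {z : Y | h (b, z) ∈ Omega (h (b, y₀)) Z} :=
    (isOpen_Omega hZ _).preimage hcont
  obtain ⟨n, hn⟩ := (hy.eventually (hopen.mem_nhds (self_mem_Omega hZ _))).exists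
  have hn' : h (b, y n) ∈ Omega (h (b, y₀)) Z := hn
  obtain ⟨la', hla'⟩ := endOf_surj (h (a, y n))
  obtain ⟨lb', hlb'⟩ := endOf_surj (h (b, y n))
  rw [← hlb, ← hlb', mem_Omega hZ] at hn'
  -- not separated by finite subsets of `U`
  have hfin : ∀ Q : Set V, Q.Finite → Q ⊆ U → NotSeparated G Q la la' := by
    intro Q hQ hQU
    have e1 : NotSeparated G Q la lb := by
      have := hns none Q hQ hQU
      change h (b, y₀) ∈ Omega (h (a, y₀)) Q at this
      rw [← hla, ← hlb, mem_Omega hQ] at this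
      exact this
    have e3 : NotSeparated G Q la' lb' := by
      have := hns (some n) Q hQ hQU
      change h (b, y n) ∈ Omega (h (a, y n)) Q at this
      rw [← hla', ← hlb', mem_Omega hQ] at this
      exact this
    have e2 : NotSeparated G Q lb lb' := by
      obtain ⟨N, hN⟩ := hn'
      refine ⟨max N N1, fun m hm k hk => ?_⟩
      obtain ⟨p, hp⟩ := hN m (le_trans (le_max_left _ _) hm) k (le_trans (le_max_left _ _) hk)
      refine ⟨p, fun z hz hzQ => ?_⟩
      refine hcomp z m (le_trans (le_max_right _ _) hm) ?_ (hQU hzQ)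
      refine ⟨(p.takeUntil z hz).reverse, ?_⟩
      intro x hx
      apply hp
      rw [SimpleGraph.Walk.support_reverse, List.mem_reverse] at hx
      exact SimpleGraph.Walk.support_takeUntil_subset_support p hz hx
    exact (e1.trans e2).trans e3.symm
  have hall : ∀ F : Set V, F.Finite → NotSeparated G F la la' := by
    intro F hF
    obtain ⟨w₁, hw₁, M₁, hM₁⟩ := hclU none F hF la hla
    obtain ⟨w₂, hw₂, M₂, hM₂⟩ := hclU (some n) F hF la' hla'
    have hQf' : (F ∩ U).Finite := hF.subset inter_subset_left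
    obtain ⟨M₃, hM₃⟩ := hfin (F ∩ U) hQf' inter_subset_right
    have h1 : JoinedOff G (F ∩ U) w₁ w₂ := by
      have e1 := (hM₁ (max M₁ (max M₂ M₃)) (le_max_left _ _)).mono
        (inter_subset_left : F ∩ U ⊆ F)
      have e2 := hM₃ (max M₁ (max M₂ M₃)) (le_trans (le_max_right _ _) (le_max_right _ _))
        (max M₁ (max M₂ M₃)) (le_trans (le_max_right _ _) (le_max_right _ _))
      have e3 := (hM₂ (max M₁ (max M₂ M₃)) (le_trans (le_max_left _ _) (le_max_right _ _))).mono
        (inter_subset_left : F ∩ U ⊆ F)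
      exact (e1.trans e2).trans e3.symm
    have h2 : JoinedOff G F w₁ w₂ := hUP.joined hF hw₁ hw₂ h1
    refine ⟨max M₁ M₂, fun m hm k hk => ?_⟩
    exact ((hM₁ m (le_trans (le_max_left _ _) hm)).symm.trans h2).trans
      (hM₂ k (le_trans (le_max_right _ _) hk))
  have heq : h (a, y₀) = h (a, y n) := by
    rw [← hla, ← hla', endOf_eq]
    exact hall
  exact hne n (congrArg Prod.snd (hinj heq)).symm

end Pool.Agent.V11222
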