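import Pool.Agent.V11222.FirstCount

/-!
Open subspaces of ray spaces are quasi-ray spaces.
-/

namespace Pool.Agent.V11222

open Set Topology

universe u

/-- A representation of the subset `E` of `A` by the nonempty rays of an order tree. -/
def Rep {A : Type u} [TopologicalSpace A] (E : Set A) : Prop :=
  ∃ (S : Type u) (_ : PartialOrder S) (f : A → Set S), IsOrderTree S ∧
    (∀ x ∈ E, IsRay (f x) ∧ (f x).Nonempty) ∧ InjOn f E ∧
    (∀ R : Set S, IsRay R → R.Nonempty → ∃ x ∈ E, f x = R) ∧
    ∀ s, IsOpen {x | x ∈ E ∧ s ∈ f x} ∧ IsOpen {x | x ∈ E ∧ s ∉ f x}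

lemma isOrderTree_of' {T : Type u} [PartialOrder T] (h1 : ∃ r : T, ∀ t, r ≤ t)
    (h2 : WellFounded ((· < ·) : T → T → Prop)) (h3 : ∀ t x y : T, x ≤ t → y ≤ t → x ≤ y ∨ y ≤ x) :
    IsOrderTree T := by
  refine ⟨h1, fun t => ?_⟩
  have hw : WellFounded ((· < ·) : Iic t → Iic t → Prop) := InvImage.wf (fun x : Iic t => x.1) h2
  have ht : Std.Trichotomous ((· < ·) : Iic t → Iic t → Prop) := by
    constructor
    intro x y hxy hyx
    rcases h3 t x.1 y.1 x.2 y.2 with h | h
    · rcases eq_or_lt_of_le h with h' | h'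
      · exact Subtype.ext h'
      · exact absurd h' hxy
    · rcases eq_or_lt_of_le h with h' | h'
      · exact Subtype.ext h'.symm
      · exact absurd h' hyx
  exact { wf := hw, trichotomous := ht.trichotomous }

section sums

variable {A : Type u} [TopologicalSpace A]

lemma sigma_wf {ι : Type u} (S : ι → Type u) [∀ i, PartialOrder (S i)]
    (h : ∀ i, IsOrderTree (S i)) : WellFounded ((· < ·) : (Σ i, S i) → (Σ i, S i) → Prop) := by
  refine ⟨?_⟩
  rintro ⟨i, s⟩
  induction s using (h i).wf.induction with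
  | _ s ih =>
    refine Acc.intro _ ?_
    rintro ⟨j, s'⟩ hlt
    obtain ⟨h1, h2⟩ := Sigma.lt_def.mp hlt
    simp only at h1
    subst h1
    exact ih s' h2

lemma rep_isOpen {E : Set A} (h : Rep E) : IsOpen E := by
  obtain ⟨S, hS, f, hT, _, _, _, hopen⟩ := h
  obtain ⟨r, _⟩ := hT.exists_root
  have h1 := (hopen r).1.union (hopen r).2
  convert h1 using 1
  ext x
  constructor
  · intro hx
    by_cases hr : r ∈ f x
    · exact Or.inl ⟨hx, hr⟩
    · exact Or.inr ⟨hx, hr⟩
  · rintro (⟨hx, _⟩ | ⟨hx, _⟩) <;> exact hx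

/-- Disjoint unions. -/
theorem rep_iUnion {ι : Type u} (E : ι → Set A) (hdisj : ∀ i j x, x ∈ E i → x ∈ E j → i = j)
    (h : ∀ i, Rep (E i)) : Rep (⋃ i, E i) := by
  classical
  have hEopen : ∀ i, IsOpen (E i) := fun i => rep_isOpen (h i)
  choose S hS f hT hray hinj hsurj hopen using h
  let F : A → Set (WithBot (Σ i, S i)) := fun x =>
    {z | z = ⊥ ∨ ∃ (i : ι) (s : S i), x ∈ E i ∧ s ∈ f i x ∧ z = ((⟨i, s⟩ : Σ i, S i) : WithBot _)}
  have hbot : ∀ x, ⊥ ∈ F x := fun x => Or.inl rfl
  have hmem : ∀ (i : ι) (s : S i) (x : A),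
      ((⟨i, s⟩ : Σ i, S i) : WithBot (Σ i, S i)) ∈ F x ↔ x ∈ E i ∧ s ∈ f i x := by
    intro i s x
    constructor
    · rintro (h | ⟨j, s', hx, hs, heq⟩)
      · exact absurd h (WithBot.coe_ne_bot)
      · have h1 := WithBot.coe_injective heq
        obtain ⟨rfl, h2⟩ := Sigma.mk.inj h1
        obtain rfl := eq_of_heq h2
        exact ⟨hx, hs⟩
    · rintro ⟨hx, hs⟩
      exact Or.inr ⟨i, s, hx, hs, rfl⟩
  have hwf : WellFounded ((· < ·) : (Σ i, S i) → (Σ i, S i) → Prop) := sigma_wf S hT
  have hwf' : WellFoundedLT (Σ i, S i) := ⟨hwf⟩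
  have htree : IsOrderTree (WithBot (Σ i, S i)) := by
    refine isOrderTree_of' ⟨⊥, fun t => bot_le⟩ wellFounded_lt ?_
    intro t x y hx hy
    induction x using WithBot.recBotCoe with
    | bot => exact Or.inl bot_le
    | coe p =>
      induction y using WithBot.recBotCoe with
      | bot => exact Or.inr bot_le
      | coe q =>
        induction t using WithBot.recBotCoe with
        | bot => exact absurd (lt_of_lt_of_le (WithBot.bot_lt_coe p) hx) (lt_irrefl _)
        | coe r =>
          have hx := WithBot.coe_le_coe.mp hx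
          have hy := WithBot.coe_le_coe.mp hy
          obtain ⟨i, a⟩ := p
          obtain ⟨j, b⟩ := q
          obtain ⟨k, c⟩ := r
          obtain ⟨h1, hx'⟩ := Sigma.le_def.mp hx
          obtain ⟨h2, hy'⟩ := Sigma.le_def.mp hy
          simp only at h1 h2
          subst h1; subst h2
          rcases (hT _).comp hx' hy' with h | h
          · left; exact WithBot.coe_le_coe.mpr (Sigma.mk_le_mk_iff.mpr h)
          · right; exact WithBot.coe_le_coe.mpr (Sigma.mk_le_mk_iff.mpr h)
  refine ⟨WithBot (Σ i, S i), inferInstance, F, htree, ?_, ?_, ?_, ?_⟩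
  · intro x hx
    obtain ⟨i, hxi⟩ := mem_iUnion.mp hx
    obtain ⟨hr, hne⟩ := hray i x hxi
    refine ⟨⟨?_, ?_, ?_⟩, ⟨⊥, hbot x⟩⟩
    · intro a b hba ha
      induction b using WithBot.recBotCoe with
      | bot => exact hbot x
      | coe b =>
        induction a using WithBot.recBotCoe with
        | bot => exact absurd (lt_of_lt_of_le (WithBot.bot_lt_coe b) hba) (lt_irrefl _)
        | coe a =>
          have hba := WithBot.coe_le_coe.mp hba
          obtain ⟨j, b⟩ := b
          obtain ⟨k, a⟩ := a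
          obtain ⟨h1, h2⟩ := Sigma.le_def.mp hba
          simp only at h1
          subst h1
          obtain ⟨h3, h4⟩ := (hmem _ _ _).mp ha
          exact (hmem _ _ _).mpr ⟨h3, (hray _ x h3).1.1 h2 h4⟩
    · intro a ha b hb _
      induction a using WithBot.recBotCoe with
      | bot => exact Or.inl bot_le
      | coe a =>
        induction b using WithBot.recBotCoe with
        | bot => exact Or.inr bot_le
        | coe b =>
          obtain ⟨j, b⟩ := b
          obtain ⟨k, a⟩ := a
          obtain ⟨h3, h4⟩ := (hmem _ _ _).mp ha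
          obtain ⟨h5, h6⟩ := (hmem _ _ _).mp hb
          obtain rfl := hdisj j k x h5 h3
          rcases (hray _ x h3).1.2.1.total h4 h6 with h | h
          · left; exact WithBot.coe_le_coe.mpr (Sigma.mk_le_mk_iff.mpr h)
          · right; exact WithBot.coe_le_coe.mpr (Sigma.mk_le_mk_iff.mpr h)
    · intro a ha
      induction a using WithBot.recBotCoe with
      | bot =>
        obtain ⟨s, hs⟩ := hne
        exact ⟨_, (hmem i s x).mpr ⟨hxi, hs⟩, WithBot.bot_lt_coe _⟩
      | coe a =>
        obtain ⟨k, a⟩ := a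
        obtain ⟨h3, h4⟩ := (hmem _ _ _).mp ha
        obtain ⟨s', hs', hlt⟩ := (hray _ x h3).1.2.2 a h4
        exact ⟨_, (hmem k s' x).mpr ⟨h3, hs'⟩,
          WithBot.coe_lt_coe.mpr (Sigma.mk_lt_mk_iff.mpr hlt)⟩
  · intro x hx y hy hxy
    obtain ⟨i, hxi⟩ := mem_iUnion.mp hx
    obtain ⟨j, hyj⟩ := mem_iUnion.mp hy
    obtain ⟨s, hs⟩ := (hray i x hxi).2
    have h1 : ((⟨i, s⟩ : Σ i, S i) : WithBot (Σ i, S i)) ∈ F y := by
      rw [← hxy]; exact (hmem i s x).mpr ⟨hxi, hs⟩
    have hyi : y ∈ E i := ((hmem _ _ _).mp h1).1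
    apply hinj i hxi hyi
    ext s'
    have h2 : (((⟨i, s'⟩ : Σ i, S i) : WithBot (Σ i, S i)) ∈ F x ↔
      ((⟨i, s'⟩ : Σ i, S i) : WithBot (Σ i, S i)) ∈ F y) := by rw [hxy]
    rw [hmem, hmem] at h2
    constructor
    · intro h3; exact (h2.mp ⟨hxi, h3⟩).2
    · intro h3; exact (h2.mpr ⟨hyi, h3⟩).2
  · intro R hR hne
    obtain ⟨z, hz⟩ := hne
    obtain ⟨z', hz', hlt⟩ := hR.2.2 z hz
    have hz'b : z' ≠ ⊥ := fun h => by rw [h] at hlt; exact not_lt_bot hlt
    obtain ⟨⟨i, s⟩, rfl⟩ := WithBot.ne_bot_iff_exists.mp hz'b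
    let Ri : Set (S i) := {s' | ((⟨i, s'⟩ : Σ i, S i) : WithBot (Σ i, S i)) ∈ R}
    have hRi : IsRay Ri := by
      refine ⟨?_, ?_, ?_⟩
      · intro a b hba ha
        exact hR.1 (WithBot.coe_le_coe.mpr (Sigma.mk_le_mk_iff.mpr hba)) ha
      · intro a ha b hb _
        rcases hR.2.1.total ha hb with h | h
        · left; exact Sigma.mk_le_mk_iff.mp (WithBot.coe_le_coe.mp h)
        · right; exact Sigma.mk_le_mk_iff.mp (WithBot.coe_le_coe.mp h)
      · intro a ha
        obtain ⟨z, hz, hlt⟩ := hR.2.2 _ ha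
        have hzb : z ≠ ⊥ := fun h => by rw [h] at hlt; exact not_lt_bot hlt
        obtain ⟨⟨j, b⟩, rfl⟩ := WithBot.ne_bot_iff_exists.mp hzb
        obtain ⟨h1, h2⟩ := Sigma.lt_def.mp (WithBot.coe_lt_coe.mp hlt)
        simp only at h1
        subst h1
        exact ⟨b, hz, h2⟩
    obtain ⟨x, hxi, hfx⟩ := hsurj i Ri hRi ⟨s, hz'⟩
    refine ⟨x, mem_iUnion.mpr ⟨i, hxi⟩, ?_⟩
    ext z
    induction z using WithBot.recBotCoe with
    | bot => exact ⟨fun _ => hR.1 bot_le hz', fun _ => hbot x⟩
    | coe z =>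
      obtain ⟨j, b⟩ := z
      rw [hmem]
      constructor
      · rintro ⟨h1, h2⟩
        obtain rfl := hdisj i j x hxi h1
        rw [hfx] at h2
        exact h2
      · intro h1
        have hij : i = j := by
          rcases hR.2.1.total hz' h1 with h | h
          · exact (Sigma.le_def.mp (WithBot.coe_le_coe.mp h)).1
          · exact (Sigma.le_def.mp (WithBot.coe_le_coe.mp h)).1.symm
        subst hij
        refine ⟨hxi, ?_⟩
        rw [hfx]
        exact h1
  · intro z
    induction z using WithBot.recBotCoe with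
    | bot =>
      constructor
      · convert isOpen_iUnion hEopen using 1
        ext x
        exact ⟨fun h => h.1, fun h => ⟨h, hbot x⟩⟩
      · convert isOpen_empty (X := A) using 1
        ext x
        exact ⟨fun h => h.2 (hbot x), fun h => absurd h (Set.notMem_empty x)⟩
    | coe z =>
      obtain ⟨i, s⟩ := z
      constructor
      · convert (hopen i s).1 using 1
        ext x
        exact ⟨fun h => (hmem i s x).mp h.2,
          fun h => ⟨mem_iUnion.mpr ⟨i, h.1⟩, (hmem i s x).mpr h⟩⟩
      · have h1 : IsOpen ({x | x ∈ E i ∧ s ∉ f i x} ∪ ⋃ j ∈ {j | j ≠ i}, E j) :=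
          (hopen i s).2.union (isOpen_biUnion (fun j _ => hEopen j))
        convert h1 using 1
        ext x
        constructor
        · rintro ⟨h1, h2⟩
          obtain ⟨j, hj⟩ := mem_iUnion.mp h1
          by_cases hij : j = i
          · subst hij
            left
            exact ⟨hj, fun h3 => h2 ((hmem _ _ _).mpr ⟨hj, h3⟩)⟩
          · right
            simp only [mem_iUnion, exists_prop]
            exact ⟨j, hij, hj⟩
        · rintro (⟨h2, h3⟩ | h1)
          · exact ⟨mem_iUnion.mpr ⟨i, h2⟩, fun h4 => h3 ((hmem _ _ _).mp h4).2⟩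
          · simp only [mem_iUnion, exists_prop] at h1
            obtain ⟨j, hij, hj⟩ := h1
            exact ⟨mem_iUnion.mpr ⟨j, hj⟩,
              fun h4 => hij (hdisj j i x hj ((hmem _ _ _).mp h4).1)⟩

/-- Cones and pieces of cones. -/
theorem rep_cone {T : Type u} [PartialOrder T] (hT : IsOrderTree T) (s : T) (L : Set T)
    (hL : IsLowerSet L) (hs : s ∈ L)
    (hE : IsOpen {ρ : NonemptyRaySpace T | s ∈ ρ.carrier ∧ ρ.carrier ⊆ L}) :
    Rep {ρ : NonemptyRaySpace T | s ∈ ρ.carrier ∧ ρ.carrier ⊆ L} := by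
  have htree : IsOrderTree {x : T // s ≤ x ∧ x ∈ L} := by
    refine isOrderTree_of' ⟨⟨s, le_refl s, hs⟩, fun t => t.2.1⟩
      (InvImage.wf (fun x : {x : T // s ≤ x ∧ x ∈ L} => x.1) hT.wf) ?_
    intro t x y hx hy
    exact hT.comp (t := t.1) hx hy
  refine ⟨{x : T // s ≤ x ∧ x ∈ L}, inferInstance, fun ρ => {x | x.1 ∈ ρ.carrier}, htree,
    ?_, ?_, ?_, ?_⟩
  · rintro ρ ⟨hsρ, hρL⟩
    refine ⟨⟨?_, ?_, ?_⟩, ⟨⟨s, le_refl s, hs⟩, hsρ⟩⟩
    · intro a b hba ha
      exact ρ.isRay.1 hba ha
    · intro a ha b hb _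
      exact ρ.isRay.2.1.total ha hb
    · intro a ha
      obtain ⟨y, hy, hlt⟩ := ρ.isRay.2.2 a.1 ha
      exact ⟨⟨y, le_trans a.2.1 (le_of_lt hlt), hρL hy⟩, hy, hlt⟩
  · rintro ρ ⟨hsρ, hρL⟩ ρ' ⟨hsρ', hρL'⟩ heq
    apply nonemptyRaySpace_ext
    have h1 : ∀ x : {x : T // s ≤ x ∧ x ∈ L}, x.1 ∈ ρ.carrier ↔ x.1 ∈ ρ'.carrier := by
      intro x
      have : x ∈ {x : {x : T // s ≤ x ∧ x ∈ L} | x.1 ∈ ρ.carrier} ↔
        x ∈ {x : {x : T // s ≤ x ∧ x ∈ L} | x.1 ∈ ρ'.carrier} := by
        have h2 : {x : {x : T // s ≤ x ∧ x ∈ L} | x.1 ∈ ρ.carrier} =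
          {x : {x : T // s ≤ x ∧ x ∈ L} | x.1 ∈ ρ'.carrier} := heq
        rw [h2]
      exact this
    ext t
    constructor
    · intro ht
      rcases ρ.isRay.2.1.total hsρ ht with h | h
      · exact (h1 ⟨t, h, hρL ht⟩).mp ht
      · exact ρ'.isRay.1 h hsρ'
    · intro ht
      rcases ρ'.isRay.2.1.total hsρ' ht with h | h
      · exact (h1 ⟨t, h, hρL' ht⟩).mpr ht
      · exact ρ.isRay.1 h hsρ
  · intro R hR hne
    obtain ⟨z, hz⟩ := hne
    let C : Set T := {t | ∃ x ∈ R, t ≤ x.1}
    have hC : IsRay C := by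
      refine ⟨?_, ?_, ?_⟩
      · rintro a b hba ⟨x, hx, hax⟩
        exact ⟨x, hx, le_trans hba hax⟩
      · rintro a ⟨x, hx, hax⟩ b ⟨y, hy, hby⟩ _
        rcases hR.2.1.total hx hy with h | h
        · exact hT.comp (t := y.1) (le_trans hax h) hby
        · exact hT.comp (t := x.1) hax (le_trans hby h)
      · rintro a ⟨x, hx, hax⟩
        obtain ⟨y, hy, hlt⟩ := hR.2.2 x hx
        exact ⟨y.1, ⟨y, hy, le_refl _⟩, lt_of_le_of_lt hax hlt⟩
    refine ⟨⟨C, hC, ⟨z.1, z, hz, le_refl _⟩⟩, ⟨⟨z, hz, z.2.1⟩, ?_⟩, ?_⟩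
    · rintro t ⟨x, hx, htx⟩
      exact hL htx x.2.2
    · ext x
      constructor
      · rintro ⟨y, hy, hxy⟩
        exact hR.1 hxy hy
      · intro hx
        exact ⟨x, hx, le_refl _⟩
  · intro x
    have h1 := isClosed_cone (T := T) x.1
    constructor
    · exact hE.inter (isOpen_cone x.1)
    · exact hE.inter h1.isOpen_compl

/-- Nodes of the tree obtained by hanging trees above a ray. -/
inductive Att (T' Sg : Type u) : Type u
  | base : T' → Att T' Sg
  | up : Sg → Att T' Sg

/-- The order of the tree obtained by hanging trees above the ray `R₀`. -/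
def attLE {T' Sg : Type u} [PartialOrder T'] [PartialOrder Sg] (R₀ : Set T') :
    Att T' Sg → Att T' Sg → Prop
  | .base a, .base b => a ≤ b
  | .base a, .up _ => a ∈ R₀
  | .up _, .base _ => False
  | .up a, .up b => a ≤ b

/-- The order of the tree obtained by hanging trees above the ray `R₀`. -/
@[reducible] def attOrder {T' Sg : Type u} [PartialOrder T'] [PartialOrder Sg] (R₀ : Set T')
    (h : IsLowerSet R₀) : PartialOrder (Att T' Sg) where
  le := attLE R₀
  le_refl a := by cases a <;> exact le_refl _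
  le_trans a b c hab hbc := by
    cases a <;> cases b <;> cases c <;> simp only [attLE] at hab hbc ⊢
    · exact le_trans hab hbc
    · exact h hab hbc
    · exact hab
    · exact le_trans hab hbc
  le_antisymm a b hab hba := by
    cases a <;> cases b <;> simp only [attLE] at hab hba
    · rw [le_antisymm hab hba]
    · rw [le_antisymm hab hba]

/-- Attaching pieces above a ray. -/
theorem rep_attach {T' : Type u} [PartialOrder T'] (hT' : IsOrderTree T') (R₀ : Set T')
    (hR₀ : IsRay R₀) (hR₀ne : R₀.Nonempty) (W P : Set A) (hW : IsOpen W) (hP : IsOpen P)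
    (hWP : ∀ x, x ∈ W → x ∉ P) (g : A → Set T')
    (hg1 : ∀ x ∈ W, IsRay (g x) ∧ (g x).Nonempty ∧ g x ≠ R₀) (hg2 : InjOn g W)
    (hg3 : ∀ R : Set T', IsRay R → R.Nonempty → R ≠ R₀ → ∃ x ∈ W, g x = R)
    (hg4 : ∀ t, IsOpen {x | x ∈ W ∧ t ∈ g x} ∧ IsOpen {x | x ∈ W ∧ t ∉ g x})
    (p : A) (hp : p ∈ P) {J : Type u} (Z : J → Set A)
    (hdisj : ∀ i j x, x ∈ Z i → x ∈ Z j → i = j) (hZ : ∀ x, x ∈ P ∧ x ≠ p ↔ ∃ j, x ∈ Z j)
    (hZc : ∀ j, IsOpen (P \ Z j)) (hrep : ∀ j, Rep (Z j)) : Rep (W ∪ P) := by
  classical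
  have hZopen : ∀ j, IsOpen (Z j) := fun j => rep_isOpen (hrep j)
  choose S hS f hT hray hinj hsurj hopen using hrep
  letI ord : PartialOrder (Att T' (Σ j, S j)) := attOrder R₀ hR₀.1
  have le_bb : ∀ a b : T', (Att.base a : Att T' (Σ j, S j)) ≤ Att.base b ↔ a ≤ b :=
    fun a b => Iff.rfl
  have le_bu : ∀ (a : T') (b : Σ j, S j), (Att.base a : Att T' (Σ j, S j)) ≤ Att.up b ↔ a ∈ R₀ :=
    fun a b => Iff.rfl
  have le_ub : ∀ (a : Σ j, S j) (b : T'), ¬ (Att.up a : Att T' (Σ j, S j)) ≤ Att.base b :=
    fun a b h => h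
  have le_uu : ∀ a b : Σ j, S j, (Att.up a : Att T' (Σ j, S j)) ≤ Att.up b ↔ a ≤ b :=
    fun a b => Iff.rfl
  have lt_bb : ∀ a b : T', (Att.base a : Att T' (Σ j, S j)) < Att.base b ↔ a < b := by
    intro a b
    rw [lt_iff_le_not_ge, lt_iff_le_not_ge, le_bb, le_bb]
  have lt_bu : ∀ (a : T') (b : Σ j, S j), (Att.base a : Att T' (Σ j, S j)) < Att.up b ↔ a ∈ R₀ := by
    intro a b
    rw [lt_iff_le_not_ge, le_bu]
    exact ⟨fun h => h.1, fun h => ⟨h, le_ub b a⟩⟩
  have lt_uu : ∀ a b : Σ j, S j, (Att.up a : Att T' (Σ j, S j)) < Att.up b ↔ a < b := by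
    intro a b
    rw [lt_iff_le_not_ge, lt_iff_le_not_ge, le_uu, le_uu]
  have hwfS : WellFounded ((· < ·) : (Σ j, S j) → (Σ j, S j) → Prop) := sigma_wf S hT
  have hwf : WellFounded ((· < ·) : Att T' (Σ j, S j) → Att T' (Σ j, S j) → Prop) := by
    have hb : ∀ a : T', Acc ((· < ·) : Att T' (Σ j, S j) → Att T' (Σ j, S j) → Prop)
        (Att.base a) := by
      intro a
      induction a using hT'.wf.induction with
      | _ a ih =>
        refine Acc.intro _ (fun y hy => ?_)
        cases y with
        | base b => exact ih b ((lt_bb b a).mp hy)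
        | up b => exact absurd (le_of_lt hy) (le_ub b a)
    have hu : ∀ a : Σ j, S j, Acc ((· < ·) : Att T' (Σ j, S j) → Att T' (Σ j, S j) → Prop)
        (Att.up a) := by
      intro a
      induction a using hwfS.induction with
      | _ a ih =>
        refine Acc.intro _ (fun y hy => ?_)
        cases y with
        | base b => exact hb b
        | up b => exact ih b ((lt_uu b a).mp hy)
    refine ⟨fun a => ?_⟩
    cases a with
    | base a => exact hb a
    | up a => exact hu a
  have htree : IsOrderTree (Att T' (Σ j, S j)) := by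
    obtain ⟨r, hr⟩ := hT'.exists_root
    have hrR : r ∈ R₀ := by
      obtain ⟨z, hz⟩ := hR₀ne
      exact hR₀.1 (hr z) hz
    refine isOrderTree_of' ⟨Att.base r, ?_⟩ hwf ?_
    · intro t
      cases t with
      | base a => exact hr a
      | up a => exact hrR
    · intro t x y hx hy
      cases t with
      | base t =>
        cases x with
        | up x => exact absurd hx (le_ub x t)
        | base x =>
          cases y with
          | up y => exact absurd hy (le_ub y t)
          | base y => exact hT'.comp (t := t) hx hy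
      | up t =>
        cases x with
        | base x =>
          cases y with
          | base y =>
            rcases hR₀.2.1.total ((le_bu x t).mp hx) ((le_bu y t).mp hy) with h | h
            · exact Or.inl h
            · exact Or.inr h
          | up y => exact Or.inl ((le_bu x y).mpr ((le_bu x t).mp hx))
        | up x =>
          cases y with
          | base y => exact Or.inr ((le_bu y x).mpr ((le_bu y t).mp hy))
          | up y =>
            have hx' := (le_uu x t).mp hx
            have hy' := (le_uu y t).mp hy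
            obtain ⟨i, a⟩ := x
            obtain ⟨j, b⟩ := y
            obtain ⟨k, c⟩ := t
            obtain ⟨h1, hx''⟩ := Sigma.le_def.mp hx'
            obtain ⟨h2, hy''⟩ := Sigma.le_def.mp hy'
            simp only at h1 h2
            subst h1; subst h2
            rcases (hT _).comp hx'' hy'' with h | h
            · left; exact (le_uu _ _).mpr (Sigma.mk_le_mk_iff.mpr h)
            · right; exact (le_uu _ _).mpr (Sigma.mk_le_mk_iff.mpr h)
  -- the map
  let F : A → Set (Att T' (Σ j, S j)) := fun x =>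
    {z | (∃ a, z = Att.base a ∧ ((x ∈ W ∧ a ∈ g x) ∨ (x ∈ P ∧ a ∈ R₀))) ∨
      ∃ (j : J) (s : S j), x ∈ Z j ∧ s ∈ f j x ∧ z = Att.up ⟨j, s⟩}
  have hmb : ∀ (a : T') (x : A), (Att.base a : Att T' (Σ j, S j)) ∈ F x ↔
      ((x ∈ W ∧ a ∈ g x) ∨ (x ∈ P ∧ a ∈ R₀)) := by
    intro a x
    constructor
    · rintro (⟨b, hb, h⟩ | ⟨j, s, _, _, h⟩)
      · cases hb; exact h
      · cases h
    · intro h; exact Or.inl ⟨a, rfl, h⟩
  have hmu : ∀ (j : J) (s : S j) (x : A), (Att.up ⟨j, s⟩ : Att T' (Σ j, S j)) ∈ F x ↔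
      x ∈ Z j ∧ s ∈ f j x := by
    intro j s x
    constructor
    · rintro (⟨b, hb, h⟩ | ⟨j', s', h1, h2, h⟩)
      · cases hb
      · cases h; exact ⟨h1, h2⟩
    · rintro ⟨h1, h2⟩; exact Or.inr ⟨j, s, h1, h2, rfl⟩
  have hZP : ∀ j x, x ∈ Z j → x ∈ P ∧ x ≠ p := fun j x h => (hZ x).mpr ⟨j, h⟩
  refine ⟨Att T' (Σ j, S j), ord, F, htree, ?_, ?_, ?_, ?_⟩
  · intro x hx
    -- case distinction
    by_cases hxW : x ∈ W
    · have hxP := hWP x hxW
      obtain ⟨h1, h2, _⟩ := hg1 x hxW
      have hb : ∀ a, (Att.base a : Att T' (Σ j, S j)) ∈ F x ↔ a ∈ g x := by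
        intro a
        rw [hmb]
        exact ⟨fun h => h.elim (fun h => h.2) (fun h => absurd h.1 hxP), fun h => Or.inl ⟨hxW, h⟩⟩
      have hu : ∀ b, (Att.up b : Att T' (Σ j, S j)) ∉ F x := by
        rintro ⟨j, s⟩ h
        exact hxP (hZP j x ((hmu j s x).mp h).1).1
      refine ⟨⟨?_, ?_, ?_⟩, ?_⟩
      · intro a b hba ha
        cases a with
        | up a => exact absurd ha (hu a)
        | base a =>
          cases b with
          | up b => exact absurd hba (le_ub b a)
          | base b => exact (hb b).mpr (h1.1 ((le_bb b a).mp hba) ((hb a).mp ha))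
      · intro a ha b hb' _
        cases a with
        | up a => exact absurd ha (hu a)
        | base a =>
          cases b with
          | up b => exact absurd hb' (hu b)
          | base b => exact h1.2.1.total ((hb a).mp ha) ((hb b).mp hb')
      · intro a ha
        cases a with
        | up a => exact absurd ha (hu a)
        | base a =>
          obtain ⟨c, hc, hlt⟩ := h1.2.2 a ((hb a).mp ha)
          exact ⟨Att.base c, (hb c).mpr hc, (lt_bb a c).mpr hlt⟩
      · obtain ⟨z, hz⟩ := h2
        exact ⟨Att.base z, (hb z).mpr hz⟩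
    · have hxP : x ∈ P := hx.resolve_left hxW
      have hb : ∀ a, (Att.base a : Att T' (Σ j, S j)) ∈ F x ↔ a ∈ R₀ := by
        intro a
        rw [hmb]
        exact ⟨fun h => h.elim (fun h => absurd h.1 hxW) (fun h => h.2), fun h => Or.inr ⟨hxP, h⟩⟩
      refine ⟨⟨?_, ?_, ?_⟩, ?_⟩
      · intro a b hba ha
        cases a with
        | base a =>
          cases b with
          | up b => exact absurd hba (le_ub b a)
          | base b => exact (hb b).mpr (hR₀.1 ((le_bb b a).mp hba) ((hb a).mp ha))
        | up a =>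
          cases b with
          | base b => exact (hb b).mpr ((le_bu b a).mp hba)
          | up b =>
            have hba' := (le_uu b a).mp hba
            obtain ⟨i, a⟩ := a
            obtain ⟨j, b⟩ := b
            obtain ⟨h1, h2⟩ := Sigma.le_def.mp hba'
            simp only at h1
            subst h1
            obtain ⟨h3, h4⟩ := (hmu _ _ _).mp ha
            exact (hmu _ _ _).mpr ⟨h3, (hray _ x h3).1.1 h2 h4⟩
      · intro a ha b hb' _
        cases a with
        | base a =>
          cases b with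
          | base b => exact hR₀.2.1.total ((hb a).mp ha) ((hb b).mp hb')
          | up b => exact Or.inl ((le_bu a b).mpr ((hb a).mp ha))
        | up a =>
          cases b with
          | base b => exact Or.inr ((le_bu b a).mpr ((hb b).mp hb'))
          | up b =>
            obtain ⟨i, a⟩ := a
            obtain ⟨j, b⟩ := b
            obtain ⟨h3, h4⟩ := (hmu _ _ _).mp ha
            obtain ⟨h5, h6⟩ := (hmu _ _ _).mp hb'
            obtain rfl := hdisj i j x h3 h5
            rcases (hray _ x h3).1.2.1.total h4 h6 with h | h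
            · left; exact (le_uu _ _).mpr (Sigma.mk_le_mk_iff.mpr h)
            · right; exact (le_uu _ _).mpr (Sigma.mk_le_mk_iff.mpr h)
      · intro a ha
        cases a with
        | base a =>
          obtain ⟨c, hc, hlt⟩ := hR₀.2.2 a ((hb a).mp ha)
          exact ⟨Att.base c, (hb c).mpr hc, (lt_bb a c).mpr hlt⟩
        | up a =>
          obtain ⟨i, a⟩ := a
          obtain ⟨h3, h4⟩ := (hmu _ _ _).mp ha
          obtain ⟨s', hs', hlt⟩ := (hray _ x h3).1.2.2 a h4
          exact ⟨Att.up ⟨i, s'⟩, (hmu i s' x).mpr ⟨h3, hs'⟩,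
            (lt_uu _ _).mpr (Sigma.mk_lt_mk_iff.mpr hlt)⟩
      · obtain ⟨z, hz⟩ := hR₀ne
        exact ⟨Att.base z, (hb z).mpr hz⟩
  · intro x hx y hy hxy
    have hbase : ∀ a : T', ((x ∈ W ∧ a ∈ g x) ∨ (x ∈ P ∧ a ∈ R₀)) ↔
        ((y ∈ W ∧ a ∈ g y) ∨ (y ∈ P ∧ a ∈ R₀)) := by
      intro a
      rw [← hmb, ← hmb, hxy]
    have hup : ∀ (j : J) (s : S j), (x ∈ Z j ∧ s ∈ f j x) ↔ (y ∈ Z j ∧ s ∈ f j y) := by
      intro j s
      rw [← hmu, ← hmu, hxy]
    by_cases hxW : x ∈ W
    · have hxP := hWP x hxW
      by_cases hyW : y ∈ W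
      · have hyP := hWP y hyW
        apply hg2 hxW hyW
        ext a
        constructor
        · intro h
          exact ((hbase a).mp (Or.inl ⟨hxW, h⟩)).elim (fun h => h.2) (fun h => absurd h.1 hyP)
        · intro h
          exact ((hbase a).mpr (Or.inl ⟨hyW, h⟩)).elim (fun h => h.2) (fun h => absurd h.1 hxP)
      · exfalso
        have hyP : y ∈ P := hy.resolve_left hyW
        apply (hg1 x hxW).2.2
        ext a
        constructor
        · intro h
          exact ((hbase a).mp (Or.inl ⟨hxW, h⟩)).elim (fun h => absurd h.1 hyW) (fun h => h.2)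
        · intro h
          exact ((hbase a).mpr (Or.inr ⟨hyP, h⟩)).elim (fun h => h.2) (fun h => absurd h.1 hxP)
    · have hxP : x ∈ P := hx.resolve_left hxW
      by_cases hyW : y ∈ W
      · exfalso
        have hyP := hWP y hyW
        apply (hg1 y hyW).2.2
        ext a
        constructor
        · intro h
          exact ((hbase a).mpr (Or.inl ⟨hyW, h⟩)).elim (fun h => absurd h.1 hxW) (fun h => h.2)
        · intro h
          exact ((hbase a).mp (Or.inr ⟨hxP, h⟩)).elim (fun h => h.2) (fun h => absurd h.1 hyP)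
      · have hyP : y ∈ P := hy.resolve_left hyW
        by_cases hxp : x = p
        · by_cases hyp : y = p
          · rw [hxp, hyp]
          · exfalso
            obtain ⟨j, hj⟩ := (hZ y).mp ⟨hyP, hyp⟩
            obtain ⟨s, hs⟩ := (hray j y hj).2
            have h1 := ((hup j s).mpr ⟨hj, hs⟩).1
            exact (hZP j x h1).2 hxp
        · obtain ⟨j, hj⟩ := (hZ x).mp ⟨hxP, hxp⟩
          obtain ⟨s, hs⟩ := (hray j x hj).2
          have h1 := ((hup j s).mp ⟨hj, hs⟩).1
          apply hinj j hj h1
          ext s'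
          constructor
          · intro h; exact ((hup j s').mp ⟨hj, h⟩).2
          · intro h; exact ((hup j s').mpr ⟨h1, h⟩).2
  · intro R hR hne
    by_cases hup : ∃ b, (Att.up b : Att T' (Σ j, S j)) ∈ R
    · obtain ⟨⟨j, s⟩, hjs⟩ := hup
      let Rj : Set (S j) := {s' | (Att.up ⟨j, s'⟩ : Att T' (Σ j, S j)) ∈ R}
      have hRj : IsRay Rj := by
        refine ⟨?_, ?_, ?_⟩
        · intro a b hba ha
          exact hR.1 ((le_uu _ _).mpr (Sigma.mk_le_mk_iff.mpr hba)) ha
        · intro a ha b hb _
          rcases hR.2.1.total ha hb with h | h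
          · left; exact Sigma.mk_le_mk_iff.mp ((le_uu _ _).mp h)
          · right; exact Sigma.mk_le_mk_iff.mp ((le_uu _ _).mp h)
        · intro a ha
          obtain ⟨z, hz, hlt⟩ := hR.2.2 _ ha
          cases z with
          | base z => exact absurd (le_of_lt hlt) (le_ub _ z)
          | up z =>
            obtain ⟨i, b⟩ := z
            obtain ⟨h1, h2⟩ := Sigma.lt_def.mp ((lt_uu _ _).mp hlt)
            simp only at h1
            subst h1
            exact ⟨b, hz, h2⟩
      obtain ⟨x, hxj, hfx⟩ := hsurj j Rj hRj ⟨s, hjs⟩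
      have hxP := (hZP j x hxj).1
      refine ⟨x, Or.inr hxP, ?_⟩
      have hxW : x ∉ W := fun h => hWP x h hxP
      ext z
      cases z with
      | base a =>
        rw [hmb]
        constructor
        · rintro (⟨h, _⟩ | ⟨_, h⟩)
          · exact absurd h hxW
          · exact hR.1 ((le_bu a ⟨j, s⟩).mpr h) hjs
        · intro ha
          right
          refine ⟨hxP, ?_⟩
          rcases hR.2.1.total ha hjs with h | h
          · exact (le_bu a _).mp h
          · exact absurd h (le_ub _ a)
      | up b =>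
        obtain ⟨i, b⟩ := b
        rw [hmu]
        constructor
        · rintro ⟨h1, h2⟩
          obtain rfl := hdisj j i x hxj h1
          rw [hfx] at h2
          exact h2
        · intro hb
          have hij : j = i := by
            rcases hR.2.1.total hjs hb with h | h
            · exact (Sigma.le_def.mp ((le_uu _ _).mp h)).1
            · exact (Sigma.le_def.mp ((le_uu _ _).mp h)).1.symm
          subst hij
          refine ⟨hxj, ?_⟩
          rw [hfx]
          exact hb
    · let Rb : Set T' := {a | (Att.base a : Att T' (Σ j, S j)) ∈ R}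
      have hRb : IsRay Rb := by
        refine ⟨?_, ?_, ?_⟩
        · intro a b hba ha
          exact hR.1 ((le_bb _ _).mpr hba) ha
        · intro a ha b hb _
          exact hR.2.1.total ha hb
        · intro a ha
          obtain ⟨z, hz, hlt⟩ := hR.2.2 _ ha
          cases z with
          | base z => exact ⟨z, hz, (lt_bb _ _).mp hlt⟩
          | up z => exact absurd ⟨z, hz⟩ hup
      have hRbne : Rb.Nonempty := by
        obtain ⟨z, hz⟩ := hne
        cases z with
        | base z => exact ⟨z, hz⟩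
        | up z => exact absurd ⟨z, hz⟩ hup
      by_cases heq : Rb = R₀
      · refine ⟨p, Or.inr hp, ?_⟩
        have hpW : p ∉ W := fun h => hWP p h hp
        ext z
        cases z with
        | base a =>
          rw [hmb]
          have : a ∈ Rb ↔ a ∈ R₀ := by rw [heq]
          constructor
          · rintro (⟨h, _⟩ | ⟨_, h⟩)
            · exact absurd h hpW
            · exact this.mpr h
          · intro ha
            exact Or.inr ⟨hp, this.mp ha⟩
        | up b =>
          obtain ⟨i, b⟩ := b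
          rw [hmu]
          exact ⟨fun h => absurd rfl (hZP i p h.1).2, fun h => absurd ⟨_, h⟩ hup⟩
      · obtain ⟨x, hxW, hgx⟩ := hg3 Rb hRb hRbne heq
        refine ⟨x, Or.inl hxW, ?_⟩
        have hxP := hWP x hxW
        ext z
        cases z with
        | base a =>
          rw [hmb]
          constructor
          · rintro (⟨_, h⟩ | ⟨h, _⟩)
            · rw [hgx] at h; exact h
            · exact absurd h hxP
          · intro ha
            left
            refine ⟨hxW, ?_⟩
            rw [hgx]; exact ha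
        | up b =>
          obtain ⟨i, b⟩ := b
          rw [hmu]
          exact ⟨fun h => absurd (hZP i x h.1).1 hxP, fun h => absurd ⟨_, h⟩ hup⟩
  · intro z
    cases z with
    | base a =>
      by_cases ha : a ∈ R₀
      · constructor
        · convert (hg4 a).1.union hP using 1
          ext x
          constructor
          · rintro ⟨_, h⟩
            rcases (hmb a x).mp h with h | h
            · exact Or.inl h
            · exact Or.inr h.1
          · rintro (h | h)
            · exact ⟨Or.inl h.1, (hmb a x).mpr (Or.inl h)⟩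
            · exact ⟨Or.inr h, (hmb a x).mpr (Or.inr ⟨h, ha⟩)⟩
        · convert (hg4 a).2 using 1
          ext x
          constructor
          · rintro ⟨h1, h2⟩
            rcases h1 with h1 | h1
            · exact ⟨h1, fun h => h2 ((hmb a x).mpr (Or.inl ⟨h1, h⟩))⟩
            · exact absurd ((hmb a x).mpr (Or.inr ⟨h1, ha⟩)) h2
          · rintro ⟨h1, h2⟩
            refine ⟨Or.inl h1, fun h => ?_⟩
            rcases (hmb a x).mp h with h | h
            · exact h2 h.2
            · exact hWP x h1 h.1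
      · constructor
        · convert (hg4 a).1 using 1
          ext x
          constructor
          · rintro ⟨_, h⟩
            rcases (hmb a x).mp h with h | h
            · exact h
            · exact absurd h.2 ha
          · intro h
            exact ⟨Or.inl h.1, (hmb a x).mpr (Or.inl h)⟩
        · convert (hg4 a).2.union hP using 1
          ext x
          constructor
          · rintro ⟨h1, h2⟩
            rcases h1 with h1 | h1
            · exact Or.inl ⟨h1, fun h => h2 ((hmb a x).mpr (Or.inl ⟨h1, h⟩))⟩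
            · exact Or.inr h1
          · rintro (h | h)
            · refine ⟨Or.inl h.1, fun h3 => ?_⟩
              rcases (hmb a x).mp h3 with h4 | h4
              · exact h.2 h4.2
              · exact ha h4.2
            · refine ⟨Or.inr h, fun h3 => ?_⟩
              rcases (hmb a x).mp h3 with h4 | h4
              · exact hWP x h4.1 h
              · exact ha h4.2
    | up b =>
      obtain ⟨j, s⟩ := b
      constructor
      · convert (hopen j s).1 using 1
        ext x
        constructor
        · rintro ⟨_, h⟩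
          exact (hmu j s x).mp h
        · intro h
          exact ⟨Or.inr (hZP j x h.1).1, (hmu j s x).mpr h⟩
      · convert ((hopen j s).2.union (hZc j)).union hW using 1
        ext x
        constructor
        · rintro ⟨h1, h2⟩
          rcases h1 with h1 | h1
          · exact Or.inr h1
          · by_cases hxj : x ∈ Z j
            · exact Or.inl (Or.inl ⟨hxj, fun h => h2 ((hmu j s x).mpr ⟨hxj, h⟩)⟩)
            · exact Or.inl (Or.inr ⟨h1, hxj⟩)
        · rintro ((h | h) | h)
          · exact ⟨Or.inr (hZP j x h.1).1, fun h3 => h.2 ((hmu j s x).mp h3).2⟩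
          · exact ⟨Or.inr h.1, fun h3 => h.2 ((hmu j s x).mp h3).1⟩
          · exact ⟨Or.inl h, fun h3 => hWP x h (hZP j x ((hmu j s x).mp h3).1).1⟩

end sums

end Pool.Agent.V11222
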