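import Pool.Agent.V11222.QuasiRay

/-!
Open subspaces of ray spaces are quasi-ray spaces, second part.
-/

namespace Pool.Agent.V11222

open Set Topology

universe u

variable {T : Type u} [PartialOrder T]

/-- rays through `s` that do not contain the ray `R` -/
def OmegaSet (s : T) (R : Set T) : Set (NonemptyRaySpace T) :=
  {ρ | s ∈ ρ.carrier ∧ ¬ R ⊆ ρ.carrier}

/-- a piece between two nodes -/
lemma rep_piece (hT : IsOrderTree T) {s t : T} (hst : s < t) :
    Rep {ρ : NonemptyRaySpace T | s ∈ ρ.carrier ∧ t ∉ ρ.carrier} := by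
  have heq : {ρ : NonemptyRaySpace T | s ∈ ρ.carrier ∧ t ∉ ρ.carrier} =
      {ρ : NonemptyRaySpace T | s ∈ ρ.carrier ∧ ρ.carrier ⊆ {x | ¬ t ≤ x}} := by
    ext ρ
    constructor
    · rintro ⟨h1, h2⟩
      exact ⟨h1, fun x hx hcon => h2 (ρ.isRay.1 hcon hx)⟩
    · rintro ⟨h1, h2⟩
      exact ⟨h1, fun h => h2 h (le_refl t)⟩
  have hopen : IsOpen {ρ : NonemptyRaySpace T | s ∈ ρ.carrier ∧ t ∉ ρ.carrier} :=
    (isOpen_cone s).inter (isClosed_cone t).isOpen_compl
  rw [heq] at hopen ⊢
  exact rep_cone hT s _ (fun a b hba ha hcon => ha (le_trans hcon hba))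
    (fun h => lt_irrefl s (lt_of_lt_of_le hst h)) hopen

lemma rep_coneSet (hT : IsOrderTree T) (s : T) :
    Rep {ρ : NonemptyRaySpace T | s ∈ ρ.carrier} := by
  have heq : {ρ : NonemptyRaySpace T | s ∈ ρ.carrier} =
      {ρ : NonemptyRaySpace T | s ∈ ρ.carrier ∧ ρ.carrier ⊆ univ} := by
    ext ρ
    exact ⟨fun h => ⟨h, subset_univ _⟩, fun h => h.1⟩
  have hopen : IsOpen {ρ : NonemptyRaySpace T | s ∈ ρ.carrier} := isOpen_cone s
  rw [heq] at hopen ⊢
  exact rep_cone hT s _ (fun a b _ _ => mem_univ _) (mem_univ _) hopen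

/-- The key step: all rays through `s` that do not contain a given ray `R`. -/
theorem rep_omega (hT : IsOrderTree T) (R : Set T) (hR : IsRay R) (s : T) (hs : s ∈ R) :
    Rep (OmegaSet s R) := by
  classical
  have hstep : ∀ x : R, ∃ y : R, (x : T) < y := by
    intro x
    obtain ⟨y, hy, hxy⟩ := hR.2.2 x x.2
    exact ⟨⟨y, hy⟩, hxy⟩
  choose nx hnx using hstep
  let x : ℕ → T := fun n => (nx^[n] ⟨s, hs⟩ : R)
  have hxR : ∀ n, x n ∈ R := fun n => (nx^[n] ⟨s, hs⟩ : R).2
  have hx0 : x 0 = s := rfl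
  have hxs : ∀ n, x n < x (n + 1) := by
    intro n
    have h1 : (nx^[n + 1] ⟨s, hs⟩ : R) = nx (nx^[n] ⟨s, hs⟩) :=
      Function.iterate_succ_apply' nx n ⟨s, hs⟩
    change ((nx^[n] ⟨s, hs⟩ : R) : T) < (nx^[n + 1] ⟨s, hs⟩ : R)
    rw [h1]
    exact hnx _
  have hxm : StrictMono x := strictMono_nat_of_lt_succ hxs
  -- pieces
  have hpieces : ∀ n, Rep {ρ : NonemptyRaySpace T | x n ∈ ρ.carrier ∧ x (n + 1) ∉ ρ.carrier} :=
    fun n => rep_piece hT (hxs n)
  have hfind : ∀ ρ : NonemptyRaySpace T, s ∈ ρ.carrier → (∃ n, x n ∉ ρ.carrier) →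
      ∃ n, x n ∈ ρ.carrier ∧ x (n + 1) ∉ ρ.carrier := by
    intro ρ hρ hex
    have h0 : Nat.find hex ≠ 0 := by
      intro h
      have := Nat.find_spec hex
      rw [h] at this
      exact this hρ
    obtain ⟨m, hm⟩ := Nat.exists_eq_succ_of_ne_zero h0
    refine ⟨m, ?_, ?_⟩
    · by_contra hcon
      have := Nat.find_min' hex hcon
      omega
    · have := Nat.find_spec hex
      rw [hm] at this
      exact this
  have huniq : ∀ (ρ : NonemptyRaySpace T) (n m : ℕ),
      (x n ∈ ρ.carrier ∧ x (n + 1) ∉ ρ.carrier) → (x m ∈ ρ.carrier ∧ x (m + 1) ∉ ρ.carrier) →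
      n = m := by
    intro ρ n m hn hm
    rcases lt_trichotomy n m with h | h | h
    · exact absurd (ρ.isRay.1 (hxm.monotone (show n + 1 ≤ m from h)) hm.1) hn.2
    · exact h
    · exact absurd (ρ.isRay.1 (hxm.monotone (show m + 1 ≤ n from h)) hn.1) hm.2
  let p : Set T := {t | ∃ n, t ≤ x n}
  have hpR : p ⊆ R := by
    rintro t ⟨n, hn⟩
    exact hR.1 hn (hxR n)
  have hpray : IsRay p := by
    refine ⟨?_, ?_, ?_⟩
    · rintro a b hba ⟨n, hn⟩
      exact ⟨n, le_trans hba hn⟩
    · intro a ha b hb _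
      exact hR.2.1.total (hpR ha) (hpR hb)
    · rintro a ⟨n, hn⟩
      exact ⟨x (n + 1), ⟨n + 1, le_refl _⟩, lt_of_le_of_lt hn (hxs n)⟩
  have hxp : ∀ n, x n ∈ p := fun n => ⟨n, le_refl _⟩
  have hpsub : ∀ ρ : NonemptyRaySpace T, (∀ n, x n ∈ ρ.carrier) → p ⊆ ρ.carrier := by
    rintro ρ h t ⟨n, hn⟩
    exact ρ.isRay.1 hn (h n)
  by_cases hpeq : p = R
  · -- countable cofinality witnessed by `x`
    have hunion : OmegaSet s R = ⋃ n : ULift.{u} ℕ,
        {ρ : NonemptyRaySpace T | x n.down ∈ ρ.carrier ∧ x (n.down + 1) ∉ ρ.carrier} := by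
      ext ρ
      constructor
      · rintro ⟨h1, h2⟩
        have hex : ∃ n, x n ∉ ρ.carrier := by
          by_contra hcon
          push Not at hcon
          apply h2
          rw [← hpeq]
          exact hpsub ρ hcon
        obtain ⟨n, hn⟩ := hfind ρ h1 hex
        exact mem_iUnion.mpr ⟨⟨n⟩, hn⟩
      · intro h
        obtain ⟨⟨n⟩, h1, h2⟩ := mem_iUnion.mp h
        refine ⟨ρ.isRay.1 (hxm.monotone (Nat.zero_le n)) h1, fun hcon => h2 (hcon (hxR _))⟩
    rw [hunion]
    refine rep_iUnion _ ?_ (fun n => hpieces n.down)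
    intro i j ρ hi hj
    have := huniq ρ i.down j.down hi hj
    exact ULift.ext _ _ this
  · obtain ⟨q, hq, hqI⟩ := exists_top hT hpray.1 hR.1 hR.2.1 hpR hpeq
    have hsq : s < q := by
      have : s ∈ Set.Iio q := by rw [hqI]; exact hxp 0
      exact this
    -- the base tree
    let B : Type u := {t : T // q ≤ t ∧ ¬ R ⊆ Set.Iio t}
    have hRB : ∀ t ∈ R, ¬ R ⊆ Set.Iio t := fun t ht hcon => lt_irrefl t (hcon ht)
    have hB : IsOrderTree B := by
      refine isOrderTree_of' ⟨⟨q, le_refl q, hRB q hq⟩, fun t => t.2.1⟩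
        (InvImage.wf (fun x : B => x.1) hT.wf) ?_
      intro t x y hx hy
      exact hT.comp (t := t.1) hx hy
    let R₀ : Set B := {t | t.1 ∈ R}
    have hR₀ : IsRay R₀ := by
      refine ⟨?_, ?_, ?_⟩
      · intro a b hba ha
        exact hR.1 hba ha
      · intro a ha b hb _
        exact hR.2.1.total ha hb
      · intro a ha
        obtain ⟨y, hy, hlt⟩ := hR.2.2 a.1 ha
        exact ⟨⟨y, le_trans a.2.1 (le_of_lt hlt), hRB y hy⟩, hy, hlt⟩
    have hR₀ne : R₀.Nonempty := ⟨⟨q, le_refl q, hRB q hq⟩, hq⟩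
    let W : Set (NonemptyRaySpace T) := {ρ | q ∈ ρ.carrier ∧ ¬ R ⊆ ρ.carrier}
    let P : Set (NonemptyRaySpace T) := {ρ | s ∈ ρ.carrier ∧ q ∉ ρ.carrier}
    have hWopen : IsOpen W := by
      have h1 : W = {ρ : NonemptyRaySpace T | q ∈ ρ.carrier} ∩
          ⋃ r ∈ R, {ρ : NonemptyRaySpace T | r ∈ ρ.carrier}ᶜ := by
        ext ρ
        constructor
        · rintro ⟨h1, h2⟩
          rw [Set.not_subset] at h2
          obtain ⟨r, hr, hrρ⟩ := h2
          refine ⟨h1, ?_⟩
          simp only [mem_iUnion, exists_prop]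
          exact ⟨r, hr, hrρ⟩
        · rintro ⟨h1, h2⟩
          simp only [mem_iUnion, exists_prop] at h2
          obtain ⟨r, hr, hrρ⟩ := h2
          exact ⟨h1, fun hcon => hrρ (hcon hr)⟩
      rw [h1]
      exact (isOpen_cone q).inter (isOpen_biUnion (fun r _ => (isClosed_cone r).isOpen_compl))
    have hPopen : IsOpen P := (isOpen_cone s).inter (isClosed_cone q).isOpen_compl
    let g : NonemptyRaySpace T → Set B := fun ρ => {t | t.1 ∈ ρ.carrier}
    have hOm : OmegaSet s R = W ∪ P := by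
      ext ρ
      constructor
      · rintro ⟨h1, h2⟩
        by_cases h : q ∈ ρ.carrier
        · exact Or.inl ⟨h, h2⟩
        · exact Or.inr ⟨h1, h⟩
      · rintro (⟨h1, h2⟩ | ⟨h1, h2⟩)
        · exact ⟨ρ.isRay.1 (le_of_lt hsq) h1, h2⟩
        · exact ⟨h1, fun hcon => h2 (hcon hq)⟩
    rw [hOm]
    -- elements of rays in `W` lie in the base tree
    have hWB : ∀ ρ ∈ W, ∀ t ∈ ρ.carrier, ¬ R ⊆ Set.Iio t := by
      rintro ρ ⟨_, h2⟩ t ht hcon
      exact h2 (fun r hr => ρ.isRay.1 (le_of_lt (hcon hr)) ht)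
    have hlow : ∀ ρ ρ' : NonemptyRaySpace T, ρ ∈ W → q ∈ ρ'.carrier →
        (∀ t : B, t.1 ∈ ρ.carrier → t.1 ∈ ρ'.carrier) → ρ.carrier ⊆ ρ'.carrier := by
      intro ρ ρ' hρ hq' h t ht
      rcases ρ.isRay.2.1.total hρ.1 ht with h1 | h1
      · exact h ⟨t, h1, hWB ρ hρ t ht⟩ ht
      · exact ρ'.isRay.1 h1 hq'
    let pp : NonemptyRaySpace T := ⟨p, hpray, ⟨x 0, hxp 0⟩⟩
    have hqp : q ∉ p := by
      intro h
      rw [← hqI] at h
      exact lt_irrefl q h
    let J : Type u := ULift.{u} ℕ ⊕ {e : T // Set.Iio e = p ∧ e ≠ q}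
    let Z : J → Set (NonemptyRaySpace T) := fun j => match j with
      | Sum.inl n => {ρ | x n.down ∈ ρ.carrier ∧ x (n.down + 1) ∉ ρ.carrier}
      | Sum.inr e => {ρ | e.1 ∈ ρ.carrier}
    refine rep_attach hB R₀ hR₀ hR₀ne W P hWopen hPopen ?_ g ?_ ?_ ?_ ?_ pp ?_ Z ?_ ?_ ?_ ?_
    · rintro ρ ⟨h1, _⟩ ⟨_, h2⟩
      exact h2 h1
    · intro ρ hρ
      refine ⟨⟨?_, ?_, ?_⟩, ⟨⟨q, le_refl q, hRB q hq⟩, hρ.1⟩, ?_⟩
      · intro a b hba ha
        exact ρ.isRay.1 hba ha
      · intro a ha b hb _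
        exact ρ.isRay.2.1.total ha hb
      · intro a ha
        obtain ⟨y, hy, hlt⟩ := ρ.isRay.2.2 a.1 ha
        exact ⟨⟨y, le_trans a.2.1 (le_of_lt hlt), hWB ρ hρ y hy⟩, hy, hlt⟩
      · intro heq
        apply hρ.2
        intro r hr
        rcases hR.2.1.total hq hr with h | h
        · have h1 : (⟨r, h, hRB r hr⟩ : B) ∈ g ρ := by rw [heq]; exact hr
          exact h1
        · exact ρ.isRay.1 h hρ.1
    · intro ρ hρ ρ' hρ' heq
      apply nonemptyRaySpace_ext
      have h1 : ∀ t : B, t.1 ∈ ρ.carrier ↔ t.1 ∈ ρ'.carrier := by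
        intro t
        have : t ∈ g ρ ↔ t ∈ g ρ' := by rw [heq]
        exact this
      exact Subset.antisymm (hlow ρ ρ' hρ hρ'.1 (fun t ht => (h1 t).mp ht))
        (hlow ρ' ρ hρ' hρ.1 (fun t ht => (h1 t).mpr ht))
    · intro C hC hCne hne
      let D : Set T := {t | ∃ y ∈ C, t ≤ y.1}
      have hD : IsRay D := by
        refine ⟨?_, ?_, ?_⟩
        · rintro a b hba ⟨y, hy, hay⟩
          exact ⟨y, hy, le_trans hba hay⟩
        · rintro a ⟨y, hy, hay⟩ b ⟨z, hz, hbz⟩ _
          rcases hC.2.1.total hy hz with h | h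
          · exact hT.comp (t := z.1) (le_trans hay h) hbz
          · exact hT.comp (t := y.1) hay (le_trans hbz h)
        · rintro a ⟨y, hy, hay⟩
          obtain ⟨z, hz, hlt⟩ := hC.2.2 y hy
          exact ⟨z.1, ⟨z, hz, le_refl _⟩, lt_of_le_of_lt hay hlt⟩
      obtain ⟨z, hz⟩ := hCne
      have hqD : q ∈ D := ⟨z, hz, z.2.1⟩
      have hgD : ∀ t : B, t.1 ∈ D ↔ t ∈ C := by
        intro t
        constructor
        · rintro ⟨y, hy, hty⟩
          exact hC.1 hty hy
        · intro ht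
          exact ⟨t, ht, le_refl _⟩
      refine ⟨⟨D, hD, ⟨q, hqD⟩⟩, ⟨hqD, ?_⟩, ?_⟩
      · intro hRD
        apply hne
        -- show `C = R₀`
        by_contra _
        have hR₀C : R₀ ⊆ C := fun t ht => (hgD t).mp (hRD ht)
        have hex : ∃ y ∈ C, y.1 ∉ R := by
          by_contra hcon
          push Not at hcon
          exact hne (Subset.antisymm (fun y hy => hcon y hy) hR₀C)
        obtain ⟨y, hy, hyR⟩ := hex
        apply y.2.2
        intro r hr
        have hyD : y.1 ∈ D := (hgD y).mpr hy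
        rcases hD.2.1.total (hRD hr) hyD with h | h
        · rcases eq_or_lt_of_le h with h1 | h1
          · exact absurd (h1 ▸ hr) hyR
          · exact h1
        · exact absurd (hR.1 h hr) hyR
      · ext t
        exact hgD t
    · intro t
      exact ⟨hWopen.inter (isOpen_cone t.1), hWopen.inter (isClosed_cone t.1).isOpen_compl⟩
    · exact ⟨hxp 0, hqp⟩
    · intro i j ρ hi hj
      have hconf : ∀ (n : ℕ) (e : T), Set.Iio e = p →
          (x n ∈ ρ.carrier ∧ x (n + 1) ∉ ρ.carrier) → e ∉ ρ.carrier := by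
        intro n e he h1 h2
        apply h1.2
        have h3 : x (n + 1) ∈ Set.Iio e := by rw [he]; exact hxp _
        exact ρ.isRay.1 (le_of_lt h3) h2
      rcases i with i | i
      · rcases j with j | j
        · have := huniq ρ i.down j.down hi hj
          congr 1
          exact ULift.ext _ _ this
        · exact absurd hj (hconf i.down j.1 j.2.1 hi)
      · rcases j with j | j
        · exact absurd hi (hconf j.down i.1 i.2.1 hj)
        · congr 1
          apply Subtype.ext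
          rcases ρ.isRay.2.1.total hi hj with h | h
          · rcases eq_or_lt_of_le h with h1 | h1
            · exact h1
            · exfalso
              have h2 : i.1 ∈ Set.Iio j.1 := h1
              rw [j.2.1] at h2
              exact lt_irrefl i.1 ((Set.ext_iff.mp i.2.1 i.1).mpr h2)
          · rcases eq_or_lt_of_le h with h1 | h1
            · exact h1.symm
            · exfalso
              have h2 : j.1 ∈ Set.Iio i.1 := h1
              rw [i.2.1] at h2
              exact lt_irrefl j.1 ((Set.ext_iff.mp j.2.1 j.1).mpr h2)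
    · intro ρ
      constructor
      · rintro ⟨⟨h1, h2⟩, hne⟩
        by_cases hex : ∃ n, x n ∉ ρ.carrier
        · obtain ⟨n, hn⟩ := hfind ρ h1 hex
          exact ⟨Sum.inl ⟨n⟩, hn⟩
        · push Not at hex
          have hsub := hpsub ρ hex
          have hne' : p ≠ ρ.carrier := fun h => hne (nonemptyRaySpace_ext h.symm)
          obtain ⟨e, he, heI⟩ := exists_top hT hpray.1 ρ.isRay.1 ρ.isRay.2.1 hsub hne'
          exact ⟨Sum.inr ⟨e, heI, fun h => h2 (h ▸ he)⟩, he⟩
      · rintro ⟨j, hj⟩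
        rcases j with j | j
        · refine ⟨⟨ρ.isRay.1 (hxm.monotone (Nat.zero_le j.down)) hj.1, ?_⟩, ?_⟩
          · intro hq'
            apply hj.2
            have h3 : x (j.down + 1) ∈ Set.Iio q := by rw [hqI]; exact hxp _
            exact ρ.isRay.1 (le_of_lt h3) hq'
          · intro h
            apply hj.2
            rw [h]
            exact hxp _
        · have hj' : j.1 ∈ ρ.carrier := hj
          have hpj : ∀ t ∈ p, t < j.1 := by
            intro t ht
            have h2 : t ∈ Set.Iio j.1 := by rw [j.2.1]; exact ht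
            exact h2
          refine ⟨⟨ρ.isRay.1 (le_of_lt (hpj _ (hxp 0))) hj', ?_⟩, ?_⟩
          · intro hq'
            rcases ρ.isRay.2.1.total hj' hq' with h | h
            · rcases eq_or_lt_of_le h with h1 | h1
              · exact j.2.2 h1
              · have h2 : j.1 ∈ Set.Iio q := h1
                rw [hqI] at h2
                exact lt_irrefl j.1 ((Set.ext_iff.mp j.2.1 j.1).mpr h2)
            · rcases eq_or_lt_of_le h with h1 | h1
              · exact j.2.2 h1.symm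
              · have h2 : q ∈ Set.Iio j.1 := h1
                rw [j.2.1, ← hqI] at h2
                exact lt_irrefl q h2
          · intro h
            rw [h] at hj'
            exact lt_irrefl j.1 (hpj j.1 hj')
    · intro j
      rcases j with j | j
      · have h1 : IsClosed (Z (Sum.inl j)) :=
          (isClosed_cone (x j.down)).inter (isOpen_cone (x (j.down + 1))).isClosed_compl
        exact hPopen.sdiff h1
      · exact hPopen.sdiff (isClosed_cone j.1)
    · intro j
      rcases j with j | j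
      · exact hpieces j.down
      · exact rep_coneSet hT j.1

end Pool.Agent.V11222
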