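import Pool.Agent.V11222.QuasiRay2

/-!
Open subspaces of ray spaces are quasi-ray spaces, third part: decomposition of an open set.
-/

namespace Pool.Agent.V11222

open Set Topology

universe u

variable {T : Type u} [PartialOrder T]

/-- the cone above `f` is not contained in `U` -/
def NT (U : Set (NonemptyRaySpace T)) (f : T) : Prop :=
  ∃ ρ : NonemptyRaySpace T, f ∈ ρ.carrier ∧ ρ ∉ U

/-- rays through `s` avoiding the tops of `R` whose cones are not contained in `U` -/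
def Vset (U : Set (NonemptyRaySpace T)) (s : T) (R : Set T) : Set (NonemptyRaySpace T) :=
  {ρ | s ∈ ρ.carrier ∧ ∀ f, Set.Iio f = R → NT U f → f ∉ ρ.carrier}

/-- good pairs -/
def Good (U : Set (NonemptyRaySpace T)) (s : T) (R : Set T) : Prop :=
  IsRay R ∧ s ∈ R ∧ Vset U s R ⊆ U

lemma ntop_finite (hT : IsOrderTree T) {U : Set (NonemptyRaySpace T)} (hU : IsOpen U)
    (R : NonemptyRaySpace T) (hR : R ∈ U) : {f | Set.Iio f = R.carrier ∧ NT U f}.Finite := by
  obtain ⟨h, hh, F, hF, hFa, hRF⟩ := nhd_basis_above R hU hR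
  have hsub : {f | Set.Iio f = R.carrier ∧ NT U f} ⊆
      ⋃ y ∈ F, {f | Set.Iio f = R.carrier ∧ f ≤ y} := by
    rintro f ⟨hf, ρ, hfρ, hρU⟩
    have hhf : h < f := by
      have : h ∈ Set.Iio f := by rw [hf]; exact hh
      exact this
    have hex : ∃ y ∈ F, y ∈ ρ.carrier := by
      by_contra hcon
      push Not at hcon
      exact hρU (hRF ρ (ρ.isRay.1 (le_of_lt hhf) hfρ) hcon)
    obtain ⟨y, hy, hyρ⟩ := hex
    simp only [mem_iUnion, exists_prop]
    refine ⟨y, hy, hf, ?_⟩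
    rcases ρ.isRay.2.1.total hfρ hyρ with h1 | h1
    · exact h1
    · rcases eq_or_lt_of_le h1 with h2 | h2
      · exact le_of_eq h2.symm
      · exfalso
        have h3 : y ∈ R.carrier := by rw [← hf]; exact h2
        exact lt_irrefl y (hFa y hy y h3)
  refine Set.Finite.subset (hF.biUnion (fun y _ => ?_)) hsub
  apply Set.Subsingleton.finite
  rintro f ⟨hf, hfy⟩ f' ⟨hf', hfy'⟩
  rcases hT.comp hfy hfy' with h1 | h1
  · rcases eq_or_lt_of_le h1 with h2 | h2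
    · exact h2
    · exfalso
      have h3 : f ∈ Set.Iio f' := h2
      rw [hf', ← hf] at h3
      exact lt_irrefl f h3
  · rcases eq_or_lt_of_le h1 with h2 | h2
    · exact h2.symm
    · exfalso
      have h3 : f' ∈ Set.Iio f := h2
      rw [hf, ← hf'] at h3
      exact lt_irrefl f' h3

lemma Vset_open (hT : IsOrderTree T) {U : Set (NonemptyRaySpace T)} (hU : IsOpen U) (s : T)
    (R : NonemptyRaySpace T) (hR : R ∈ U) : IsOpen (Vset U s R.carrier) := by
  have h1 : Vset U s R.carrier = {ρ : NonemptyRaySpace T | s ∈ ρ.carrier} ∩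
      ⋂ f ∈ {f | Set.Iio f = R.carrier ∧ NT U f}, {ρ : NonemptyRaySpace T | f ∈ ρ.carrier}ᶜ := by
    ext ρ
    constructor
    · rintro ⟨h1, h2⟩
      refine ⟨h1, ?_⟩
      simp only [mem_iInter]
      rintro f ⟨hf1, hf2⟩
      exact h2 f hf1 hf2
    · rintro ⟨h1, h2⟩
      simp only [mem_iInter] at h2
      exact ⟨h1, fun f hf1 hf2 => h2 f ⟨hf1, hf2⟩⟩
  rw [h1]
  exact (isOpen_cone s).inter ((ntop_finite hT hU R hR).isOpen_biInter
    (fun f _ => (isClosed_cone f).isOpen_compl))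

lemma Good.mem {U : Set (NonemptyRaySpace T)} {s : T} {R : Set T} (h : Good U s R) :
    (⟨R, h.1, ⟨s, h.2.1⟩⟩ : NonemptyRaySpace T) ∈ U := by
  apply h.2.2
  refine ⟨h.2.1, fun f hf _ hfR => ?_⟩
  have h1 : f ∈ R := hfR
  rw [← hf] at h1
  exact lt_irrefl f h1

lemma key1 {U : Set (NonemptyRaySpace T)} {s z : T} {R : Set T} (h : Good U s R) (hsz : s ≤ z)
    (hz : NT U z) : z ∈ R ∨ ∃ f, Set.Iio f = R ∧ NT U f ∧ f ≤ z := by
  by_contra hcon
  push Not at hcon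
  obtain ⟨hzR, hf⟩ := hcon
  obtain ⟨ρ, hzρ, hρU⟩ := hz
  apply hρU
  apply h.2.2
  refine ⟨ρ.isRay.1 hsz hzρ, fun f hfI hfN hfρ => ?_⟩
  rcases ρ.isRay.2.1.total hfρ hzρ with h1 | h1
  · exact hf f hfI hfN h1
  · rcases eq_or_lt_of_le h1 with h2 | h2
    · exact hf f hfI hfN (le_of_eq h2.symm)
    · apply hzR
      rw [← hfI]
      exact h2

/-- in a good ray over a bad node all nodes are bad -/
lemma Good.nt {U : Set (NonemptyRaySpace T)} {s z : T} {R : Set T} (h : Good U s R)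
    (hs : NT U s) (hz : z ∈ R) : NT U z := by
  by_contra hcon
  obtain ⟨ρ, hsρ, hρU⟩ := hs
  apply hρU
  apply h.2.2
  refine ⟨hsρ, fun f hfI hfN _ => ?_⟩
  obtain ⟨σ, hfσ, hσU⟩ := hfN
  apply hcon
  have hzf : z < f := by
    have : z ∈ Set.Iio f := by rw [hfI]; exact hz
    exact this
  exact ⟨σ, σ.isRay.1 (le_of_lt hzf) hfσ, hσU⟩

/-- candidates -/
def Sx (U : Set (NonemptyRaySpace T)) (x : NonemptyRaySpace T) : Set T :=
  {s | s ∈ x.carrier ∧ ∃ R, Good U s R ∧ x ∈ Vset U s R}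

lemma exists_Sx (hT : IsOrderTree T) {U : Set (NonemptyRaySpace T)} (hU : IsOpen U)
    (x : NonemptyRaySpace T) (hx : x ∈ U) : (Sx U x).Nonempty := by
  obtain ⟨h, hh, F, _, hFa, hRF⟩ := nhd_basis_above x hU hx
  have hself : ∀ f, Set.Iio f = x.carrier → f ∉ x.carrier := by
    intro f hf hfx
    rw [← hf] at hfx
    exact lt_irrefl f hfx
  refine ⟨h, hh, x.carrier, ⟨x.isRay, hh, ?_⟩, hh, fun f hf _ => hself f hf⟩
  rintro ρ ⟨hhρ, hρ⟩
  by_cases hex : ∃ y ∈ F, y ∈ ρ.carrier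
  · obtain ⟨y, hy, hyρ⟩ := hex
    have hsub : x.carrier ⊆ ρ.carrier := fun z hz => ρ.isRay.1 (le_of_lt (hFa y hy z hz)) hyρ
    have hne : x.carrier ≠ ρ.carrier := by
      intro heq
      rw [← heq] at hyρ
      exact lt_irrefl y (hFa y hy y hyρ)
    obtain ⟨f, hfρ, hfI⟩ := exists_top hT x.isRay.1 ρ.isRay.1 ρ.isRay.2.1 hsub hne
    by_contra hρU
    exact hρ f hfI ⟨ρ, hfρ, hρU⟩ hfρ
  · push Not at hex
    exact hRF ρ hhρ hex

lemma claimM {U : Set (NonemptyRaySpace T)} {s : T} {R : Set T} (h : Good U s R)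
    {x y : NonemptyRaySpace T} (hx : x ∈ Vset U s R) (hmin : ∀ s', s' < s → s' ∉ Sx U x)
    (hy : y ∈ Vset U s R) : ∀ s', s' < s → s' ∉ Sx U y := by
  rintro s' hs' ⟨hs'y, R', hR', hyR'⟩
  have hs'x : s' ∈ x.carrier := x.isRay.1 (le_of_lt hs') hx.1
  have hxR' : ∃ f', Set.Iio f' = R' ∧ NT U f' ∧ f' ∈ x.carrier := by
    by_contra hcon
    push Not at hcon
    exact hmin s' hs' ⟨hs'x, R', hR', hs'x, hcon⟩
  obtain ⟨f', hf'I, hf'N, hf'x⟩ := hxR'
  have hsf' : s < f' := by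
    rcases x.isRay.2.1.total hx.1 hf'x with h1 | h1
    · rcases eq_or_lt_of_le h1 with h2 | h2
      · exact absurd (h2 ▸ hy.1) (hyR'.2 f' hf'I hf'N)
      · exact h2
    · exact absurd (y.isRay.1 h1 hy.1) (hyR'.2 f' hf'I hf'N)
  have hf'R : f' ∈ R := by
    rcases key1 h (le_of_lt hsf') hf'N with h1 | ⟨f, hfI, hfN, hff'⟩
    · exact h1
    · exact absurd (x.isRay.1 hff' hf'x) (hx.2 f hfI hfN)
  have hsR' : s ∈ R' := by rw [← hf'I]; exact hsf'
  have hgood : Good U s' R := by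
    refine ⟨h.1, h.1.1 (le_of_lt hs') h.2.1, ?_⟩
    rintro ρ ⟨hs'ρ, hρ⟩
    by_cases hρV : ρ ∈ Vset U s' R'
    · exact hR'.2.2 hρV
    · have hex : ∃ f'', Set.Iio f'' = R' ∧ NT U f'' ∧ f'' ∈ ρ.carrier := by
        by_contra hcon
        push Not at hcon
        exact hρV ⟨hs'ρ, hcon⟩
      obtain ⟨f'', hf''I, _, hf''ρ⟩ := hex
      have hsf'' : s < f'' := by
        have : s ∈ Set.Iio f'' := by rw [hf''I]; exact hsR'
        exact this
      exact h.2.2 ⟨ρ.isRay.1 (le_of_lt hsf'') hf''ρ, hρ⟩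
  exact hmin s' hs' ⟨hs'x, R, hgood, hs'x, hx.2⟩

lemma Vset_mono (hT : IsOrderTree T) {U : Set (NonemptyRaySpace T)} {s : T} {R R' : Set T}
    (hs : NT U s) (hR : IsRay R) (hR' : Good U s R') (hsub : R ⊆ R') :
    Vset U s R ⊆ Vset U s R' := by
  rintro ρ ⟨hsρ, hρ⟩
  refine ⟨hsρ, fun f hfI hfN hfρ => ?_⟩
  by_cases heq : R = R'
  · exact hρ f (hfI.trans heq.symm) hfN hfρ
  · obtain ⟨f₀, hf₀R', hf₀I⟩ := exists_top hT hR.1 hR'.1.1 hR'.1.2.1 hsub heq
    apply hρ f₀ hf₀I (hR'.nt hs hf₀R')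
    have h1 : f₀ < f := by
      have : f₀ ∈ Set.Iio f := by rw [hfI]; exact hf₀R'
      exact this
    exact ρ.isRay.1 (le_of_lt h1) hfρ

lemma good_comparable {U : Set (NonemptyRaySpace T)} {s : T} {R R' : Set T}
    (hs : NT U s) (hR : Good U s R) (hR' : Good U s R') : R ⊆ R' ∨ R' ⊆ R := by
  by_cases h : R' ⊆ R
  · exact Or.inr h
  · left
    rw [Set.not_subset] at h
    obtain ⟨z, hzR', hzR⟩ := h
    have hsz : s ≤ z := by
      rcases hR'.1.2.1.total hR'.2.1 hzR' with h1 | h1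
      · exact h1
      · exact absurd (hR.1.1 h1 hR.2.1) hzR
    rcases key1 hR hsz (hR'.nt hs hzR') with h1 | ⟨f, hfI, _, hfz⟩
    · exact absurd h1 hzR
    · intro w hw
      rw [← hfI] at hw
      exact hR'.1.1 (le_trans (le_of_lt hw) hfz) hzR'

/-- the blocks -/
def Bset (U : Set (NonemptyRaySpace T)) (s : T) : Set (NonemptyRaySpace T) :=
  {x | s ∈ Sx U x ∧ ∀ s', s' < s → s' ∉ Sx U x}

lemma Bset_subset {U : Set (NonemptyRaySpace T)} {s : T} : Bset U s ⊆ U := by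
  rintro x ⟨⟨_, R, hR, hxR⟩, _⟩
  exact hR.2.2 hxR

lemma rep_block (hT : IsOrderTree T) {U : Set (NonemptyRaySpace T)} (hU : IsOpen U) (s : T)
    (hne : (Bset U s).Nonempty) : Rep (Bset U s) := by
  obtain ⟨x₀, ⟨hsx₀, R₀, hR₀, hx₀⟩, hmin⟩ := hne
  by_cases hs : NT U s
  · -- all good rays are comparable
    have claim2 : ∀ R, Good U s R → Vset U s R ⊆ Bset U s := by
      intro R hR y hy
      refine ⟨⟨hy.1, R, hR, hy⟩, ?_⟩
      rcases good_comparable hs hR₀ hR with h | h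
      · exact claimM hR (Vset_mono hT hs hR₀.1 hR h hx₀) hmin hy
      · exact claimM hR₀ hx₀ hmin (Vset_mono hT hs hR.1 hR₀ h hy)
    let Rs : Set T := {z | ∃ R, Good U s R ∧ z ∈ R}
    have hRs : IsRay Rs := by
      refine ⟨?_, ?_, ?_⟩
      · rintro a b hba ⟨R, hR, ha⟩
        exact ⟨R, hR, hR.1.1 hba ha⟩
      · rintro a ⟨R, hR, ha⟩ b ⟨R', hR', hb⟩ _
        rcases good_comparable hs hR hR' with h | h
        · exact hR'.1.2.1.total (h ha) hb
        · exact hR.1.2.1.total ha (h hb)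
      · rintro a ⟨R, hR, ha⟩
        obtain ⟨b, hb, hlt⟩ := hR.1.2.2 a ha
        exact ⟨b, ⟨R, hR, hb⟩, hlt⟩
    have hsub : ∀ R, Good U s R → R ⊆ Rs := fun R hR z hz => ⟨R, hR, hz⟩
    have hsRs : s ∈ Rs := ⟨R₀, hR₀, hR₀.2.1⟩
    by_cases hgood : Good U s Rs
    · have heq : Bset U s = Vset U s Rs := by
        apply Subset.antisymm
        · rintro x ⟨⟨_, R, hR, hxR⟩, _⟩
          exact Vset_mono hT hs hR.1 hgood (hsub R hR) hxR
        · exact claim2 Rs hgood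
      have heq2 : Vset U s Rs = {ρ : NonemptyRaySpace T | s ∈ ρ.carrier ∧
          ρ.carrier ⊆ {x | ∀ f, Set.Iio f = Rs → NT U f → ¬ f ≤ x}} := by
        ext ρ
        constructor
        · rintro ⟨h1, h2⟩
          exact ⟨h1, fun x hx f hf1 hf2 hle => h2 f hf1 hf2 (ρ.isRay.1 hle hx)⟩
        · rintro ⟨h1, h2⟩
          exact ⟨h1, fun f hf1 hf2 hfρ => h2 hfρ f hf1 hf2 (le_refl f)⟩
      have hopen : IsOpen (Vset U s Rs) :=
        Vset_open hT hU s (⟨Rs, hRs, ⟨s, hsRs⟩⟩ : NonemptyRaySpace T) hgood.mem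
      rw [heq, heq2]
      rw [heq2] at hopen
      refine rep_cone hT s _ ?_ ?_ hopen
      · intro a b hba ha f hf1 hf2 hle
        exact ha f hf1 hf2 (le_trans hle hba)
      · intro f hf1 _ hle
        have h1 : s ∈ Set.Iio f := by rw [hf1]; exact hsRs
        exact lt_irrefl s (lt_of_lt_of_le h1 hle)
    · have heq : Bset U s = OmegaSet s Rs := by
        apply Subset.antisymm
        · rintro x ⟨⟨_, R, hR, hxR⟩, _⟩
          refine ⟨hxR.1, fun hcon => ?_⟩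
          have hne : R ≠ Rs := fun h => hgood (h ▸ hR)
          obtain ⟨f₀, ⟨R', hR', hf₀⟩, hf₀I⟩ := exists_top hT hR.1.1 hRs.1 hRs.2.1 (hsub R hR) hne
          exact hxR.2 f₀ hf₀I (hR'.nt hs hf₀) (hcon ⟨R', hR', hf₀⟩)
        · rintro ρ ⟨h1, h2⟩
          rw [Set.not_subset] at h2
          obtain ⟨z, ⟨R, hR, hz⟩, hzρ⟩ := h2
          apply claim2 R hR
          refine ⟨h1, fun f hfI _ hfρ => ?_⟩
          have h3 : z < f := by
            have : z ∈ Set.Iio f := by rw [hfI]; exact hz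
            exact this
          exact hzρ (ρ.isRay.1 (le_of_lt h3) hfρ)
      rw [heq]
      exact rep_omega hT Rs hRs s hsRs
  · have hall : ∀ ρ : NonemptyRaySpace T, s ∈ ρ.carrier → ρ ∈ U := by
      intro ρ hρ
      by_contra hcon
      exact hs ⟨ρ, hρ, hcon⟩
    have hV : ∀ ρ : NonemptyRaySpace T, s ∈ ρ.carrier → ρ ∈ Vset U s R₀ := by
      intro ρ hρ
      refine ⟨hρ, ?_⟩
      rintro f hfI ⟨σ, hfσ, hσU⟩ _
      apply hσU
      apply hall
      have h3 : s < f := by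
        have : s ∈ Set.Iio f := by rw [hfI]; exact hR₀.2.1
        exact this
      exact σ.isRay.1 (le_of_lt h3) hfσ
    have heq : Bset U s = {ρ : NonemptyRaySpace T | s ∈ ρ.carrier} := by
      apply Subset.antisymm
      · rintro x ⟨⟨h1, _⟩, _⟩
        exact h1
      · intro ρ hρ
        exact ⟨⟨hρ, R₀, hR₀, hV ρ hρ⟩, claimM hR₀ hx₀ hmin (hV ρ hρ)⟩
    rw [heq]
    exact rep_coneSet hT s

/-- Every open set of nonempty rays is represented by a tree. -/
theorem rep_of_isOpen (hT : IsOrderTree T) {U : Set (NonemptyRaySpace T)} (hU : IsOpen U) :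
    Rep U := by
  have heq : U = ⋃ s : {s : T // (Bset U s).Nonempty}, Bset U s.1 := by
    apply Subset.antisymm
    · intro x hx
      obtain ⟨s, hs, hmin⟩ := hT.wf.has_min _ (exists_Sx hT hU x hx)
      have hxB : x ∈ Bset U s := ⟨hs, fun s' hs' hcon => hmin s' hcon hs'⟩
      exact mem_iUnion.mpr ⟨⟨s, ⟨x, hxB⟩⟩, hxB⟩
    · intro x hx
      obtain ⟨s, hs⟩ := mem_iUnion.mp hx
      exact Bset_subset hs
  rw [heq]
  refine rep_iUnion _ ?_ (fun s => ?_)
  · intro i j x hi hj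
    apply Subtype.ext
    rcases x.isRay.2.1.total hi.1.1 hj.1.1 with h | h
    · rcases eq_or_lt_of_le h with h1 | h1
      · exact h1
      · exact absurd hi.1 (hj.2 _ h1)
    · rcases eq_or_lt_of_le h with h1 | h1
      · exact h1.symm
      · exact absurd hj.1 (hi.2 _ h1)
  · have h1 : Bset (⋃ s : {s : T // (Bset U s).Nonempty}, Bset U s.1) s.1 = Bset U s.1 := by
      rw [← heq]
    exact rep_block hT hU s.1 s.2

end Pool.Agent.V11222
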