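import Mathlib

/-!
Order trees, special trees, rays and ray spaces; rays of graphs, ends and end spaces.
-/

namespace Pool.Agent.V11222

open Set Topology

universe u v

/-- An order tree: a partial order with a least element (the root) in which, for every node `t`,
the set of all nodes `s ≤ t` is well-ordered. -/
structure IsOrderTree (T : Type u) [PartialOrder T] : Prop where
  exists_root : ∃ r : T, ∀ t : T, r ≤ t
  wellOrdered : ∀ t : T, IsWellOrder (Set.Iic t) (· < ·)

/-- An order tree is special if it is a union of countably many antichains. -/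
def IsSpecial (T : Type u) [PartialOrder T] : Prop :=
  ∃ A : ℕ → Set T, (∀ n, IsAntichain (· ≤ ·) (A n)) ∧ (⋃ n, A n) = Set.univ

/-- A ray of `T`: a downward closed chain without a maximal element. -/
def IsRay {T : Type u} [PartialOrder T] (R : Set T) : Prop :=
  IsLowerSet R ∧ IsChain (· ≤ ·) R ∧ ∀ m ∈ R, ∃ x ∈ R, m < x

/-- The set of all rays of `T` (read literally, the empty chain is one of them). -/
structure RaySpace (T : Type u) [PartialOrder T] where
  /-- the underlying set of nodes -/
  carrier : Set T
  isRay : IsRay carrier

/-- The set of all nonempty rays of `T`. -/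
structure NonemptyRaySpace (T : Type u) [PartialOrder T] where
  /-- the underlying set of nodes -/
  carrier : Set T
  isRay : IsRay carrier
  nonempty : carrier.Nonempty

open Classical in
/-- The characteristic function of a set of nodes, a point of the Cantor cube `2^T`. -/
noncomputable def charFun {T : Type u} (R : Set T) : T → Bool := fun t => decide (t ∈ R)

/-- The ray space carries the topology of a subspace of the Cantor cube `2^T`. -/
noncomputable instance (T : Type u) [PartialOrder T] : TopologicalSpace (RaySpace T) :=
  TopologicalSpace.induced (fun R => charFun R.carrier)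
    (inferInstance : TopologicalSpace (T → Bool))

/-- The space of nonempty rays carries the topology of a subspace of the Cantor cube `2^T`. -/
noncomputable instance (T : Type u) [PartialOrder T] : TopologicalSpace (NonemptyRaySpace T) :=
  TopologicalSpace.induced (fun R => charFun R.carrier)
    (inferInstance : TopologicalSpace (T → Bool))

/-- A ray of the graph `G`: a one-way infinite path. -/
structure GRay {V : Type u} (G : SimpleGraph V) where
  /-- the vertices of the ray, in their order along the ray -/
  toFun : ℕ → V
  injective : Function.Injective toFun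
  adj : ∀ n, G.Adj (toFun n) (toFun (n + 1))

/-- `x` and `y` are joined by a walk of `G` that avoids `F`; that is, they lie in the same
component of `G - F`. -/
def JoinedOff {V : Type u} (G : SimpleGraph V) (F : Set V) (x y : V) : Prop :=
  ∃ p : G.Walk x y, ∀ z ∈ p.support, z ∉ F

/-- The vertex set `F` does not separate the rays `r` and `s`: tails of `r` and `s` lie in the
same component of `G - F`. -/
def NotSeparated {V : Type u} (G : SimpleGraph V) (F : Set V) (r s : GRay G) : Prop :=
  ∃ N, ∀ m ≥ N, ∀ n ≥ N, JoinedOff G F (r.toFun m) (s.toFun n)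

section basics

variable {V : Type u} {G : SimpleGraph V}

lemma JoinedOff.symm {F : Set V} {x y : V} (h : JoinedOff G F x y) : JoinedOff G F y x := by
  obtain ⟨p, hp⟩ := h
  exact ⟨p.reverse, fun z hz => hp z (by simpa using hz)⟩

lemma JoinedOff.trans {F : Set V} {x y z : V} (h : JoinedOff G F x y)
    (h' : JoinedOff G F y z) : JoinedOff G F x z := by
  obtain ⟨p, hp⟩ := h
  obtain ⟨q, hq⟩ := h'
  refine ⟨p.append q, fun w hw => ?_⟩
  rcases SimpleGraph.Walk.mem_support_append_iff _ _ |>.mp hw with h | h
  · exact hp w h
  · exact hq w h

lemma JoinedOff.refl {F : Set V} {x : V} (h : x ∉ F) : JoinedOff G F x x :=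
  ⟨SimpleGraph.Walk.nil, fun z hz => by simp at hz; exact hz ▸ h⟩

lemma GRay.exists_avoid (r : GRay G) {F : Set V} (hF : F.Finite) :
    ∃ N, ∀ n ≥ N, r.toFun n ∉ F := by
  have : (r.toFun ⁻¹' F).Finite := hF.preimage (r.injective.injOn)
  obtain ⟨N, hN⟩ := this.bddAbove
  refine ⟨N + 1, fun n hn hnF => ?_⟩
  have := hN hnF
  omega

lemma GRay.joined (r : GRay G) {F : Set V} {N : ℕ} (hN : ∀ n ≥ N, r.toFun n ∉ F) :
    ∀ n ≥ N, JoinedOff G F (r.toFun N) (r.toFun n) := by
  intro n hn
  induction n, hn using Nat.le_induction with
  | base => exact JoinedOff.refl (hN N (le_refl _))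
  | succ n hn ih =>
    refine ih.trans ?_
    refine ⟨SimpleGraph.Walk.cons (r.adj n) SimpleGraph.Walk.nil, ?_⟩
    intro z hz
    simp only [SimpleGraph.Walk.support_cons, SimpleGraph.Walk.support_nil, List.mem_cons,
      List.not_mem_nil, or_false] at hz
    rcases hz with rfl | rfl
    · exact hN n hn
    · exact hN (n + 1) (by omega)

lemma NotSeparated.refl {F : Set V} (hF : F.Finite) (r : GRay G) : NotSeparated G F r r := by
  obtain ⟨N, hN⟩ := r.exists_avoid hF
  exact ⟨N, fun m hm n hn => (r.joined hN m hm).symm.trans (r.joined hN n hn)⟩

lemma NotSeparated.symm {F : Set V} {r s : GRay G} (h : NotSeparated G F r s) :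
    NotSeparated G F s r := by
  obtain ⟨N, hN⟩ := h
  exact ⟨N, fun m hm n hn => (hN n hn m hm).symm⟩

lemma NotSeparated.trans {F : Set V} {r s t : GRay G} (h : NotSeparated G F r s)
    (h' : NotSeparated G F s t) : NotSeparated G F r t := by
  obtain ⟨N, hN⟩ := h
  obtain ⟨M, hM⟩ := h'
  refine ⟨max N M, fun m hm n hn => ?_⟩
  exact (hN m (le_trans (le_max_left _ _) hm) (max N M) (le_max_left _ _)).trans
    (hM (max N M) (le_max_right _ _) n (le_trans (le_max_right _ _) hn))

end basics

/-- Two rays of `G` are equivalent if no finite set of vertices separates them. -/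
def endSetoid {V : Type u} (G : SimpleGraph V) : Setoid (GRay G) where
  r r s := ∀ F : Set V, F.Finite → NotSeparated G F r s
  iseqv :=
    { refl := fun r _ hF => NotSeparated.refl hF r
      symm := fun h F hF => (h F hF).symm
      trans := fun h h' F hF => (h F hF).trans (h' F hF) }

/-- The set of ends of `G`: the equivalence classes of rays. -/
def EndSpace {V : Type u} (G : SimpleGraph V) : Type u := Quotient (endSetoid G)

/-- The end containing the ray `r`. -/
def endOf {V : Type u} {G : SimpleGraph V} (r : GRay G) : EndSpace G :=
  Quotient.mk (endSetoid G) r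

/-- `Omega ε F`: the ends `η` such that rays in `ε` and rays in `η` are not separated by `F`. -/
def Omega {V : Type u} {G : SimpleGraph V} (ε : EndSpace G) (F : Set V) : Set (EndSpace G) :=
  {η | ∀ r s : GRay G, endOf r = ε → endOf s = η → NotSeparated G F r s}

/-- The topology of the end space, generated by the sets `Omega ε F` with `F` finite. -/
instance {V : Type u} (G : SimpleGraph V) : TopologicalSpace (EndSpace G) :=
  TopologicalSpace.generateFrom {U | ∃ (ε : EndSpace G) (F : Set V), F.Finite ∧ U = Omega ε F}

end Pool.Agent.V11222
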