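import Pool.Agent.V11222.SecondEE
import Pool.Agent.V11222.GenTrans2

/-!
The space `XX G`: a union of two homogeneous subspaces on which no nontrivial partial
homeomorphism acts.
-/

namespace Pool.Agent.V11222

open Set Topology Filter GenTrans

/-- Eventual equality or its second copy. -/
def RR (x y : ℕ → Bool) : Prop := EE x y ∨ EE' x y

lemma countable_RR (x : ℕ → Bool) : {y | RR x y}.Countable :=
  (countable_EE x).union (countable_EE' x)

lemma RR_symm (x y : ℕ → Bool) (h : RR x y) : RR y x := by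
  rcases h with h | h
  · exact Or.inl h.symm
  · exact Or.inr (EE.symm h)

/-- The first homogeneous part. -/
def X0 (G : Generic RR) : Set (ℕ → Bool) := {x | ∃ j, G.c j = false ∧ EE (G.t j) x}

/-- The second homogeneous part. -/
def X1 (G : Generic RR) : Set (ℕ → Bool) := {x | ∃ j, G.c j = true ∧ EE' (G.t j) x}

/-- The union of the two parts. -/
def XX (G : Generic RR) : Set (ℕ → Bool) := X0 G ∪ X1 G

lemma isHomogeneous_X0 (G : Generic RR) : IsHomogeneousSpace (X0 G) := by
  apply isHomogeneous_of_invariant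
  rintro x y hxy ⟨j, hj, h⟩
  exact ⟨j, hj, h.trans hxy⟩

lemma isHomogeneous_X1 (G : Generic RR) : IsHomogeneousSpace (X1 G) := by
  apply isHomogeneous_of_invariant'
  rintro x y hxy ⟨j, hj, h⟩
  exact ⟨j, hj, EE.trans h hxy⟩

lemma disjoint_X0_X1 (G : Generic RR) : Disjoint (X0 G) (X1 G) := by
  rw [Set.disjoint_left]
  rintro x ⟨i, hi, h⟩ ⟨j, hj, h'⟩
  have hij : i ≠ j := by
    rintro rfl
    rw [hi] at hj
    exact Bool.false_ne_true hj
  exact G.disj i j hij x (Or.inl h) (Or.inr h')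

lemma t_mem (G : Generic RR) (j : J) : G.t j ∈ XX G := by
  cases h : G.c j
  · exact Or.inl ⟨j, h, EE.refl _⟩
  · exact Or.inr ⟨j, h, EE.refl _⟩

/-- No embedding of an uncountable closed portion of `XX G` into `XX G` moves all points. -/
theorem no_moving (G : Generic RR) {P : Set C} (hP : IsClosed P) (hPu : ¬ P.Countable)
    (f : ↥(XX G ∩ P) → C) (hf : IsEmbedding f) (hfX : ∀ x, f x ∈ XX G)
    (hne : ∀ x, f x ≠ x.1) : False := by
  classical
  have hKne : Nonempty ↥(XX G ∩ P) := by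
    obtain ⟨j, -, -, hj⟩ := G.exists_mem P hP.measurableSet hPu false (Classical.arbitrary J)
    exact ⟨⟨G.t j, t_mem G j, hj⟩⟩
  let d := dseq (XX G ∩ P)
  let e := eseq f
  let k := G.idx d e
  have key : ∀ (j : J) (hkj : k < j) (hj : G.t j ∈ P),
      (G.c j = false ∧ EE (G.t j) (f ⟨G.t j, t_mem G j, hj⟩)) ∨
      (G.c j = true ∧ EE' (G.t j) (f ⟨G.t j, t_mem G j, hj⟩)) := by
    intro j hkj hj
    have hrho := rho_of_embedding hf ⟨G.t j, t_mem G j, hj⟩
    have hself : RR (G.t j) (G.t j) := Or.inl (EE.refl _)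
    rcases hfX ⟨G.t j, t_mem G j, hj⟩ with ⟨i, hi, h⟩ | ⟨i, hi, h⟩
    · left
      by_cases hij : i = j
      · subst hij
        exact ⟨hi, h⟩
      · exact absurd hrho (G.avoid d e i j hkj hij _ _ (Or.inl h) hself).2
    · right
      by_cases hij : i = j
      · subst hij
        exact ⟨hi, h⟩
      · exact absurd hrho (G.avoid d e i j hkj hij _ _ (Or.inr h) hself).2
  let gr : Set (C × C) := closure (range (fun n => (dseq (XX G ∩ P) n, eseq f n)))
  let F : Finset ℕ → Set C := fun s => {x | (x, flip s x) ∈ gr}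
  have hFc : ∀ s, IsClosed (F s) := fun s =>
    isClosed_closure.preimage (continuous_id.prodMk (continuous_flip s))
  have hB : (P \ ⋃ s, F s).Countable := by
    by_contra hunc
    have hmeas : MeasurableSet (P \ ⋃ s, F s) :=
      hP.measurableSet.diff (MeasurableSet.iUnion (fun s => (hFc s).measurableSet))
    obtain ⟨j, hkj, hcj, hj⟩ := G.exists_mem _ hmeas hunc false k
    rcases key j hkj hj.1 with ⟨-, h⟩ | ⟨h, -⟩
    · obtain ⟨s, hs⟩ := exists_flip_of_EE h
      apply hj.2
      refine mem_iUnion.mpr ⟨s, ?_⟩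
      change (G.t j, flip s (G.t j)) ∈ gr
      rw [← hs]
      exact mem_closure_dseq_eseq hf.continuous ⟨G.t j, t_mem G j, hj.1⟩
    · rw [hcj] at h
      exact Bool.false_ne_true h
  have hex : ∃ s, ¬ (P ∩ F s).Countable := by
    by_contra hcon
    push Not at hcon
    apply hPu
    have h1 : P ⊆ (P \ ⋃ s, F s) ∪ ⋃ s, P ∩ F s := by
      intro x hx
      by_cases h : x ∈ ⋃ s, F s
      · obtain ⟨s, hs⟩ := mem_iUnion.mp h
        exact Or.inr (mem_iUnion.mpr ⟨s, hx, hs⟩)
      · exact Or.inl ⟨hx, h⟩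
    exact (hB.union (countable_iUnion hcon)).mono h1
  obtain ⟨s, hs⟩ := hex
  obtain ⟨j, hkj, hcj, hj⟩ := G.exists_mem _ (hP.inter (hFc s)).measurableSet hs true k
  have h1 : f ⟨G.t j, t_mem G j, hj.1⟩ = flip s (G.t j) :=
    eq_of_mem_closure hf.continuous ⟨G.t j, t_mem G j, hj.1⟩ hj.2
  rcases key j hkj hj.1 with ⟨h, -⟩ | ⟨-, h⟩
  · rw [hcj] at h
    exact Bool.false_ne_true h.symm
  · have h2 : EE (G.t j) (f ⟨G.t j, t_mem G j, hj.1⟩) := by
      rw [h1]
      exact EE_flip s _
    exact hne ⟨G.t j, t_mem G j, hj.1⟩ (eq_of_EE_EE' h2 h).symm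

end Pool.Agent.V11222
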