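import Pool.Agent.V11222.EventualEq

/-!
A second copy of eventual equality, which meets eventual equality only in the diagonal.
-/

namespace Pool.Agent.V11222

open Set Topology

/-- The triangular map of the Cantor space: every coordinate of `x` is copied into infinitely
many later ones. -/
def phi (x : ℕ → Bool) : ℕ → Bool :=
  fun n => if n = 0 then x 0 else xor (x n) (x (Nat.unpair n).1)

/-- The inverse of `phi`. -/
def psi (z : ℕ → Bool) : ℕ → Bool
  | n => if h : n = 0 then z 0 else
      have : (Nat.unpair n).1 < n := Nat.unpair_lt (Nat.one_le_iff_ne_zero.mpr h)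
      xor (z n) (psi z (Nat.unpair n).1)

lemma psi_zero (z : ℕ → Bool) : psi z 0 = z 0 := by
  rw [psi]; simp

lemma psi_of_ne (z : ℕ → Bool) {n : ℕ} (h : n ≠ 0) :
    psi z n = xor (z n) (psi z (Nat.unpair n).1) := by
  rw [psi]; simp [h]

lemma phi_psi (z : ℕ → Bool) : phi (psi z) = z := by
  ext n
  by_cases h : n = 0
  · subst h
    simp [phi, psi_zero]
  · simp only [phi, if_neg h]
    rw [psi_of_ne z h]
    cases z n <;> cases psi z (Nat.unpair n).1 <;> rfl

lemma phi_injective : Function.Injective phi := by
  intro x y hxy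
  ext n
  induction n using Nat.strong_induction_on with
  | _ n ih =>
    have h := congrFun hxy n
    by_cases h0 : n = 0
    · subst h0
      simpa [phi] using h
    · have h1 := ih _ (Nat.unpair_lt (Nat.one_le_iff_ne_zero.mpr h0))
      simp only [phi, if_neg h0] at h
      rw [h1] at h
      revert h
      cases x n <;> cases y n <;> cases y (Nat.unpair n).1 <;> simp

lemma continuous_phi : Continuous phi := by
  refine continuous_pi (fun n => ?_)
  unfold phi
  by_cases h : n = 0
  · simp only [h, if_true]
    exact continuous_apply 0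
  · simp only [h, if_false]
    have h1 : Continuous (fun p : Bool × Bool => xor p.1 p.2) := continuous_of_discreteTopology
    exact h1.comp (f := fun x : ℕ → Bool => (x n, x (Nat.unpair n).1))
      ((continuous_apply n).prodMk (continuous_apply (Nat.unpair n).1))

/-- `phi` as a homeomorphism. -/
noncomputable def phiHomeo : (ℕ → Bool) ≃ₜ (ℕ → Bool) :=
  Continuous.homeoOfEquivCompactToT2
    (f := Equiv.ofBijective phi ⟨phi_injective, fun z => ⟨psi z, phi_psi z⟩⟩) continuous_phi

@[simp] lemma phiHomeo_apply (x : ℕ → Bool) : phiHomeo x = phi x := rfl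

/-- The second copy of eventual equality. -/
def EE' (x y : ℕ → Bool) : Prop := EE (phi x) (phi y)

lemma eq_of_EE_EE' {x y : ℕ → Bool} (h : EE x y) (h' : EE' x y) : x = y := by
  by_contra hne
  obtain ⟨k, hk⟩ := Function.ne_iff.mp hne
  have hinf : (range (fun m : ℕ => Nat.pair k m)).Infinite :=
    infinite_range_of_injective (fun m m' hm => by simpa using hm)
  have hfin : ({n | x n ≠ y n} ∪ {n | phi x n ≠ phi y n} ∪ {0}).Finite :=
    (h.union h').union (finite_singleton 0)
  obtain ⟨n, ⟨m, rfl⟩, hn⟩ := (hinf.sdiff hfin).nonempty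
  simp only [mem_union, mem_singleton_iff, not_or, mem_ofPred_eq, not_not] at hn
  obtain ⟨⟨h1, h2⟩, h3⟩ := hn
  simp only [phi, if_neg h3, Nat.unpair_pair, h1] at h2
  apply hk
  revert h2
  cases y (Nat.pair k m) <;> cases x k <;> cases y k <;> simp

lemma countable_EE' (x : ℕ → Bool) : {y | EE' x y}.Countable := by
  have h1 : {y | EE' x y} = phi ⁻¹' {z | EE (phi x) z} := rfl
  rw [h1]
  exact (countable_EE (phi x)).preimage phi_injective

/-- A set of 0-1 sequences that is invariant under the second copy is homogeneous. -/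
theorem isHomogeneous_of_invariant' {A : Set (ℕ → Bool)}
    (hA : ∀ x y, EE' x y → x ∈ A → y ∈ A) : IsHomogeneousSpace A := by
  have h1 : IsHomogeneousSpace (psi ⁻¹' A) := by
    apply isHomogeneous_of_invariant
    intro x y hxy hx
    refine hA _ _ ?_ hx
    unfold EE'
    rwa [phi_psi, phi_psi]
  have h2 : ∀ x, x ∈ A ↔ phiHomeo x ∈ psi ⁻¹' A := by
    intro x
    have : psi (phi x) = x := phi_injective (phi_psi (phi x))
    simp [this]
  exact IsHomogeneousSpace.of_homeomorph (phiHomeo.subtype h2).symm h1

end Pool.Agent.V11222
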