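import Pool.Agent.V11222.RayEndDefs

/-!
Combinatorics of order trees: special sets, the ideal of regressively small sets,
ray spaces.
-/

namespace Pool.Agent.V11222

open Set Topology

universe u v

section Spec

variable {T : Type u} [PartialOrder T]

/-- special subsets, by colourings -/
def Spec (A : Set T) : Prop := ∃ c : T → ℕ, ∀ x ∈ A, ∀ y ∈ A, x < y → c x ≠ c y

lemma Spec.mono {A B : Set T} (h : Spec B) (hAB : A ⊆ B) : Spec A := by
  obtain ⟨c, hc⟩ := h
  exact ⟨c, fun x hx y hy hxy => hc x (hAB hx) y (hAB hy) hxy⟩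

lemma spec_of_antichain {A : Set T} (h : ∀ x ∈ A, ∀ y ∈ A, ¬ x < y) : Spec A :=
  ⟨fun _ => 0, fun x hx y hy hxy => absurd hxy (h x hx y hy)⟩

lemma spec_cover {ι : Type*} [Countable ι] {A : Set T} (B : ι → Set T)
    (hA : A ⊆ ⋃ i, B i) (hB : ∀ i, Spec (B i)) : Spec A := by
  classical
  choose c hc using hB
  obtain ⟨e, he⟩ := exists_injective_nat ι
  have hch : ∀ x ∈ A, ∃ i, x ∈ B i := fun x hx => by simpa using hA hx
  choose i hi using hch
  refine ⟨fun x => if h : x ∈ A then Nat.pair (e (i x h)) (c (i x h) x) else 0, ?_⟩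
  intro x hx y hy hxy hcol
  simp only [hx, hy, dif_pos] at hcol
  have h1 := Nat.pair_eq_pair.mp hcol
  have h2 : i x hx = i y hy := he h1.1
  have h3 := h1.2
  rw [h2] at h3
  exact hc (i y hy) x (h2 ▸ hi x hx) y (hi y hy) hxy h3

lemma spec_countable {A : Set T} (h : A.Countable) : Spec A := by
  have : Countable A := h.to_subtype
  refine spec_cover (fun a : A => {(a : T)}) ?_ ?_
  · intro x hx
    simp only [mem_iUnion, mem_singleton_iff]
    exact ⟨⟨x, hx⟩, rfl⟩
  · intro a
    apply spec_of_antichain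
    intro x hx y hy hxy
    simp only [mem_singleton_iff] at hx hy
    subst hx; subst hy
    exact lt_irrefl _ hxy

lemma spec_union {A B : Set T} (hA : Spec A) (hB : Spec B) : Spec (A ∪ B) := by
  refine spec_cover (fun b : Bool => if b then A else B) ?_ ?_
  · intro x hx
    rcases hx with hx | hx
    · exact mem_iUnion.mpr ⟨true, by simpa using hx⟩
    · exact mem_iUnion.mpr ⟨false, by simpa using hx⟩
  · intro b; cases b
    · simpa using hB
    · simpa using hA

/-- the ideal of sets carrying a regressive function with special fibres -/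
def NS (E : Set T) : Prop :=
  ∃ g : T → T, (∀ t ∈ E, g t < t) ∧ ∀ s, Spec {t | t ∈ E ∧ g t = s}

lemma NS.mono {A B : Set T} (h : NS B) (hAB : A ⊆ B) : NS A := by
  obtain ⟨g, hg, hs⟩ := h
  exact ⟨g, fun t ht => hg t (hAB ht), fun s => (hs s).mono (fun x hx => ⟨hAB hx.1, hx.2⟩)⟩

lemma NS.union {A B : Set T} (hA : NS A) (hB : NS B) : NS (A ∪ B) := by
  classical
  obtain ⟨g, hg, hs⟩ := hA
  obtain ⟨g', hg', hs'⟩ := hB
  refine ⟨fun t => if t ∈ A then g t else g' t, ?_, ?_⟩
  · intro t ht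
    by_cases h : t ∈ A
    · simpa [h] using hg t h
    · simpa [h] using hg' t (ht.resolve_left h)
  · intro s
    refine (spec_union (hs s) (hs' s)).mono ?_
    rintro x ⟨hx, hxs⟩
    by_cases h : x ∈ A
    · left; exact ⟨h, by simpa [h] using hxs⟩
    · right; exact ⟨hx.resolve_left h, by simpa [h] using hxs⟩

lemma NS_of_rel {E : Set T} {Y : Type*} (C : T → Set Y) (hC : ∀ s, (C s).Countable)
    (P : T → T → Y → Prop) (h1 : ∀ t ∈ E, ∃ s, s < t ∧ ∃ y ∈ C s, P t s y)
    (h2 : ∀ s, ∀ y ∈ C s, Spec {t | t ∈ E ∧ s < t ∧ P t s y}) : NS E := by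
  classical
  choose s hs y hy hP using h1
  refine ⟨fun t => if h : t ∈ E then s t h else t, ?_, ?_⟩
  · intro t ht
    simpa [ht] using hs t ht
  · intro s₀
    have : Countable (C s₀) := (hC s₀).to_subtype
    refine spec_cover (fun y : C s₀ => {t | t ∈ E ∧ s₀ < t ∧ P t s₀ y}) ?_ (fun y => h2 s₀ y y.2)
    rintro t ⟨ht, hts⟩
    simp only [ht, dif_pos] at hts
    refine mem_iUnion.mpr ⟨⟨y t ht, hts ▸ hy t ht⟩, ht, hts ▸ hs t ht, ?_⟩
    have := hP t ht
    rw [hts] at this
    exact this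

end Spec

section Tree

variable {T : Type u} [PartialOrder T] (hT : IsOrderTree T)

include hT

lemma IsOrderTree.comp {t x y : T} (hx : x ≤ t) (hy : y ≤ t) : x ≤ y ∨ y ≤ x := by
  have := hT.wellOrdered t
  rcases trichotomous_of ((· < ·) : Iic t → Iic t → Prop) (⟨x, hx⟩ : Iic t) ⟨y, hy⟩ with h | h | h
  · exact Or.inl (le_of_lt h)
  · exact Or.inl (le_of_eq (congrArg Subtype.val h))
  · exact Or.inr (le_of_lt h)

lemma IsOrderTree.wf : WellFounded ((· < ·) : T → T → Prop) := by
  refine ⟨fun t => ?_⟩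
  have hw : WellFounded ((· < ·) : Iic t → Iic t → Prop) := (hT.wellOrdered t).wf
  have : ∀ x : Iic t, Acc ((· < ·) : T → T → Prop) (x : T) := by
    intro x
    induction x using hw.induction with
    | _ x ih =>
      refine Acc.intro _ (fun y hy => ?_)
      exact ih ⟨y, le_trans (le_of_lt hy) x.2⟩ hy
  exact this ⟨t, le_refl t⟩

lemma special_of_NS {r : T} (hr : ∀ t, r ≤ t) (h : NS {t : T | t ≠ r}) :
    Spec (Set.univ : Set T) := by
  classical
  obtain ⟨g, hg, hs⟩ := h
  choose c hc using hs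
  let g' : T → T := fun t => if t = r then r else g t
  have hD : ∀ n : ℕ, Spec {t | g'^[n] t = r} := by
    intro n
    induction n with
    | zero =>
      apply spec_of_antichain
      intro x hx y hy hxy
      simp only [Function.iterate_zero, id, mem_ofPred_eq] at hx hy
      subst hx; subst hy; exact lt_irrefl _ hxy
    | succ n ih =>
      obtain ⟨d, hd⟩ := ih
      have h1 : Spec {t | t ≠ r ∧ g'^[n] (g t) = r} := by
        refine ⟨fun t => Nat.pair (d (g t)) (c (g t) t), ?_⟩
        rintro x ⟨hxr, hx⟩ y ⟨hyr, hy⟩ hxy hcol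
        have h2 := Nat.pair_eq_pair.mp hcol
        have hgx := hg x hxr
        have hgy := hg y hyr
        have hcomp : g x ≤ g y ∨ g y ≤ g x :=
          hT.comp (t := y) (le_of_lt (lt_trans hgx hxy)) (le_of_lt hgy)
        have heq : g x = g y := by
          by_contra hne
          rcases hcomp with h | h
          · exact hd (g x) hx (g y) hy (lt_of_le_of_ne h hne) h2.1
          · exact hd (g y) hy (g x) hx (lt_of_le_of_ne h (Ne.symm hne)) h2.1.symm
        have h3 := h2.2
        rw [heq] at h3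
        exact hc (g y) x ⟨hxr, heq⟩ y ⟨hyr, rfl⟩ hxy h3
      refine (spec_union h1 (spec_countable (countable_singleton r))).mono ?_
      intro t ht
      simp only [mem_ofPred_eq, Function.iterate_succ, Function.comp] at ht
      by_cases h : t = r
      · right; simpa using h
      · left; refine ⟨h, ?_⟩
        simpa [g', h] using ht
  refine spec_cover (fun n : ℕ => {t | g'^[n] t = r}) ?_ hD
  intro t _
  rw [mem_iUnion]
  induction t using hT.wf.induction with
  | _ t ih =>
    by_cases h : t = r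
    · exact ⟨0, h⟩
    · obtain ⟨n, hn⟩ := ih (g t) (hg t h) (mem_univ _)
      refine ⟨n + 1, ?_⟩
      simpa [Function.iterate_succ, Function.comp, g', h] using hn

end Tree

section Special

variable {T : Type u} [PartialOrder T]

lemma isSpecial_of_spec (h : Spec (Set.univ : Set T)) : IsSpecial T := by
  obtain ⟨c, hc⟩ := h
  refine ⟨fun n => {t | c t = n}, ?_, ?_⟩
  · intro n x hx y hy hne hle
    simp only [mem_ofPred_eq] at hx hy
    exact hc x (mem_univ _) y (mem_univ _) (lt_of_le_of_ne hle hne) (hx.trans hy.symm)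
  · ext t; simp

/-- limit nodes -/
def IsLim (t : T) : Prop := (∃ s, s < t) ∧ ∀ s, s < t → ∃ s', s < s' ∧ s' < t

lemma NS_of_spec {r : T} {E : Set T} (hr : ∀ t ∈ E, r < t) (h : Spec E) : NS E :=
  ⟨fun _ => r, hr, fun s => h.mono (fun x hx => hx.1)⟩

lemma NS_succ : NS {t : T | ∃ p, p < t ∧ ∀ s, p < s → ¬ s < t} := by
  refine NS_of_rel (fun _ : T => (Set.univ : Set Unit)) (fun _ => countable_univ)
    (fun t s _ => ∀ s', s < s' → ¬ s' < t) ?_ ?_
  · rintro t ⟨p, hp, h⟩
    exact ⟨p, hp, (), mem_univ _, h⟩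
  · intro s y _
    apply spec_of_antichain
    rintro x ⟨_, hsx, _⟩ z ⟨_, _, hz⟩ hxz
    exact hz x hsx hxz

lemma NS_lim1 : NS {t : T | IsLim t ∧ ∃ u, u < t ∧ ∀ w, IsLim w → u < w → ¬ w < t} := by
  refine NS_of_rel (fun _ : T => (Set.univ : Set Unit)) (fun _ => countable_univ)
    (fun t s _ => ∀ w, IsLim w → s < w → ¬ w < t) ?_ ?_
  · rintro t ⟨ht, p, hp, h⟩
    exact ⟨p, hp, (), mem_univ _, h⟩
  · intro s y _
    apply spec_of_antichain
    rintro x ⟨hx, hsx, _⟩ y ⟨_, _, hy⟩ hxy
    exact hy x hx.1 hsx hxy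

/-- the ray below a limit node -/
lemma isRay_Iio (hT : IsOrderTree T) {t : T} (ht : IsLim t) : IsRay (Set.Iio t) := by
  refine ⟨fun a b hab ha => lt_of_le_of_lt hab ha, ?_, ?_⟩
  · intro a ha b hb _
    exact hT.comp (le_of_lt ha) (le_of_lt hb)
  · intro m hm
    obtain ⟨s', h1, h2⟩ := ht.2 m hm
    exact ⟨s', h2, h1⟩

/-- Sets of nodes whose rays are pairwise comparable are special, if chains are countable. -/
lemma spec_of_comparable {P : Set T}
    (hc : ∀ c : Set T, IsChain (· ≤ ·) c → c.Countable) (hT : IsOrderTree T)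
    (hP : ∀ t ∈ P, ∀ t' ∈ P, Set.Iio t ⊆ Set.Iio t' ∨ Set.Iio t' ⊆ Set.Iio t) : Spec P := by
  let c : Set T := {x | ∃ t ∈ P, x < t}
  have hcc : c.Countable := by
    apply hc
    rintro x ⟨t, ht, hxt⟩ y ⟨t', ht', hyt'⟩ _
    rcases hP t ht t' ht' with h | h
    · exact hT.comp (le_of_lt (h hxt)) (le_of_lt hyt')
    · exact hT.comp (le_of_lt hxt) (le_of_lt (h hyt'))
  refine (spec_union (A := P ∩ c) (B := P \ c) (spec_countable (hcc.mono inter_subset_right))
    ?_).mono (fun x hx => ?_)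
  · apply spec_of_antichain
    rintro x ⟨_, hxc⟩ y ⟨hy, _⟩ hxy
    exact hxc ⟨y, hy, hxy⟩
  · by_cases h : x ∈ c
    · exact Or.inl ⟨hx, h⟩
    · exact Or.inr ⟨hx, h⟩

end Special

section Rays

variable {T : Type u} [PartialOrder T]

lemma isOpen_cone (t : T) : IsOpen {R : NonemptyRaySpace T | t ∈ R.1} := by
  rw [isOpen_induced_iff]
  refine ⟨{f | f t = true}, ?_, ?_⟩
  · exact (isOpen_discrete ({true} : Set Bool)).preimage
      (continuous_apply t : Continuous (fun f : T → Bool => f t))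
  · ext R; simp [charFun]

lemma isClosed_cone (t : T) : IsClosed {R : NonemptyRaySpace T | t ∈ R.1} := by
  rw [isClosed_induced_iff]
  refine ⟨{f | f t = true}, ?_, ?_⟩
  · exact (isClosed_discrete ({true} : Set Bool)).preimage
      (continuous_apply t : Continuous (fun f : T → Bool => f t))
  · ext R; simp [charFun]

lemma nhd_basis (x : NonemptyRaySpace T) {O : Set (NonemptyRaySpace T)}
    (hO : IsOpen O) (hx : x ∈ O) :
    ∃ h ∈ x.1, ∃ F : Set T, F.Finite ∧ (∀ y ∈ F, y ∉ x.1) ∧
      ∀ R : NonemptyRaySpace T, h ∈ R.1 → (∀ y ∈ F, y ∉ R.1) → R ∈ O := by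
  classical
  rw [isOpen_induced_iff] at hO
  obtain ⟨O', hO', rfl⟩ := hO
  rw [isOpen_pi_iff] at hO'
  obtain ⟨I, u, hu, hsub⟩ := hO' (charFun x.1) hx
  obtain ⟨z, hz⟩ := x.3
  have hch := x.2.2.1
  have hmax : ∀ I : Finset T, (∀ a ∈ I, a ∈ x.1) → ∃ h ∈ x.1, ∀ a ∈ I, a ≤ h := by
    intro I
    induction I using Finset.induction_on with
    | empty => intro _; exact ⟨z, hz, by simp⟩
    | insert a I _ ih =>
      intro hI
      obtain ⟨h, hh, hle⟩ := ih (fun b hb => hI b (Finset.mem_insert_of_mem hb))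
      have ha := hI a (Finset.mem_insert_self a I)
      rcases hch.total ha hh with h1 | h1
      · refine ⟨h, hh, ?_⟩
        intro b hb
        rcases Finset.mem_insert.mp hb with rfl | hb
        · exact h1
        · exact hle b hb
      · refine ⟨a, ha, ?_⟩
        intro b hb
        rcases Finset.mem_insert.mp hb with rfl | hb
        · exact le_refl _
        · exact le_trans (hle b hb) h1
  obtain ⟨h, hh, hle⟩ := hmax (I.filter (fun a => a ∈ x.1)) (by simp)
  refine ⟨h, hh, {a | a ∈ I ∧ a ∉ x.1}, ?_, ?_, ?_⟩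
  · exact (I.finite_toSet).subset (fun a ha => ha.1)
  · intro y hy; exact hy.2
  · intro R hhR hFR
    apply hsub
    intro a ha
    have heq : charFun R.1 a = charFun x.1 a := by
      by_cases hax : a ∈ x.1
      · have : a ∈ R.1 := R.2.1 (hle a (by simp [hax]; exact ha)) hhR
        simp [charFun, hax, this]
      · have : a ∉ R.1 := hFR a ⟨ha, hax⟩
        simp [charFun, hax, this]
    have h3 : charFun R.1 a ∈ u a := by rw [heq]; exact (hu a ha).2
    exact h3

lemma nhd_basis_above (x : NonemptyRaySpace T)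
    {O : Set (NonemptyRaySpace T)} (hO : IsOpen O) (hx : x ∈ O) :
    ∃ h ∈ x.1, ∃ F : Set T, F.Finite ∧ (∀ y ∈ F, ∀ z ∈ x.1, z < y) ∧
      ∀ R : NonemptyRaySpace T, h ∈ R.1 → (∀ y ∈ F, y ∉ R.1) → R ∈ O := by
  classical
  obtain ⟨h, hh, F, hF, hFx, hR⟩ := nhd_basis x hO hx
  have hmax : ∀ I : Finset T, ∃ h' ∈ x.1, h ≤ h' ∧ ∀ y ∈ I, (∃ z ∈ x.1, ¬ z < y) →
      ∃ z ∈ x.1, ¬ z < y ∧ z ≤ h' := by
    intro I
    induction I using Finset.induction_on with
    | empty => exact ⟨h, hh, le_refl _, by simp⟩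
    | insert a I _ ih =>
      obtain ⟨h', hh', hle', hI⟩ := ih
      by_cases ha : ∃ z ∈ x.1, ¬ z < a
      · obtain ⟨z, hz, hza⟩ := ha
        rcases x.2.2.1.total hz hh' with h1 | h1
        · refine ⟨h', hh', hle', ?_⟩
          intro b hb hbz
          rcases Finset.mem_insert.mp hb with rfl | hb
          · exact ⟨z, hz, hza, h1⟩
          · exact hI b hb hbz
        · refine ⟨z, hz, le_trans hle' h1, ?_⟩
          intro b hb hbz
          rcases Finset.mem_insert.mp hb with rfl | hb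
          · exact ⟨z, hz, hza, le_refl _⟩
          · obtain ⟨z', hz', h2, h3⟩ := hI b hb hbz
            exact ⟨z', hz', h2, le_trans h3 h1⟩
      · refine ⟨h', hh', hle', ?_⟩
        intro b hb hbz
        rcases Finset.mem_insert.mp hb with rfl | hb
        · exact absurd hbz ha
        · exact hI b hb hbz
  obtain ⟨h', hh', hle', hI⟩ := hmax hF.toFinset
  refine ⟨h', hh', {y | y ∈ F ∧ ∀ z ∈ x.1, z < y}, hF.subset (fun y hy => hy.1),
    fun y hy => hy.2, ?_⟩
  intro R hhR hFR
  refine hR R (R.2.1 hle' hhR) ?_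
  intro y hy hyR
  by_cases hyx : ∀ z ∈ x.1, z < y
  · exact hFR y ⟨hy, hyx⟩ hyR
  · push Not at hyx
    obtain ⟨z, hz, hzy, hzh⟩ := hI y (by simpa using hy) hyx
    have hzR : z ∈ R.1 := R.2.1 hzh hhR
    rcases R.2.2.1.total hzR hyR with h1 | h1
    · rcases eq_or_lt_of_le h1 with h2 | h2
      · exact hFx y hy (h2 ▸ hz)
      · exact hzy h2
    · exact hFx y hy (x.2.1 h1 hz)

/-- If the space of nonempty rays is countably tight, all chains of `T` are countable. -/
lemma chains_countable (hT : IsOrderTree T)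
    (htight : ∀ (A : Set (NonemptyRaySpace T)) (x : NonemptyRaySpace T), x ∈ closure A →
      ∃ B ⊆ A, B.Countable ∧ x ∈ closure B) :
    ∀ c : Set T, IsChain (· ≤ ·) c → c.Countable := by
  classical
  intro c hc
  by_contra hunc
  let c' : Set T := {x | ∃ y ∈ c, x ≤ y}
  have hc'tot : ∀ x ∈ c', ∀ y ∈ c', x ≤ y ∨ y ≤ x := by
    rintro x ⟨a, ha, hxa⟩ y ⟨b, hb, hyb⟩
    rcases hc.total ha hb with h | h
    · exact hT.comp (le_trans hxa h) hyb
    · exact hT.comp hxa (le_trans hyb h)
  have hcc' : c ⊆ c' := fun x hx => ⟨x, hx, le_refl x⟩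
  have hc'unc : ¬ c'.Countable := fun h => hunc (h.mono hcc')
  let b : Set T := {x | x ∈ c' ∧ (Set.Iic x).Countable}
  have hbunc : ¬ b.Countable := by
    intro hb
    have hne : (c' \ b).Nonempty := by
      rw [Set.nonempty_iff_ne_empty]
      intro h
      exact hc'unc (hb.mono (sdiff_eq_empty.mp h))
    obtain ⟨m, hm, hmin⟩ := hT.wf.has_min _ hne
    apply hm.2
    refine ⟨hm.1, ?_⟩
    have hsub : Set.Iic m ⊆ b ∪ {m} := by
      intro x hx
      rcases eq_or_lt_of_le (show x ≤ m from hx) with h | h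
      · right; exact h
      · left
        by_contra hxb
        obtain ⟨y, hy, hmy⟩ := hm.1
        exact hmin x ⟨⟨y, hy, le_trans (le_of_lt h) hmy⟩, hxb⟩ h
    exact (hb.union (countable_singleton m)).mono hsub
  have hbray : IsRay b := by
    refine ⟨?_, ?_, ?_⟩
    · rintro x y hyx hxb
      obtain ⟨⟨z, hz, hxz⟩, hx⟩ := hxb
      exact ⟨⟨z, hz, le_trans hyx hxz⟩, hx.mono (Iic_subset_Iic.mpr hyx)⟩
    · intro x hx y hy _
      exact hc'tot x hx.1 y hy.1
    · intro m hm
      by_contra hmax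
      push Not at hmax
      apply hbunc
      refine hm.2.mono ?_
      intro x hx
      rcases hc'tot x hx.1 m hm.1 with h | h
      · exact h
      · rcases eq_or_lt_of_le h with h1 | h1
        · exact le_of_eq h1.symm
        · exact absurd h1 (hmax x hx)
  have hbne : b.Nonempty := by
    rw [Set.nonempty_iff_ne_empty]
    intro h
    apply hbunc
    rw [h]; exact countable_empty
  let B : NonemptyRaySpace T := ⟨b, hbray, hbne⟩
  let A : Set (NonemptyRaySpace T) := {R | R.1 ⊆ b ∧ R.1 ≠ b}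
  have hclos : B ∈ closure A := by
    rw [mem_closure_iff]
    intro O hO hBO
    obtain ⟨h, hh, F, hF, hFb, hR⟩ := nhd_basis B hO hBO
    have hstep : ∀ x : b, ∃ y : b, (x : T) < y := by
      intro x
      obtain ⟨y, hy, hxy⟩ := hbray.2.2 x x.2
      exact ⟨⟨y, hy⟩, hxy⟩
    choose nx hnx using hstep
    let s : ℕ → b := fun n => nx^[n] ⟨h, hh⟩
    have hs : ∀ n, (s n : T) < s (n + 1) := by
      intro n
      have : s (n + 1) = nx (s n) := Function.iterate_succ_apply' nx n ⟨h, hh⟩
      rw [this]; exact hnx _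
    have hsm : StrictMono (fun n => (s n : T)) := strictMono_nat_of_lt_succ hs
    let R : Set T := ⋃ n, Set.Iic (s n : T)
    have hRsub : R ⊆ b := by
      intro x hx
      obtain ⟨n, hn⟩ := mem_iUnion.mp hx
      exact hbray.1 hn (s n).2
    have hRray : IsRay R := by
      refine ⟨?_, ?_, ?_⟩
      · intro x y hyx hx
        obtain ⟨n, hn⟩ := mem_iUnion.mp hx
        exact mem_iUnion.mpr ⟨n, le_trans hyx hn⟩
      · intro x hx y hy _
        exact hc'tot x (hRsub hx).1 y (hRsub hy).1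
      · intro m hm
        obtain ⟨n, hn⟩ := mem_iUnion.mp hm
        exact ⟨s (n + 1), mem_iUnion.mpr ⟨n + 1, le_refl _⟩, lt_of_le_of_lt hn (hs n)⟩
    have hRcount : R.Countable := by
      apply countable_iUnion
      intro n
      exact (s n).2.2
    have hRne : R ≠ b := fun h => hbunc (h ▸ hRcount)
    have hhR : h ∈ R := mem_iUnion.mpr ⟨0, le_refl h⟩
    refine ⟨(⟨R, hRray, ⟨h, hhR⟩⟩ : NonemptyRaySpace T), ?_, hRsub, hRne⟩
    refine hR _ hhR ?_
    intro y hy hyR
    exact hFb y hy (hRsub hyR)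
  obtain ⟨C, hCA, hCc, hBC⟩ := htight A B hclos
  have hpick : ∀ R : C, ∃ y ∈ b, y ∉ R.1.1 := by
    intro R
    have hR := hCA R.2
    by_contra hcon
    push Not at hcon
    exact hR.2 (Subset.antisymm hR.1 hcon)
  choose y hyb hyR using hpick
  have : Countable C := hCc.to_subtype
  have hw : ∃ w ∈ b, ∀ R : C, y R < w := by
    by_contra hcon
    push Not at hcon
    apply hbunc
    have hsub : b ⊆ ⋃ R : C, Set.Iic (y R) := by
      intro w hw
      obtain ⟨R, hR⟩ := hcon w hw
      refine mem_iUnion.mpr ⟨R, ?_⟩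
      rcases hc'tot w hw.1 (y R) (hyb R).1 with h | h
      · exact h
      · rcases eq_or_lt_of_le h with h1 | h1
        · exact le_of_eq h1.symm
        · exact absurd h1 hR
    exact (countable_iUnion (fun R => (hyb R).2)).mono hsub
  obtain ⟨w, hwb, hw⟩ := hw
  rw [mem_closure_iff] at hBC
  obtain ⟨R, hR1, hR2⟩ := hBC _ (isOpen_cone w) hwb
  exact hyR ⟨R, hR2⟩ (R.2.1 (le_of_lt (hw ⟨R, hR2⟩)) hR1)

end Rays

end Pool.Agent.V11222
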